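import Pool.Agent.Helper533.NHM.PotA
open MeasureTheory Filter Topology Set Metric
open scoped ENNReal NNReal RealInnerProductSpace

/-!
Openness of `𝔄_p`-harmonic morphisms (MP_abd978_an): basic definitions.
The library `Pool.Agent.Helper533.Polar` (weighted nonlinear potential theory) is used.
-/

namespace Pool.Agent.Helper80.HMO

open Pool.Agent.Helper533

/-- `ℝⁿ` -/
abbrev Sp (n : ℕ) := EuclideanSpace ℝ (Fin n)

variable {n : ℕ}

/-- an operator `A` together with its admissible measure `μ`, all structural constants `c` -/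
structure Dat (n : ℕ) (p α β Cd θ Cs lam Cp : ℝ) (μ : Measure (Sp n)) (A : Sp n → Sp n → Sp n) :
    Prop where
  hp : 1 < p
  hα : 0 < α
  hβ : 0 < β
  fin : IsFiniteMeasureOnCompacts μ
  adm : Polar.Adm p μ Cd θ Cs lam Cp
  op : Polar.Op p α β μ A
  smono : Polar.SMono μ A

/-- `u` is `A`-harmonic in the open set `U` -/
def Harm (A : Sp n → Sp n → Sp n) (p : ℝ) (μ : Measure (Sp n)) (U : Set (Sp n)) (u : Sp n → ℝ) :
    Prop :=
  ContinuousOn u U ∧ ∃ H : Sp n → Sp n, Polar.LH p μ U u H ∧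
    ∀ φ : Sp n → ℝ, Polar.Cc U φ → ∫ x, ⟪A x (H x), gradient φ x⟫ ∂μ = 0

/-- `(A*, A)`-harmonic morphism (`ν`, `Astar`: source side; `μ`, `A`: target side) -/
structure Morph (p : ℝ) (ν μ : Measure (Sp n)) (Astar A : Sp n → Sp n → Sp n) (G : Set (Sp n))
    (f : Sp n → Sp n) : Prop where
  cont : ContinuousOn f G
  pull : ∀ G' : Set (Sp n), IsOpen G' → ∀ u : Sp n → ℝ, Harm A p μ G' u →
    Harm Astar p ν (G ∩ f ⁻¹' G') (u ∘ f)

/-- `ω` is a potential in the ball `B(y₀,S)` of a set between `closedBall y₁ t₁` and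
`closedBall y₁ (2 t₁)` -/
structure Pot (A : Sp n → Sp n → Sp n) (p : ℝ) (μ : Measure (Sp n)) (y₀ : Sp n) (S : ℝ)
    (y₁ : Sp n) (t₁ : ℝ) (ω : Sp n → ℝ) : Prop where
  cont : Continuous ω
  nonneg : ∀ z, 0 ≤ ω z
  le_one : ∀ z, ω z ≤ 1
  zero : ∀ z, z ∉ ball y₀ S → ω z = 0
  one : ∀ z ∈ closedBall y₁ t₁, ω z = 1
  pos : ∀ z ∈ ball y₀ S, 0 < ω z
  sup : ∃ W : Sp n → Sp n, Polar.Sup A p μ (ball y₀ S) ω W
  sub : ∃ W : Sp n → Sp n, Polar.Sub A p μ ((closedBall y₁ (2 * t₁))ᶜ) ω W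
  harm : Harm A p μ (ball y₀ S \ closedBall y₁ (2 * t₁)) ω

end Pool.Agent.Helper80.HMO
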