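import Pool.Agent.Helper80.HMO.Api
open MeasureTheory Filter Topology Set Metric
open scoped ENNReal NNReal RealInnerProductSpace

namespace Pool.Agent.Helper80.HMO

open Pool.Agent.Helper533

variable {n : ℕ} {p α β Cd θ Cs lam Cp : ℝ} {μ : Measure (Sp n)} {A : Sp n → Sp n → Sp n}


private def j13902_S {X : Type*} [MetricSpace X] (K : Set X) (ε : ℝ) (a0 : X) (k : ℕ) (b : X) : Prop :=
  ∃ c : ℕ → X, c 0 = a0 ∧ c k = b ∧ (∀ i, c i ∈ K) ∧ ∀ i, dist (c i) (c (i + 1)) ≤ ε

private theorem j13902_step {X : Type*} [MetricSpace X] {K : Set X} {ε : ℝ} (hε : 0 < ε) {a0 b b' : X}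
    {k : ℕ} (h : j13902_S K ε a0 k b) (hb' : b' ∈ K) (hd : dist b b' ≤ ε) :
    j13902_S K ε a0 (k + 1) b' := by
  obtain ⟨c, h0, hk, hK, hs⟩ := h
  refine ⟨fun i => if i ≤ k then c i else b', ?_, ?_, ?_, ?_⟩
  · simp [h0]
  · simp
  · intro i
    dsimp only
    split_ifs
    · exact hK i
    · exact hb'
  · intro i
    dsimp only
    rcases Nat.lt_trichotomy i k with h | h | h
    · rw [if_pos (by omega), if_pos (by omega)]; exact hs i
    · rw [if_pos (by omega), if_neg (by omega), h, hk]; exact hd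
    · rw [if_neg (by omega), if_neg (by omega), dist_self]; exact hε.le

private theorem j13902_mono {X : Type*} [MetricSpace X] {K : Set X} {ε : ℝ} (hε : 0 < ε) {a0 b : X}
    {k l : ℕ} (hkl : k ≤ l) (h : j13902_S K ε a0 k b) : j13902_S K ε a0 l b := by
  induction l, hkl using Nat.le_induction with
  | base => exact h
  | succ m _ ih =>
    have hb : b ∈ K := by
      obtain ⟨c, _, hk, hK, _⟩ := ih
      rw [← hk]; exact hK _
    exact j13902_step hε ih hb (by rw [dist_self]; exact hε.le)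

/-- chains in compact connected sets -/
theorem chain_of_preconnected {X : Type*} [MetricSpace X] {K : Set X} (hK : IsCompact K)
    (hKc : IsPreconnected K) {ε : ℝ} (hε : 0 < ε) : ∃ N : ℕ, ∀ a ∈ K, ∀ b ∈ K,
    ∃ c : ℕ → X, c 0 = a ∧ c N = b ∧ (∀ i, c i ∈ K) ∧ ∀ i, dist (c i) (c (i + 1)) ≤ ε := by
  rcases K.eq_empty_or_nonempty with rfl | ⟨a0, ha0⟩
  · exact ⟨0, fun a ha => absurd ha (Set.notMem_empty a)⟩
  -- every point is reached
  have hall : ∀ b ∈ K, ∃ k, j13902_S K ε a0 k b := by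
    by_contra hc
    push Not at hc
    obtain ⟨b1, hb1, hb1'⟩ := hc
    obtain ⟨u, hu⟩ : ∃ u : Set X, u = ⋃ b ∈ {b | b ∈ K ∧ ∃ k, j13902_S K ε a0 k b}, ball b (ε / 2) :=
      ⟨_, rfl⟩
    obtain ⟨v, hv⟩ : ∃ v : Set X, v = ⋃ b ∈ {b | b ∈ K ∧ ∀ k, ¬ j13902_S K ε a0 k b}, ball b (ε / 2) :=
      ⟨_, rfl⟩
    have huo : IsOpen u := by rw [hu]; exact isOpen_biUnion fun _ _ => isOpen_ball
    have hvo : IsOpen v := by rw [hv]; exact isOpen_biUnion fun _ _ => isOpen_ball
    have hcov : K ⊆ u ∪ v := by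
      intro x hx
      by_cases h : ∃ k, j13902_S K ε a0 k x
      · left; rw [hu]; exact mem_biUnion (show x ∈ {b | b ∈ K ∧ ∃ k, j13902_S K ε a0 k b} from ⟨hx, h⟩)
          (mem_ball_self (by positivity))
      · push Not at h
        right; rw [hv]; exact mem_biUnion (show x ∈ {b | b ∈ K ∧ ∀ k, ¬ j13902_S K ε a0 k b} from ⟨hx, h⟩)
          (mem_ball_self (by positivity))
    have hKu : (K ∩ u).Nonempty := by
      refine ⟨a0, ha0, ?_⟩
      rw [hu]
      exact mem_biUnion (show a0 ∈ {b | b ∈ K ∧ ∃ k, j13902_S K ε a0 k b} from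
        ⟨ha0, 0, fun _ => a0, rfl, rfl, fun _ => ha0, fun _ => by rw [dist_self]; exact hε.le⟩)
          (mem_ball_self (by positivity))
    have hKv : (K ∩ v).Nonempty := by
      refine ⟨b1, hb1, ?_⟩
      rw [hv]
      exact mem_biUnion (show b1 ∈ {b | b ∈ K ∧ ∀ k, ¬ j13902_S K ε a0 k b} from ⟨hb1, hb1'⟩)
          (mem_ball_self (by positivity))
    obtain ⟨x, _, hxu, hxv⟩ := hKc u v huo hvo hcov hKu hKv
    rw [hu] at hxu
    rw [hv] at hxv
    obtain ⟨b, ⟨_, k, hk⟩, hxb⟩ := mem_iUnion₂.1 hxu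
    obtain ⟨b', ⟨hb'K, hb'⟩, hxb'⟩ := mem_iUnion₂.1 hxv
    apply hb' (k + 1)
    apply j13902_step hε hk hb'K
    rw [mem_ball] at hxb hxb'
    have h1 := dist_triangle_left b b' x
    linarith
  -- uniform length
  obtain ⟨t, htK, htf, htc⟩ := hK.finite_cover_balls hε
  obtain ⟨M, hM⟩ : ∃ M, ∀ b ∈ K, j13902_S K ε a0 M b := by
    choose! kk hkk using hall
    obtain ⟨M, hM⟩ : ∃ M, ∀ x ∈ t, kk x ≤ M := by
      obtain ⟨M, hM⟩ := (htf.image kk).bddAbove
      exact ⟨M, fun x hx => hM (mem_image_of_mem _ hx)⟩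
    refine ⟨M + 1, fun b hb => ?_⟩
    obtain ⟨x, hx, hbx⟩ := mem_iUnion₂.1 (htc hb)
    rw [mem_ball] at hbx
    have h1 := j13902_mono hε (hM x hx) (hkk x (htK hx))
    exact j13902_step hε h1 hb (by rw [dist_comm]; exact hbx.le)
  refine ⟨2 * M, fun a ha b hb => ?_⟩
  obtain ⟨ca, ha0', haM, haK, has⟩ := hM a ha
  obtain ⟨cb, hb0', hbM, hbK, hbs⟩ := hM b hb
  refine ⟨fun i => if i ≤ M then ca (M - i) else cb (i - M), ?_, ?_, ?_, ?_⟩
  · simp [haM]
  · dsimp only
    by_cases hM0 : M = 0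
    · subst hM0
      simp only [Nat.mul_zero, le_refl, if_true, Nat.sub_self]
      rw [ha0', ← hb0', hbM]
    · rw [if_neg (by omega), show 2 * M - M = M by omega, hbM]
  · intro i
    dsimp only
    split_ifs
    · exact haK _
    · exact hbK _
  · intro i
    dsimp only
    rcases Nat.lt_trichotomy i M with h | h | h
    · rw [if_pos (by omega), if_pos (by omega), dist_comm]
      have := has (M - (i + 1))
      rwa [show M - (i + 1) + 1 = M - i by omega] at this
    · rw [if_pos (by omega), if_neg (by omega), h, Nat.sub_self, ha0', ← hb0',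
        show M + 1 - M = 0 + 1 by omega]
      exact hbs 0
    · rw [if_neg (by omega), if_neg (by omega)]
      have := hbs (i - M)
      rwa [show i - M + 1 = i + 1 - M by omega] at this

end Pool.Agent.Helper80.HMO
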