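import Pool.Agent.Helper80.HMO.Api
import Pool.Agent.Helper533.Polar.Final
open MeasureTheory Filter Topology Set Metric
open scoped ENNReal NNReal RealInnerProductSpace

namespace Pool.Agent.Helper80.HMO

open Pool.Agent.Helper533

variable {n : ℕ} {p α β Cd θ Cs lam Cp : ℝ} {μ : Measure (Sp n)} {A : Sp n → Sp n → Sp n}

theorem memLp_of_restrict_zero {F : Type*} [NormedAddCommGroup F] {D : Set (Sp n)}
    (hD : MeasurableSet D) {f : Sp n → F} {q : ℝ≥0∞} (h : MemLp f q (μ.restrict D))
    (h0 : ∀ x, x ∉ D → f x = 0) : MemLp f q μ := by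
  have h1 := (memLp_indicator_iff_restrict (f := f) (p := q) (μ := μ) hD).2 h
  have h2 : D.indicator f = f := by
    funext x
    by_cases hx : x ∈ D
    · rw [Set.indicator_of_mem hx]
    · rw [Set.indicator_of_notMem hx, h0 x hx]
  rwa [h2] at h1

theorem eLpNorm_restrict_zero {F : Type*} [NormedAddCommGroup F] {D : Set (Sp n)}
    {f : Sp n → F} {q : ℝ≥0∞}
    (h0 : ∀ x, x ∉ D → f x = 0) : eLpNorm f q μ = eLpNorm f q (μ.restrict D) := by
  refine (eLpNorm_restrict_eq_of_support_subset ?_).symm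
  intro x hx
  by_contra hxD
  exact hx (h0 x hxD)

theorem cc_mul_on {D : Set (Sp n)} (hD : IsOpen D) {η φ : Sp n → ℝ} (hη : Polar.Cc D η)
    (hφ : ContDiffOn ℝ (⊤ : ℕ∞) φ D) : Polar.Cc D (fun x => η x * φ x) := by
  refine ⟨?_, ?_, ?_⟩
  · rw [contDiff_iff_contDiffAt]
    intro x
    by_cases hx : x ∈ D
    · exact hη.smooth.contDiffAt.mul (hφ.contDiffAt (hD.mem_nhds hx))
    · have hx' : x ∉ tsupport η := fun h => hx (hη.supp h)
      have h1 : (fun y => η y * φ y) =ᶠ[𝓝 x] fun _ => (0 : ℝ) := by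
        filter_upwards [(isClosed_tsupport η).isOpen_compl.mem_nhds hx'] with y hy
        rw [Polar.zero_of_notMem hy, zero_mul]
      exact contDiffAt_const.congr_of_eventuallyEq h1
  · exact hη.comp.mul_right
  · exact (tsupport_mul_subset_left).trans hη.supp

/-- `H^{1,p}_loc` is contained in the local class `LH` -/
theorem lh_of_h1loc (hp : 1 < p) [IsFiniteMeasureOnCompacts μ] {G : Set (Sp n)} (hG : IsOpen G)
    {u : Sp n → ℝ} {U : Sp n → Sp n} (h : Polar.Stmt.IsH1Loc p μ G u U) : Polar.LH p μ G u U := by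
  intro η hη
  obtain ⟨D, hD, hKD, hDG, hDc⟩ := exists_open_between_and_isCompact_closure hη.comp hG hη.supp
  have hη' : Polar.Cc D η := ⟨hη.smooth, hη.comp, hKD⟩
  have hH := h D hD hDc hDG
  refine Polar.H0.mono (D := D) ?_ (subset_closure.trans hDG)
  obtain ⟨C, hC0, hC1, hC2⟩ := Polar.Cc.bdd (hη'.mono (subset_univ D))
  have hDm : MeasurableSet D := hD.measurableSet
  have hu := hH.memLp_fun
  have hU := hH.memLp_grad
  have hηm : AEStronglyMeasurable η (μ.restrict D) := hη.cont.aestronglyMeasurable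
  have hgm : AEStronglyMeasurable (gradient η) (μ.restrict D) := hη.cont_grad.aestronglyMeasurable
  have hz : ∀ x, x ∉ D → η x = 0 := fun x hx => Polar.zero_of_notMem fun h => hx (hKD h)
  have hzg : ∀ x, x ∉ D → gradient η x = 0 := fun x hx =>
    Polar.grad_zero_of_notMem fun h => hx (hKD h)
  have hp1 : 1 ≤ ENNReal.ofReal p := by
    rw [← ENNReal.ofReal_one]; exact ENNReal.ofReal_le_ofReal hp.le
  refine ⟨?_, ?_, ?_⟩
  · refine memLp_of_restrict_zero hDm ?_ (fun x hx => by rw [hz x hx, zero_mul])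
    refine MemLp.of_le_mul (c := C) hu (hηm.mul hu.1) (ae_of_all _ fun x => ?_)
    rw [norm_mul]
    exact mul_le_mul_of_nonneg_right (hC1 x) (norm_nonneg _)
  · refine memLp_of_restrict_zero hDm ?_
      (fun x hx => by rw [hz x hx, hzg x hx, zero_smul, smul_zero, add_zero])
    refine MemLp.add ?_ ?_
    · refine MemLp.of_le_mul (c := C) hU (hηm.smul hU.1) (ae_of_all _ fun x => ?_)
      rw [norm_smul]
      exact mul_le_mul_of_nonneg_right (hC1 x) (norm_nonneg _)
    · refine MemLp.of_le_mul (c := C) hu (hu.1.smul hgm) (ae_of_all _ fun x => ?_)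
      rw [norm_smul, mul_comm]
      exact mul_le_mul_of_nonneg_right (hC2 x) (norm_nonneg _)
  · intro ε hε
    -- choose the accuracy
    obtain ⟨δ, hδ0, hδ⟩ : ∃ δ : ℝ≥0∞, δ ≠ 0 ∧ ENNReal.ofReal C * δ + ENNReal.ofReal C * δ ≤ ε := by
      have ht : Tendsto (fun j : ℕ => ENNReal.ofReal C * ((j : ℝ≥0∞) + 1)⁻¹ +
          ENNReal.ofReal C * ((j : ℝ≥0∞) + 1)⁻¹) atTop (𝓝 0) := by
        have h0 : Tendsto (fun j : ℕ => ((j : ℝ≥0∞) + 1)⁻¹) atTop (𝓝 0) := by
          have := (tendsto_add_atTop_iff_nat (f := fun j : ℕ => ((j : ℝ≥0∞))⁻¹) 1).2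
            ENNReal.tendsto_inv_nat_nhds_zero
          simpa using this
        have h1 : Tendsto (fun j : ℕ => ENNReal.ofReal C * ((j : ℝ≥0∞) + 1)⁻¹) atTop (𝓝 0) := by
          have := ENNReal.Tendsto.const_mul (a := ENNReal.ofReal C) h0 (Or.inr ENNReal.ofReal_ne_top)
          simpa using this
        simpa using h1.add h1
      obtain ⟨j, hj, -⟩ := Polar.exists_le_of_tendsto ht ht hε
      exact ⟨_, by simp, hj⟩
    obtain ⟨φ, hφ, a1, a2⟩ := hH.approx δ hδ0
    have hφm : AEStronglyMeasurable φ (μ.restrict D) :=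
      hφ.continuousOn.aestronglyMeasurable hDm
    have hφd : ∀ x ∈ D, DifferentiableAt ℝ φ x := fun x hx =>
      (hφ.contDiffAt (hD.mem_nhds hx)).differentiableAt (by simp)
    have hφgc : ContinuousOn (gradient φ) D := by
      have h1 : ContinuousOn (fun x => fderiv ℝ φ x) D :=
        hφ.continuousOn_fderiv_of_isOpen hD (by simp)
      exact (InnerProductSpace.toDual ℝ (Sp n)).symm.continuous.comp_continuousOn h1
    have hφgm : AEStronglyMeasurable (gradient φ) (μ.restrict D) :=
      hφgc.aestronglyMeasurable hDm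
    have hcc := cc_mul_on hD hη' hφ
    refine ⟨fun x => η x * φ x, hcc, ?_, ?_⟩
    · rw [eLpNorm_restrict_zero (D := D) (fun x hx => by simp [hz x hx])]
      have : eLpNorm (fun x => η x * u x - η x * φ x) (ENNReal.ofReal p) (μ.restrict D) ≤
          ENNReal.ofReal C * eLpNorm (fun x => u x - φ x) (ENNReal.ofReal p) (μ.restrict D) := by
        apply eLpNorm_le_mul_eLpNorm_of_ae_le_mul
        refine ae_of_all _ fun x => ?_
        rw [← mul_sub, norm_mul]
        exact mul_le_mul_of_nonneg_right (hC1 x) (norm_nonneg _)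
      refine this.trans (le_trans ?_ hδ)
      exact (mul_le_mul_right a1 _).trans le_self_add
    · have hzp : ∀ x, x ∉ D → gradient (fun x => η x * φ x) x = 0 := fun x hx =>
        Polar.grad_zero_of_notMem fun h => hx (hcc.supp h)
      have e1 : (fun x => η x • U x + u x • gradient η x - gradient (fun x => η x * φ x) x) =
          (fun x => η x • (U x - gradient φ x)) + (fun x => (u x - φ x) • gradient η x) := by
        funext x
        rw [Pi.add_apply]
        by_cases hx : x ∈ D
        · rw [Polar.grad_mul (hη.diff x) (hφd x hx)]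
          simp only [smul_sub, sub_smul]
          abel
        · rw [hzp x hx, hz x hx, hzg x hx]
          simp
      rw [eLpNorm_restrict_zero (D := D) (fun x hx => by
        rw [hz x hx, hzg x hx, hzp x hx, zero_smul, smul_zero, add_zero, sub_zero]), e1]
      refine (eLpNorm_add_le ?_ ?_ hp1).trans (le_trans (add_le_add ?_ ?_) hδ)
      · exact hηm.smul (hU.1.sub hφgm)
      · exact (hu.1.sub hφm).smul hgm
      · have : eLpNorm (fun x => η x • (U x - gradient φ x)) (ENNReal.ofReal p) (μ.restrict D) ≤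
            ENNReal.ofReal C * eLpNorm (fun x => U x - gradient φ x) (ENNReal.ofReal p)
              (μ.restrict D) := by
          apply eLpNorm_le_mul_eLpNorm_of_ae_le_mul
          refine ae_of_all _ fun x => ?_
          rw [norm_smul]
          exact mul_le_mul_of_nonneg_right (hC1 x) (norm_nonneg _)
        exact this.trans (mul_le_mul_right a2 _)
      · have : eLpNorm (fun x => (u x - φ x) • gradient η x) (ENNReal.ofReal p) (μ.restrict D) ≤
            ENNReal.ofReal C * eLpNorm (fun x => u x - φ x) (ENNReal.ofReal p)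
              (μ.restrict D) := by
          apply eLpNorm_le_mul_eLpNorm_of_ae_le_mul
          refine ae_of_all _ fun x => ?_
          rw [norm_smul, mul_comm]
          exact mul_le_mul_of_nonneg_right (hC2 x) (norm_nonneg _)
        exact this.trans (mul_le_mul_right a1 _)

/-- the two notions of harmonic functions agree -/
theorem isHarmonic_iff (hp : 1 < p) {w : Sp n → ℝ} (hw : Polar.Stmt.IsAdmissible p w)
    {𝒜 : Sp n → Sp n → Sp n} {G : Set (Sp n)} (hG : IsOpen G) {u : Sp n → ℝ} :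
    Polar.Stmt.IsHarmonic 𝒜 p w G u ↔
      Harm (fun x ξ => (w x)⁻¹ • 𝒜 x ξ) p (Polar.Stmt.wm w) G u := by
  obtain ⟨-, -, -, -, -, hfin⟩ := Polar.wm_basic hp hw
  haveI := hfin
  have key : ∀ (H : Sp n → Sp n) (φ : Sp n → ℝ),
      ∫ x, ⟪(w x)⁻¹ • 𝒜 x (H x), gradient φ x⟫ ∂(Polar.Stmt.wm w) =
        ∫ x, ⟪𝒜 x (H x), gradient φ x⟫ := by
    intro H φ
    have h2 := Polar.integral_wm hw (fun x => ⟪𝒜 x (H x), gradient φ x⟫)
    rw [← h2]
    congr 1
    ext x
    rw [real_inner_smul_left]
  constructor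
  · rintro ⟨hc, H, hH, heq⟩
    exact ⟨hc, H, lh_of_h1loc hp hG hH, fun φ hφ => by
      rw [key]; exact heq φ (Polar.isTest_iff.2 hφ)⟩
  · rintro ⟨hc, H, hH, heq⟩
    exact ⟨hc, H, Polar.LH.toH1Loc hp hG hH, fun φ hφ => by
      rw [← key]; exact heq φ (Polar.isTest_iff.1 hφ)⟩

end Pool.Agent.Helper80.HMO
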