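import Pool.Agent.Helper80.HMO.Api
open MeasureTheory Filter Topology Set Metric
open scoped ENNReal NNReal RealInnerProductSpace

namespace Pool.Agent.Helper80.HMO

open Pool.Agent.Helper533

variable {n : ℕ} {p α β Cd θ Cs lam Cp : ℝ} {μ : Measure (Sp n)} {A : Sp n → Sp n → Sp n}

/-- pointwise form of `DG2` for continuous supersolutions -/
theorem dg2_ptw (hp : 1 < p) (hα : 0 < α) (hβ : 0 < β) {γ : ℝ} (hγ : 0 < γ) :
    ∃ δ : ℝ, 0 < δ ∧ δ < 1 ∧ ∀ (μ : Measure (Sp n)) (A : Sp n → Sp n → Sp n),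
    Dat n p α β Cd θ Cs lam Cp μ A → ∀ G : Set (Sp n), IsOpen G →
    ∀ (s : Sp n → ℝ) (S : Sp n → Sp n), Polar.Sup A p μ G s S → ContinuousOn s G →
    (∀ y ∈ G, 0 ≤ s y) → ∀ (x : Sp n) (r : ℝ), 0 < r → ball x (2 * lam * r) ⊆ G →
    ∀ t : ℝ, 0 < t → γ * μ.real (ball x r) ≤ μ.real {y | y ∈ ball x r ∧ t ≤ s y} →
    ∀ y ∈ ball x (r / 2), δ * t ≤ s y := by
  obtain ⟨δ, hδ0, hδ1, H⟩ := Polar.DG2 (n := n) (Cd := Cd) (θ := θ) (Cs := Cs) (lam := lam)
    (Cp := Cp) hp hα hβ hγ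
  refine ⟨δ, hδ0, hδ1, ?_⟩
  intro μ A hd G hG s S hS hsc hs0 x r hr hball t ht hmeas
  haveI := hd.fin
  have hae := H μ A hd.op hd.adm G hG s S hS (Filter.Eventually.of_forall hs0) x r hr hball t ht
    hmeas
  have hlam := hd.adm.one_le_lam
  have hsub : ball x (r / 2) ⊆ G := by
    refine (ball_subset_ball ?_).trans hball
    nlinarith
  have key := Polar.nonneg_of_ae (μ := μ) hd.adm.pos (O := ball x (r / 2)) isOpen_ball
    (g := fun y => s y - δ * t) ((hsc.mono hsub).sub continuousOn_const) (by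
      filter_upwards [hae] with y hy hyb
      have := hy hyb
      linarith)
  intro y hy
  have := key y hy
  linarith

/-- expansion of positivity -/
theorem expand (hp : 1 < p) (hα : 0 < α) (hβ : 0 < β) :
    ∃ δ : ℝ, 0 < δ ∧ δ < 1 ∧ ∀ (μ : Measure (Sp n)) (A : Sp n → Sp n → Sp n),
    Dat n p α β Cd θ Cs lam Cp μ A → ∀ G : Set (Sp n), IsOpen G →
    ∀ (s : Sp n → ℝ) (S : Sp n → Sp n), Polar.Sup A p μ G s S → ContinuousOn s G →
    (∀ y ∈ G, 0 ≤ s y) → ∀ (x : Sp n) (r : ℝ), 0 < r → ball x (8 * lam * r) ⊆ G →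
    ∀ t : ℝ, 0 < t → (∀ z ∈ ball x r, t ≤ s z) → ∀ z ∈ ball x (2 * r), δ * t ≤ s z := by
  have hM : 0 < max Cd 1 := lt_of_lt_of_le one_pos (le_max_right _ _)
  obtain ⟨δ, hδ0, hδ1, H⟩ := dg2_ptw (n := n) (p := p) (α := α) (β := β) (Cd := Cd) (θ := θ)
    (Cs := Cs) (lam := lam) (Cp := Cp) hp hα hβ (γ := ((max Cd 1) ^ 2)⁻¹) (by positivity)
  refine ⟨δ, hδ0, hδ1, ?_⟩
  intro μ A hd G hG s S hS hsc hs0 x r hr hball t ht hst
  haveI := hd.fin
  have hCd := hd.adm.one_le_Cd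
  have hMe : max Cd 1 = Cd := max_eq_left hCd
  have h1 : μ.real (ball x (4 * r)) ≤ Cd ^ 2 * μ.real (ball x r) := by
    have e1 := hd.adm.dbl x (2 * r) (by positivity)
    have e2 := hd.adm.dbl x r hr
    have e3 : 2 * (2 * r) = 4 * r := by ring
    rw [e3] at e1
    calc μ.real (ball x (4 * r)) ≤ Cd * μ.real (ball x (2 * r)) := e1
      _ ≤ Cd * (Cd * μ.real (ball x r)) := mul_le_mul_of_nonneg_left e2 (by linarith)
      _ = Cd ^ 2 * μ.real (ball x r) := by ring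
  have h2 : μ.real (ball x r) ≤ μ.real {y | y ∈ ball x (4 * r) ∧ t ≤ s y} := by
    refine measureReal_mono ?_ ?_
    · intro y hy
      exact ⟨ball_subset_ball (by linarith) hy, hst y hy⟩
    · refine ne_top_of_le_ne_top (hd.adm.fin x (4 * r)).ne (measure_mono ?_)
      intro y hy
      exact hy.1
  have h3 : ((max Cd 1) ^ 2)⁻¹ * μ.real (ball x (4 * r)) ≤
      μ.real {y | y ∈ ball x (4 * r) ∧ t ≤ s y} := by
    rw [hMe, inv_mul_le_iff₀ (by positivity)]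
    exact h1.trans (mul_le_mul_of_nonneg_left h2 (by positivity))
  have h4 : 2 * lam * (4 * r) = 8 * lam * r := by ring
  have h5 := H μ A hd G hG s S hS hsc hs0 x (4 * r) (by positivity) (by rw [h4]; exact hball) t ht h3
  have h6 : 4 * r / 2 = 2 * r := by ring
  rw [h6] at h5
  exact h5

end Pool.Agent.Helper80.HMO
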