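import Pool.Agent.Helper80.HMO.Api
open MeasureTheory Filter Topology Set Metric
open scoped ENNReal NNReal RealInnerProductSpace

namespace Pool.Agent.Helper80.HMO

open Pool.Agent.Helper533

variable {n : ℕ} {p α β Cd θ Cs lam Cp : ℝ} {μ : Measure (Sp n)} {A : Sp n → Sp n → Sp n}

/-- iteration of the De Giorgi lemma `DG1` at the centre of a ball -/
theorem dg_center (hp : 1 < p) (hα : 0 < α) (hβ : 0 < β) :
    ∃ γ : ℕ → ℝ, (∀ j, 0 < γ j) ∧ ∀ (μ : Measure (Sp n)) (A : Sp n → Sp n → Sp n),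
    Dat n p α β Cd θ Cs lam Cp μ A →
    ∀ (j : ℕ) (y : Sp n) (r : ℝ), 0 < r → ∀ (s : Sp n → ℝ) (S : Sp n → Sp n),
    Polar.Sup A p μ (ball y r) s S → ContinuousOn s (ball y r) →
    (∀ z ∈ ball y r, 0 ≤ s z) → ∀ k : ℝ, 0 < k →
    μ.real {z | z ∈ ball y r ∧ s z < k} ≤ γ j * μ.real (ball y r) →
    (1 - (1 / 2 : ℝ) ^ j) * k ≤ s y := by
  obtain ⟨γ0, hγ0, hDG⟩ := Polar.DG1 (n := n) (p := p) (α := α) (β := β) (Cd := Cd) (θ := θ)
    (Cs := Cs) (lam := lam) (Cp := Cp) hp hα hβ
  obtain ⟨D, hD⟩ : ∃ D : ℝ, D = max Cd 1 := ⟨_, rfl⟩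
  have hD1 : 1 ≤ D := by rw [hD]; exact le_max_right _ _
  have hDC : Cd ≤ D := by rw [hD]; exact le_max_left _ _
  have hD0 : 0 < D := by linarith
  refine ⟨fun j => γ0 / D ^ j, fun j => by positivity, ?_⟩
  intro μ A hdat j
  haveI := hdat.fin
  induction j with
  | zero =>
    intro y r hr s S _ _ h0 k _ _
    have := h0 y (mem_ball_self hr)
    simpa using this
  | succ j ih =>
    intro y r hr s S hS hc h0 k hk hvol
    have hvr : 0 ≤ μ.real (ball y r) := measureReal_nonneg
    have hvr2 : 0 ≤ μ.real (ball y (r / 2)) := measureReal_nonneg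
    have h1 : μ.real {z | z ∈ ball y r ∧ s z < k} ≤ γ0 * μ.real (ball y r) := by
      refine hvol.trans ?_
      apply mul_le_mul_of_nonneg_right _ hvr
      exact div_le_self hγ0.le (one_le_pow₀ hD1)
    have hae := hDG μ A hdat.op hdat.adm (ball y r) isOpen_ball s S hS
      (Filter.Eventually.of_forall h0) y r hr subset_rfl k hk h1
    have hsub : ball y (r / 2) ⊆ ball y r := ball_subset_ball (by linarith)
    have hall : ∀ z ∈ ball y (r / 2), k / 2 ≤ s z := by
      intro z hz
      by_contra hcon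
      rw [not_le] at hcon
      have hopen : IsOpen (ball y (r / 2) ∩ s ⁻¹' Iio (k / 2)) :=
        (hc.mono hsub).isOpen_inter_preimage isOpen_ball isOpen_Iio
      obtain ⟨ρ, hρ, hρs⟩ := Metric.isOpen_iff.1 hopen z ⟨hz, hcon⟩
      have hpos : 0 < μ (ball y (r / 2) ∩ s ⁻¹' Iio (k / 2)) :=
        (hdat.adm.pos z ρ hρ).trans_le (measure_mono hρs)
      have hzero : μ (ball y (r / 2) ∩ s ⁻¹' Iio (k / 2)) = 0 := by
        rw [measure_eq_zero_iff_ae_notMem]
        filter_upwards [hae] with w hw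
        rintro ⟨hw1, hw2⟩
        exact absurd (hw hw1) (not_le.mpr hw2)
      rw [hzero] at hpos
      exact lt_irrefl _ hpos
    have hS' : Polar.Sup A p μ (ball y (r / 2)) (fun x => s x - k / 2) S :=
      (hS.sub_const hp (k / 2)).mono_set hp isOpen_ball hsub
    have key := ih y (r / 2) (by positivity) (fun x => s x - k / 2) S hS'
      ((hc.mono hsub).sub continuousOn_const) (fun z hz => by have := hall z hz; linarith)
      (k / 2) (by positivity) ?_
    · have e1 : (1 / 2 : ℝ) ^ (j + 1) = (1 / 2 : ℝ) ^ j * (1 / 2) := pow_succ _ _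
      rw [e1]
      linarith
    · have h3 : μ.real {z | z ∈ ball y (r / 2) ∧ s z - k / 2 < k / 2} ≤
          μ.real {z | z ∈ ball y r ∧ s z < k} := by
        apply measureReal_mono
        · intro z hz
          exact ⟨hsub hz.1, by have := hz.2; linarith⟩
        · exact ((measure_mono (fun z hz => hz.1)).trans_lt
            (measure_ball_lt_top (x := y) (r := r))).ne
      refine h3.trans (hvol.trans ?_)
      have h4 := hdat.adm.dbl y (r / 2) (by positivity)
      rw [show 2 * (r / 2) = r by ring] at h4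
      have h5 : μ.real (ball y r) ≤ D * μ.real (ball y (r / 2)) :=
        h4.trans (mul_le_mul_of_nonneg_right hDC hvr2)
      calc γ0 / D ^ (j + 1) * μ.real (ball y r)
          ≤ γ0 / D ^ (j + 1) * (D * μ.real (ball y (r / 2))) :=
            mul_le_mul_of_nonneg_left h5 (by positivity)
        _ = γ0 / D ^ j * μ.real (ball y (r / 2)) := by
            rw [pow_succ]; field_simp

end Pool.Agent.Helper80.HMO
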