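import Pool.Agent.Helper80.HMO.DG2
open MeasureTheory Filter Topology Set Metric
open scoped ENNReal NNReal RealInnerProductSpace

namespace Pool.Agent.Helper80.HMO

open Pool.Agent.Helper533

variable {n : ℕ} {p α β Cd θ Cs lam Cp : ℝ} {μ : Measure (Sp n)} {A : Sp n → Sp n → Sp n}

/-- existence of potentials -/
theorem exists_pot (hn : 1 ≤ n) (hd : Dat n p α β Cd θ Cs lam Cp μ A) {y₀ y₁ : Sp n} {S t₁ : ℝ}
    (hS : 0 < S) (ht : 0 < t₁) (h : closedBall y₁ (2 * t₁) ⊆ ball y₀ S) :
    ∃ ω : Sp n → ℝ, Pot A p μ y₀ S y₁ t₁ ω := by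
  haveI := hd.fin
  have hp : 1 < p := hd.hp
  obtain ⟨C0, -, hcut⟩ := Polar.exists_ball_cutoff n
  obtain ⟨ρ, hρ1, hρ01, hρone, -⟩ := hcut y₁ t₁ (2 * t₁) ht (by linarith)
  have hρ : Polar.Cc (ball y₀ S) ρ :=
    ⟨hρ1.smooth, hρ1.comp, hρ1.supp.trans (ball_subset_closedBall.trans h)⟩
  obtain ⟨ω, W, hC, hc, h01, hge, h0⟩ := Polar.exists_raw hn hp hd.hα hd.hβ hd.op hd.adm hS hρ hρ01
  have hsup : Polar.Sup A p μ (ball y₀ S) ω W := hC.obs.sup hp
  have hone : ∀ z ∈ closedBall y₁ t₁, ω z = 1 := fun z hz =>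
    le_antisymm (h01 z).2 ((hρone z hz).ge.trans (hge z))
  have hy1 : y₁ ∈ ball y₀ S := h (mem_closedBall_self (by linarith))
  refine ⟨ω, hc, fun z => (h01 z).1, fun z => (h01 z).2, h0, hone, ?_, ⟨W, hsup⟩, ?_, ?_⟩
  · -- positivity
    have hu : IsOpen {z : Sp n | 0 < ω z} := isOpen_lt continuous_const hc
    have hsub : ball y₀ S ⊆ {z : Sp n | 0 < ω z} := by
      refine (convex_ball y₀ S).isPreconnected.subset_of_closure_inter_subset hu
        ⟨y₁, hy1, ?_⟩ ?_
      · show 0 < ω y₁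
        rw [hone y₁ (mem_closedBall_self ht.le)]
        exact one_pos
      · rintro z0 ⟨hz0, hz0b⟩
        show 0 < ω z0
        have hlam : 0 < lam := lt_of_lt_of_le one_pos hd.adm.one_le_lam
        obtain ⟨R, hR, hRsub⟩ := Metric.isOpen_iff.1 isOpen_ball z0 hz0b
        set r : ℝ := R / (2 * lam) with hr
        have hr0 : 0 < r := by positivity
        have h2r : 2 * lam * r = R := by
          rw [hr, mul_div_cancel₀ _ (by positivity)]
        obtain ⟨z, hzu, hzd⟩ := Metric.mem_closure_iff.1 hz0 r hr0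
        have hz : 0 < ω z := hzu
        have hzr : z ∈ ball z0 r := by rw [mem_ball, dist_comm]; exact hzd
        set t : ℝ := ω z / 2 with htdef
        have ht0 : 0 < t := by positivity
        have hO : IsOpen ({y : Sp n | t < ω y} ∩ ball z0 r) :=
          (isOpen_lt continuous_const hc).inter isOpen_ball
        obtain ⟨η, hη, hηs⟩ := Metric.isOpen_iff.1 hO z ⟨by
          show t < ω z
          rw [htdef]; linarith, hzr⟩
        have hfin1 : μ {y | y ∈ ball z0 r ∧ t ≤ ω y} ≠ ∞ :=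
          ne_top_of_le_ne_top (hd.adm.fin z0 r).ne (measure_mono fun y hy => hy.1)
        have hm0 : 0 < μ.real {y | y ∈ ball z0 r ∧ t ≤ ω y} := by
          have h1 : 0 < μ {y | y ∈ ball z0 r ∧ t ≤ ω y} :=
            lt_of_lt_of_le (hd.adm.pos z η hη) (measure_mono fun y hy =>
              ⟨(hηs hy).2, le_of_lt (hηs hy).1⟩)
          exact ENNReal.toReal_pos h1.ne' hfin1
        have hb0 : 0 < μ.real (ball z0 r) :=
          ENNReal.toReal_pos (hd.adm.pos z0 r hr0).ne' (hd.adm.fin z0 r).ne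
        obtain ⟨δ, hδ0, -, hδ⟩ := dg2_ptw (n := n) (p := p) (α := α) (β := β) (Cd := Cd) (θ := θ)
          (Cs := Cs) (lam := lam) (Cp := Cp) hp hd.hα hd.hβ
          (γ := μ.real {y | y ∈ ball z0 r ∧ t ≤ ω y} / μ.real (ball z0 r)) (by positivity)
        have h2 := hδ μ A hd (ball y₀ S) isOpen_ball ω W hsup hc.continuousOn
          (fun y _ => (h01 y).1) z0 r hr0 (by rw [h2r]; exact hRsub) t ht0
          (by rw [div_mul_cancel₀ _ hb0.ne']) z0 (mem_ball_self (by positivity))
        exact lt_of_lt_of_le (by positivity) h2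
    exact fun z hz => hsub hz
  · -- subsolution off the closed ball
    have h1 := Polar.Obs.sub_above hp hd.hα hd.hβ hd.op hC.obs (k := 0) le_rfl
      (G := (closedBall y₁ (2 * t₁))ᶜ) isClosed_closedBall.isOpen_compl (fun x hx => by
        have h2 : x ∉ tsupport ρ := fun h3 => hx (ball_subset_closedBall (hρ1.supp h3))
        exact (image_eq_zero_of_notMem_tsupport h2).le)
    have h2 : (fun x => max (ω x - 0) 0) = ω := by
      funext x
      rw [sub_zero]
      exact max_eq_left (h01 x).1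
    rw [h2] at h1
    exact ⟨_, h1⟩
  · -- harmonic between
    have hsub : ball y₀ S \ closedBall y₁ (2 * t₁) ⊆ ball y₀ S := sdiff_subset
    have ho : IsOpen (ball y₀ S \ closedBall y₁ (2 * t₁)) :=
      isOpen_ball.sdiff isClosed_closedBall
    refine ⟨hc.continuousOn, W, (Polar.H0.toLH hp hC.obs.h0).mono hsub hp ho, fun φ hφ => ?_⟩
    refine Polar.CObs.harm_off hp hd.hα hd.hβ hd.op isOpen_ball hρ
      (fun x => (hρ01 x).1) hC (B := (tsupport φ)ᶜ) (isClosed_tsupport _).isOpen_compl ?_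
      (Polar.H0.of_Cc (hφ.mono hsub)) (Eventually.of_forall fun x hx => ?_)
    · intro x hx hx'
      exact (hφ.supp hx').2 (ball_subset_closedBall (hρ1.supp hx))
    · exact image_eq_zero_of_notMem_tsupport hx

end Pool.Agent.Helper80.HMO
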