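import Pool.Agent.Helper80.HMO.Api
import Pool.Agent.Helper533.NHM.Paste
open MeasureTheory Filter Topology Set Metric
open scoped ENNReal NNReal RealInnerProductSpace

namespace Pool.Agent.Helper80.HMO

namespace PasteGen

open MeasureTheory Filter Topology Set Pool.Agent.Helper533 Pool.Agent.Helper533.Polar

variable {n : ℕ} {p α β : ℝ} {A : Sp n → Sp n → Sp n}

/-- smooth truncations of a function which is harmonic below its maximum are supersolutions -/
theorem trunc_sup {μ : Measure (Sp n)} [IsFiniteMeasureOnCompacts μ] (hp : 1 < p) (hα : 0 < α) (hβ : 0 < β)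
    (hA : Op p α β μ A) {G : Set (Sp n)} (hG : IsOpen G)
    {v : Sp n → ℝ} {V : Sp n → Sp n} {M : ℝ} (hv : ContinuousOn v G)
    (hV : LH p μ (G ∩ {x | v x < M}) v V)
    (he : ∀ φ, Cc (G ∩ {x | v x < M}) φ → ∫ x, ⟪A x (V x), gradient φ x⟫ ∂μ = 0)
    {θ : ℝ → ℝ} (hθ : ContDiff ℝ (⊤ : ℕ∞) θ) (hθ1 : ∀ s, 0 ≤ deriv θ s ∧ deriv θ s ≤ 1)
    (hθ2 : Antitone (deriv θ)) (hθ3 : ContDiff ℝ (⊤ : ℕ∞) (fun s => deriv θ s ^ (p - 1)))
    {b : ℝ} (hb : b < M) (hθb : ∀ s, b ≤ s → deriv θ s = 0) :
    Sup A p μ G (fun x => θ (v x))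
      (fun x => deriv θ (v x) • (if v x < M then V x else 0)) := by
  have hp1 : 0 < p - 1 := by linarith
  have hGv : IsOpen (G ∩ {x | v x < M}) := hv.isOpen_inter_preimage hG isOpen_Iio
  have hG' : IsOpen (G ∩ {x | b < v x}) := hv.isOpen_inter_preimage hG isOpen_Ioi
  have hθi := contDiff_infty_iff_deriv.mp hθ
  have hθd : Differentiable ℝ θ := hθi.1
  have hθc : ∀ s, b ≤ s → θ s = θ b := by
    intro s hs
    refine constant_of_has_deriv_right_zero (a := b) (b := s) hθd.continuous.continuousOn ?_ s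
      ⟨hs, le_rfl⟩
    intro x hx
    have h1 := (hθd x).hasDerivAt.hasDerivWithinAt (s := Set.Ici x)
    rwa [hθb x hx.1] at h1
  refine ⟨?_, ?_⟩
  · have h1 : LH p μ (G ∩ {x | v x < M}) (fun x => θ (v x))
        (fun x => deriv θ (v x) • V x) :=
      LH.chain_lim hp hGv (βk := fun _ => θ) (fun _ => hθ) (C := 1)
        (fun _ s => by rw [abs_of_nonneg (hθ1 s).1]; exact (hθ1 s).2)
        (fun s => tendsto_const_nhds) (fun s => tendsto_const_nhds) hV
    have h2 : LH p μ (G ∩ {x | v x < M}) (fun x => θ (v x))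
        (fun x => deriv θ (v x) • (if v x < M then V x else 0)) := by
      refine LH.congr h1 (Eventually.of_forall fun x _ => rfl) (Eventually.of_forall fun x hx => ?_)
      have hx2 : v x < M := hx.2
      rw [if_pos hx2]
    have h3 : LH p μ (G ∩ {x | b < v x}) (fun x => θ (v x))
        (fun x => deriv θ (v x) • (if v x < M then V x else 0)) := by
      refine LH.congr (LH.const (θ b)) (Eventually.of_forall fun x hx => ?_)
        (Eventually.of_forall fun x hx => ?_)
      · have hx2 : b < v x := hx.2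
        exact (hθc _ hx2.le).symm
      · have hx2 : b < v x := hx.2
        rw [hθb _ hx2.le, zero_smul]
    have h4 := LH.union hp hGv hG' h2 h3
    have h5 : G ∩ {x | v x < M} ∪ G ∩ {x | b < v x} = G := by
      ext x
      constructor
      · rintro (h | h)
        · exact h.1
        · exact h.1
      · intro h
        rcases lt_or_ge (v x) M with h6 | h6
        · exact Or.inl ⟨h, h6⟩
        · exact Or.inr ⟨h, lt_of_lt_of_le hb h6⟩
    rwa [h5] at h4
  · intro φ hφ hφ0
    obtain ⟨g, hg⟩ : ∃ g : ℝ → ℝ, g = fun s => deriv θ s ^ (p - 1) := ⟨_, rfl⟩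
    have hgc : ContDiff ℝ (⊤ : ℕ∞) g := by rw [hg]; exact hθ3
    have hgd : Differentiable ℝ g := (contDiff_infty_iff_deriv.mp hgc).1
    have hg0 : ∀ s, 0 ≤ g s := fun s => by rw [hg]; exact Real.rpow_nonneg (hθ1 s).1 _
    have hg1 : ∀ s, g s ≤ 1 := fun s => by rw [hg]; exact Real.rpow_le_one (hθ1 s).1 (hθ1 s).2 hp1.le
    have hganti : Antitone g := by
      intro s t hst
      rw [hg]
      exact Real.rpow_le_rpow (hθ1 t).1 (hθ2 hst) hp1.le
    have hgb : ∀ s, b ≤ s → g s = 0 := fun s hs => by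
      rw [hg]; beta_reduce; rw [hθb s hs, Real.zero_rpow hp1.ne']
    have hgmin : ∀ s, g s = 0 → deriv g s = 0 := by
      intro s hs
      apply IsLocalMin.deriv_eq_zero
      exact Eventually.of_forall fun t => by rw [hs]; exact hg0 t
    have hgneg : ∀ s, deriv g s ≤ 0 := fun s => hganti.deriv_nonpos
    have hφgrad : ∀ x, φ x = 0 → gradient φ x = 0 := by
      intro x hx
      have h1 : fderiv ℝ φ x = 0 := IsLocalMin.fderiv_eq_zero
        (Eventually.of_forall fun t => by rw [hx]; exact hφ0 t)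
      unfold gradient
      rw [h1, map_zero]
    -- compact set
    obtain ⟨K, hKd⟩ : ∃ K, K = tsupport φ ∩ v ⁻¹' (Set.Iic b) := ⟨_, rfl⟩
    have hKc : IsClosed K := by
      rw [hKd]
      exact (hv.mono hφ.supp).preimage_isClosed_of_isClosed (isClosed_tsupport φ) isClosed_Iic
    have hK : IsCompact K := hφ.comp.of_isClosed_subset hKc (by rw [hKd]; exact Set.inter_subset_left)
    obtain ⟨C0, hC0⟩ := IsCompact.exists_bound_of_continuousOn hφ.comp (hv.mono hφ.supp)
    obtain ⟨C, hCd⟩ : ∃ C, C = max C0 0 + 1 := ⟨_, rfl⟩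
    have hC1 : C0 < C := by rw [hCd]; linarith [le_max_left C0 0]
    have hCpos : 0 ≤ C := by rw [hCd]; linarith [le_max_right C0 0]
    obtain ⟨O, hOd⟩ : ∃ O, O = G ∩ v ⁻¹' (Set.Iio M ∩ Set.Ioo (-C) C) := ⟨_, rfl⟩
    have hO : IsOpen O := by
      rw [hOd]; exact hv.isOpen_inter_preimage hG (isOpen_Iio.inter isOpen_Ioo)
    have hOG : O ⊆ G ∩ {x | v x < M} := by
      rw [hOd]; rintro x ⟨h1, h2, _⟩; exact ⟨h1, h2⟩
    have hKO : K ⊆ O := by
      rw [hKd, hOd]
      rintro x ⟨h1, h2⟩
      have h3 : v x ≤ b := h2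
      have h4 := abs_le.mp (hC0 x h1)
      refine ⟨hφ.supp h1, lt_of_le_of_lt h3 hb, ?_, ?_⟩
      · linarith [h4.1]
      · linarith [h4.2]
    have hOC : ∀ x ∈ O, |v x| ≤ C := by
      rw [hOd]
      rintro x ⟨_, _, h1, h2⟩
      exact abs_le.mpr ⟨h1.le, h2.le⟩
    have hVO : LH p μ O v V := hV.mono hOG hp hO
    have hsup : Sup A p μ O v V :=
      ⟨hVO, fun ψ hψ _ => (he ψ (hψ.mono hOG)).ge⟩
    have hsub : Sub A p μ O v V :=
      ⟨hVO, fun ψ hψ _ => (he ψ (hψ.mono hOG)).le⟩
    -- chain rule for g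
    obtain ⟨τ, C', hτ, hτ0, hτg, -, hτC⟩ := exists_clip_fun' C hCpos (fun s => g s - g 0) Set.univ
      isOpen_univ (Set.subset_univ _) (hgc.sub contDiff_const).contDiffOn (sub_self _)
    have h1 : LH p μ O (fun x => τ (v x)) (fun x => deriv τ (v x) • V x) :=
      LH.chain_lim hp hO (βk := fun _ => τ) (fun _ => hτ) (C := C') (fun _ s => hτC s)
        (fun s => tendsto_const_nhds) (fun s => tendsto_const_nhds) hVO
    have h2 : LH p μ O (fun x => g (v x)) (fun x => deriv g (v x) • V x) := by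
      refine LH.congr (LH.add hp h1 (LH.const (g 0))) (Eventually.of_forall fun x hx => ?_)
        (Eventually.of_forall fun x hx => ?_)
      · rw [(hτg _ (hOC x hx)).1]; ring
      · have h3 : deriv (fun s => g s - g 0) (v x) = deriv g (v x) := by
          rw [deriv_sub_const]
        rw [(hτg _ (hOC x hx)).2, h3, add_zero]
    obtain ⟨Cφ, hCφ⟩ := hφ.comp.exists_bound_of_continuous hφ.cont
    have h3 := LH.mul hp hO h2 (LH.of_smooth hφ.smooth) (C := max 1 Cφ)
      (Eventually.of_forall fun x _ => by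
        rw [abs_of_nonneg (hg0 _)]; exact (hg1 _).trans (le_max_left _ _))
      (Eventually.of_forall fun x _ => (hCφ x).trans (le_max_right _ _))
    obtain ⟨F, hF⟩ : ∃ F : Sp n → Sp n,
      F = fun x => g (v x) • gradient φ x + φ x • (deriv g (v x) • V x) := ⟨_, rfl⟩
    rw [← hF] at h3
    have hfF : ∀ x, g (v x) * φ x = 0 → F x = 0 := by
      intro x hx
      rw [hF]
      beta_reduce
      rcases mul_eq_zero.mp hx with h | h
      · rw [h, hgmin _ h, zero_smul, zero_smul, smul_zero, add_zero]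
      · rw [h, hφgrad x h, smul_zero, zero_smul, add_zero]
    have hfK : ∀ x, x ∉ K → g (v x) * φ x = 0 := by
      intro x hx
      by_cases h4 : x ∈ tsupport φ
      · have h5 : b < v x := by
          by_contra h6
          apply hx
          rw [hKd]
          exact ⟨h4, not_lt.mp h6⟩
        rw [hgb _ h5.le, zero_mul]
      · rw [zero_of_notMem h4, mul_zero]
    have hFK : ∀ x, x ∉ K → F x = 0 := fun x hx => hfF x (hfK x hx)
    have h5 := Sup.test hp hA hsup h3 hO hK hKO
      (Eventually.of_forall fun x => mul_nonneg (hg0 _) (hφ0 x))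
      (Eventually.of_forall hfK) (Eventually.of_forall hfF)
    have h6 := Sub.test hp hA hsub h3 hO hK hKO
      (Eventually.of_forall fun x => mul_nonneg (hg0 _) (hφ0 x))
      (Eventually.of_forall hfK) (Eventually.of_forall hfF)
    have h7 : ∫ x, ⟪A x (V x), F x⟫ ∂μ = 0 := le_antisymm h6 h5
    have hFL : MemLp F (ENNReal.ofReal p) μ :=
      (LH.toH0 h3 hO hK hKO (Eventually.of_forall hfK) (Eventually.of_forall hFK)).mU
    have h8 : Integrable (fun x => ⟪A x (V x), F x⟫) μ :=
      integrable_flux hp hA hVO hO hK hKO hFL (Eventually.of_forall hFK)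
    -- rewrite the integrand
    have h9 : ∀ᵐ x ∂μ,
        ⟪A x (deriv θ (v x) • (if v x < M then V x else 0)), gradient φ x⟫ =
          ⟪A x (V x), F x⟫ + (-(φ x * deriv g (v x))) * ⟪A x (V x), V x⟫ := by
      filter_upwards [hA.hom, hA.bdd] with x hhom hbdd
      have hA0 : A x 0 = 0 := by
        have h10 := hbdd 0
        rw [norm_zero, Real.zero_rpow (by linarith), mul_zero] at h10
        exact norm_le_zero_iff.mp h10
      have e1 : ⟪A x (V x), F x⟫ + (-(φ x * deriv g (v x))) * ⟪A x (V x), V x⟫ =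
          g (v x) * ⟪A x (V x), gradient φ x⟫ := by
        rw [hF]
        beta_reduce
        rw [inner_add_right, inner_smul_right, inner_smul_right, inner_smul_right]
        ring
      rw [e1]
      by_cases hc : deriv θ (v x) = 0
      · rw [hc, zero_smul, hA0, inner_zero_left]
        have : g (v x) = 0 := by
          rw [hg]; beta_reduce; rw [hc, Real.zero_rpow hp1.ne']
        rw [this, zero_mul]
      · have hvb : v x < b := by
          by_contra h10
          exact hc (hθb _ (not_lt.mp h10))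
        rw [if_pos (hvb.trans hb), hhom _ _ hc, inner_smul_left, hg]
        beta_reduce
        have hcp : 0 < deriv θ (v x) := lt_of_le_of_ne (hθ1 _).1 (Ne.symm hc)
        have e2 : deriv θ (v x) * deriv θ (v x) ^ (p - 2) = deriv θ (v x) ^ (p - 1) := by
          nth_rewrite 1 [← Real.rpow_one (deriv θ (v x))]
          rw [← Real.rpow_add hcp]
          congr 1
          ring
        rw [abs_of_pos hcp, e2, RCLike.conj_to_real]
    rw [integral_congr_ae h9]
    have h10 : 0 ≤ᵐ[μ] fun x => (-(φ x * deriv g (v x))) * ⟪A x (V x), V x⟫ := by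
      filter_upwards [hA.coer] with x hx
      apply mul_nonneg
      · rw [← mul_neg]
        exact mul_nonneg (hφ0 x) (neg_nonneg.mpr (hgneg _))
      · exact (mul_nonneg hα.le (Real.rpow_nonneg (norm_nonneg _) _)).trans (hx (V x))
    by_cases hJ : Integrable (fun x => (-(φ x * deriv g (v x))) * ⟪A x (V x), V x⟫) μ
    · rw [integral_add h8 hJ, h7, zero_add]
      exact integral_nonneg_of_ae h10
    · have h11 : ¬ Integrable (fun x => ⟪A x (V x), F x⟫ +
          (-(φ x * deriv g (v x))) * ⟪A x (V x), V x⟫) μ := by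
        intro h12
        apply hJ
        have h13 := h12.sub h8
        refine h13.congr (Eventually.of_forall fun x => ?_)
        simp only [Pi.sub_apply]
        ring
      rw [integral_undef h11]



/-- powers of the smooth transition function -/
noncomputable def FF (q t : ℝ) : ℝ := Real.smoothTransition t ^ q

theorem FF_nonneg (q t : ℝ) : 0 ≤ FF q t := Real.rpow_nonneg (Real.smoothTransition.nonneg t) q

theorem FF_le_one {q : ℝ} (hq : 0 < q) (t : ℝ) : FF q t ≤ 1 :=
  Real.rpow_le_one (Real.smoothTransition.nonneg t) (Real.smoothTransition.le_one t) hq.le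

theorem FF_zero {q : ℝ} (hq : 0 < q) {t : ℝ} (ht : t ≤ 0) : FF q t = 0 := by
  unfold FF
  rw [Real.smoothTransition.zero_of_nonpos ht, Real.zero_rpow hq.ne']

theorem FF_one {q : ℝ} {t : ℝ} (ht : 1 ≤ t) : FF q t = 1 := by
  unfold FF
  rw [Real.smoothTransition.one_of_one_le ht, Real.one_rpow]

theorem FF_mono {q : ℝ} (hq : 0 < q) : Monotone (FF q) := by
  intro s t hst
  exact Real.rpow_le_rpow (Real.smoothTransition.nonneg s) (Real.smoothTransition.monotone hst) hq.le

theorem FF_pow {q r : ℝ} (h : q * r = 1) (t : ℝ) : FF q t ^ r = Real.smoothTransition t := by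
  unfold FF
  rw [← Real.rpow_mul (Real.smoothTransition.nonneg t), h, Real.rpow_one]

theorem eN_rpow {q : ℝ} (hq : 0 < q) (t : ℝ) : expNegInvGlue t ^ q = expNegInvGlue (t / q) := by
  rcases le_or_gt t 0 with h | h
  · rw [expNegInvGlue.zero_of_nonpos h, Real.zero_rpow hq.ne',
      expNegInvGlue.zero_of_nonpos (div_nonpos_of_nonpos_of_nonneg h hq.le)]
  · have h2 : 0 < t / q := div_pos h hq
    unfold expNegInvGlue
    rw [if_neg (not_le.mpr h), if_neg (not_le.mpr h2), ← Real.exp_mul]
    congr 1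
    field_simp

theorem FF_smooth {q : ℝ} (hq : 0 < q) : ContDiff ℝ (⊤ : ℕ∞) (FF q) := by
  have h1 : FF q = fun t => expNegInvGlue (t / q) *
      (expNegInvGlue t + expNegInvGlue (1 - t)) ^ (-q) := by
    funext t
    unfold FF Real.smoothTransition
    rw [Real.div_rpow (expNegInvGlue.nonneg t)
      (add_nonneg (expNegInvGlue.nonneg t) (expNegInvGlue.nonneg (1 - t))), eN_rpow hq,
      Real.rpow_neg (add_nonneg (expNegInvGlue.nonneg t) (expNegInvGlue.nonneg (1 - t)))]
    rw [div_eq_mul_inv]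
  rw [h1]
  have h2 : ContDiff ℝ (⊤ : ℕ∞) (fun t : ℝ => expNegInvGlue (t / q)) :=
    expNegInvGlue.contDiff.comp (contDiff_id.div_const q)
  have h3 : ContDiff ℝ (⊤ : ℕ∞) (fun t : ℝ => expNegInvGlue t + expNegInvGlue (1 - t)) :=
    expNegInvGlue.contDiff.add (expNegInvGlue.contDiff.comp (contDiff_const.sub contDiff_id))
  refine h2.mul (h3.rpow_const_of_ne ?_)
  intro t
  exact (Real.smoothTransition.pos_denom t).ne'

theorem FF_cont {q : ℝ} (hq : 0 < q) : Continuous (FF q) := (FF_smooth hq).continuous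

/-- the primitive of `FF` -/
noncomputable def BF (q x : ℝ) : ℝ := ∫ t in (0:ℝ)..x, FF q t

theorem BF_hasDerivAt {q : ℝ} (hq : 0 < q) (x : ℝ) : HasDerivAt (BF q) (FF q x) x :=
  ((FF_cont hq).integral_hasStrictDerivAt 0 x).hasDerivAt

theorem BF_deriv {q : ℝ} (hq : 0 < q) : deriv (BF q) = FF q := by
  ext x; exact (BF_hasDerivAt hq x).deriv

theorem BF_contDiff {q : ℝ} (hq : 0 < q) : ContDiff ℝ (⊤ : ℕ∞) (BF q) := by
  rw [contDiff_infty_iff_deriv]
  refine ⟨fun x => (BF_hasDerivAt hq x).differentiableAt, ?_⟩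
  rw [BF_deriv hq]
  exact FF_smooth hq

theorem BF_nonpos {q : ℝ} (hq : 0 < q) {x : ℝ} (hx : x ≤ 0) : BF q x = 0 := by
  unfold BF
  rw [intervalIntegral.integral_symm]
  have : ∫ t in x..0, FF q t = ∫ t in x..0, (0:ℝ) := by
    refine intervalIntegral.integral_congr fun t ht => ?_
    rw [uIcc_of_le hx] at ht
    exact FF_zero hq ht.2
  rw [this]; simp

theorem BF_nonneg {q : ℝ} (hq : 0 < q) (x : ℝ) : 0 ≤ BF q x := by
  rcases le_total x 0 with h | h
  · rw [BF_nonpos hq h]
  · exact intervalIntegral.integral_nonneg h fun t _ => FF_nonneg q t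

theorem BF_int {q : ℝ} (hq : 0 < q) (a b : ℝ) : IntervalIntegrable (FF q) volume a b :=
  (FF_cont hq).intervalIntegrable _ _

theorem BF_le {q : ℝ} (hq : 0 < q) {x : ℝ} (hx : 0 ≤ x) : BF q x ≤ x := by
  have h := intervalIntegral.integral_mono_on hx (BF_int hq 0 x)
    (intervalIntegrable_const (c := (1:ℝ))) (fun t _ => FF_le_one hq t)
  simp only [intervalIntegral.integral_const, sub_zero, smul_eq_mul, mul_one] at h
  exact h

theorem BF_ge {q : ℝ} (hq : 0 < q) (x : ℝ) : x - 1 ≤ BF q x := by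
  rcases le_total x 1 with h | h
  · have := BF_nonneg hq x
    linarith
  · have h1 := intervalIntegral.integral_add_adjacent_intervals (BF_int hq 0 1) (BF_int hq 1 x)
    have h2 : ∫ t in (1:ℝ)..x, FF q t = ∫ t in (1:ℝ)..x, (1:ℝ) := by
      refine intervalIntegral.integral_congr fun t ht => ?_
      rw [uIcc_of_le h] at ht
      exact FF_one ht.1
    have h3 := BF_nonneg hq 1
    unfold BF at h3 ⊢
    rw [← h1, h2]
    simp
    exact h3

/-- the truncations -/
noncomputable def th_G (q M : ℝ) (k : ℕ) (s : ℝ) : ℝ :=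
  M - 1 / ((k : ℝ) + 1) * BF q (((k : ℝ) + 1) * (M - s) - 1)

theorem th_hasDeriv_G {q : ℝ} (hq : 0 < q) (M : ℝ) (k : ℕ) (s : ℝ) :
    HasDerivAt (th_G q M k) (FF q (((k : ℝ) + 1) * (M - s) - 1)) s := by
  have hK : ((k : ℝ) + 1) ≠ 0 := by positivity
  have h1 : HasDerivAt (fun s : ℝ => ((k : ℝ) + 1) * (M - s) - 1) (((k : ℝ) + 1) * (-1)) s := by
    have := ((hasDerivAt_id s).const_sub M).const_mul ((k : ℝ) + 1)
    exact this.sub_const 1
  have h2 := (BF_hasDerivAt hq (((k : ℝ) + 1) * (M - s) - 1)).comp s h1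
  have h3 := (h2.const_mul (1 / ((k : ℝ) + 1))).const_sub M
  have h4 : -(1 / ((k : ℝ) + 1) * (FF q (((k : ℝ) + 1) * (M - s) - 1) *
      (((k : ℝ) + 1) * (-1)))) = FF q (((k : ℝ) + 1) * (M - s) - 1) := by
    field_simp
  rw [h4] at h3
  exact h3

theorem th_deriv_G {q : ℝ} (hq : 0 < q) (M : ℝ) (k : ℕ) (s : ℝ) :
    deriv (th_G q M k) s = FF q (((k : ℝ) + 1) * (M - s) - 1) :=
  (th_hasDeriv_G hq M k s).deriv

theorem th_smooth_G {q : ℝ} (hq : 0 < q) (M : ℝ) (k : ℕ) : ContDiff ℝ (⊤ : ℕ∞) (th_G q M k) := by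
  unfold th_G
  exact contDiff_const.sub (contDiff_const.mul
    ((BF_contDiff hq).comp ((contDiff_const.mul (contDiff_const.sub contDiff_id)).sub contDiff_const)))

theorem th_bounds_G {q : ℝ} (hq : 0 < q) {M : ℝ} (k : ℕ) {s : ℝ} (hs : s ≤ M) :
    s ≤ th_G q M k s ∧ th_G q M k s ≤ s + 2 / ((k : ℝ) + 1) := by
  have hK : 0 < ((k : ℝ) + 1) := by positivity
  unfold th_G
  set x := ((k : ℝ) + 1) * (M - s) - 1 with hx
  have hx1 : -1 ≤ x := by
    have : 0 ≤ ((k : ℝ) + 1) * (M - s) := mul_nonneg hK.le (by linarith)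
    linarith
  have h1 := BF_ge hq x
  have h2 : BF q x ≤ x + 1 := by
    rcases le_total 0 x with h | h
    · have := BF_le hq h; linarith
    · rw [BF_nonpos hq h]; linarith
  have e1 : 1 / ((k : ℝ) + 1) * (x + 1) = M - s := by rw [hx]; field_simp; ring
  have e2 : 1 / ((k : ℝ) + 1) * (x - 1) = M - s - 2 / ((k : ℝ) + 1) := by
    rw [hx]; field_simp; ring
  have h3 : 1 / ((k : ℝ) + 1) * BF q x ≤ 1 / ((k : ℝ) + 1) * (x + 1) :=
    mul_le_mul_of_nonneg_left h2 (by positivity)
  have h4 : 1 / ((k : ℝ) + 1) * (x - 1) ≤ 1 / ((k : ℝ) + 1) * BF q x :=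
    mul_le_mul_of_nonneg_left h1 (by positivity)
  constructor <;> linarith

theorem th_lim_G {q : ℝ} (hq : 0 < q) {M s : ℝ} (hs : s < M) :
    Tendsto (fun k : ℕ => deriv (th_G q M k) s) atTop (𝓝 1) := by
  apply tendsto_const_nhds.congr'
  obtain ⟨N, hN⟩ := exists_nat_ge (2 / (M - s))
  filter_upwards [eventually_ge_atTop N] with k hk
  rw [th_deriv_G hq]
  symm
  apply FF_one
  have h1 : (N : ℝ) ≤ k := by exact_mod_cast hk
  have h2 : 2 / (M - s) ≤ (k : ℝ) + 1 := by linarith
  rw [div_le_iff₀ (by linarith)] at h2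
  linarith

theorem two_div_le_G (k : ℕ) : 2 / ((k : ℝ) + 1) ≤ 2 := by
  rw [div_le_iff₀ (by positivity)]
  have : (0 : ℝ) ≤ k := Nat.cast_nonneg k
  linarith

theorem two_div_lim_G : Tendsto (fun k : ℕ => 2 / ((k : ℝ) + 1)) atTop (𝓝 0) := by
  have := (tendsto_one_div_add_atTop_nhds_zero_nat (𝕜 := ℝ)).const_mul 2
  simpa [div_eq_mul_inv] using this

/-- the gradients of the truncations -/
noncomputable def W_G (q M : ℝ) (v : Sp n → ℝ) (V : Sp n → Sp n) (k : ℕ) (x : Sp n) : Sp n :=
  deriv (th_G q M k) (v x) • (if v x < M then V x else 0)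

theorem W_lim_G {q : ℝ} (hq : 0 < q) (M : ℝ) (v : Sp n → ℝ) (V : Sp n → Sp n) (x : Sp n) :
    Tendsto (fun k : ℕ => W_G q M v V k x) atTop (𝓝 (if v x < M then V x else 0)) := by
  unfold W_G
  by_cases h : v x < M
  · simp only [if_pos h]
    have := (th_lim_G hq h).smul_const (V x)
    simpa using this
  · simp only [if_neg h, smul_zero]
    exact tendsto_const_nhds

theorem W_norm_G {q : ℝ} (hq : 0 < q) (M : ℝ) (v : Sp n → ℝ) (V : Sp n → Sp n) (k : ℕ) (x : Sp n) :
    ‖W_G q M v V k x‖ ≤ ‖(if v x < M then V x else 0 : Sp n)‖ := by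
  unfold W_G
  rw [norm_smul, th_deriv_G hq, Real.norm_eq_abs, abs_of_nonneg (FF_nonneg q _)]
  exact mul_le_of_le_one_left (norm_nonneg _) (FF_le_one hq _)

theorem W_sub_norm_G {q : ℝ} (hq : 0 < q) (M : ℝ) (v : Sp n → ℝ) (V : Sp n → Sp n) (k : ℕ) (x : Sp n) :
    ‖(if v x < M then V x else 0 : Sp n) - W_G q M v V k x‖ ≤
      ‖(if v x < M then V x else 0 : Sp n)‖ := by
  unfold W_G
  generalize (if v x < M then V x else 0 : Sp n) = w
  have h0 := FF_nonneg q (((k : ℝ) + 1) * (M - v x) - 1)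
  have h1 := FF_le_one hq (((k : ℝ) + 1) * (M - v x) - 1)
  rw [th_deriv_G hq]
  generalize FF q (((k : ℝ) + 1) * (M - v x) - 1) = t at h0 h1
  have : w - t • w = (1 - t) • w := by rw [sub_smul, one_smul]
  rw [this, norm_smul, Real.norm_eq_abs, abs_of_nonneg (by linarith)]
  exact mul_le_of_le_one_left (norm_nonneg _) (by linarith)

theorem cont_smul_G {F : Type*} [NormedAddCommGroup F] [NormedSpace ℝ F] {G : Set (Sp n)}
    (hG : IsOpen G) {f : Sp n → ℝ} (hf : ContinuousOn f G) {g : Sp n → F} (hg : Continuous g)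
    (hgG : tsupport g ⊆ G) : Continuous (fun x => f x • g x) := by
  apply ContinuousOn.continuous_of_tsupport_subset (hf.smul hg.continuousOn) hG
  exact (tsupport_smul_subset_right f g).trans hgG

theorem memLp_smul_G {μ : Measure (Sp n)} [IsFiniteMeasureOnCompacts μ] {F : Type*} [NormedAddCommGroup F] [NormedSpace ℝ F] {G : Set (Sp n)}
    (hG : IsOpen G) {f : Sp n → ℝ} (hf : ContinuousOn f G) {g : Sp n → F} (hg : Continuous g)
    (hgc : HasCompactSupport g) (hgG : tsupport g ⊆ G) (q : ℝ≥0∞) :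
    MemLp (fun x => f x • g x) q μ := by
  have h1 := cont_smul_G hG hf hg hgG
  have h2 : HasCompactSupport (fun x => f x • g x) := hgc.smul_left (f := f)
  exact h1.memLp_of_hasCompactSupport h2

theorem tsupport_grad_G {η : Sp n → ℝ} : tsupport (gradient η) ⊆ tsupport η := by
  apply closure_minimal _ (isClosed_tsupport η)
  intro x hx
  by_contra h
  exact hx (grad_zero_of_notMem h)

theorem energy_G {μ : Measure (Sp n)} [IsFiniteMeasureOnCompacts μ] {q : ℝ} (hq : 0 < q)
    (hp : 1 < p) {N : ℕ} (hN : p ≤ N) (hα : 0 < α) (hβ : 0 < β)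
    (hA : Op p α β μ A) {G : Set (Sp n)} (hG : IsOpen G)
    {v : Sp n → ℝ} {V : Sp n → Sp n} {M : ℝ} (hv : ContinuousOn v G) (hM : ∀ x ∈ G, v x ≤ M)
    (hS : ∀ k, Sup A p μ G (fun x => th_G q M k (v x)) (W_G q M v V k))
    {ζ : Sp n → ℝ} (hζ : Cc G ζ) (hζ1 : ∀ x, 0 ≤ ζ x ∧ ζ x ≤ 1) :
    ∃ B : ℝ, ∀ k, Integrable (fun x => ‖W_G q M v V k x‖ ^ p * ζ x ^ N) μ ∧
      ∫ x, ‖W_G q M v V k x‖ ^ p * ζ x ^ N ∂μ ≤ B := by
  have hN0 : N ≠ 0 := by
    rintro rfl
    rw [Nat.cast_zero] at hN
    linarith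
  obtain ⟨C, hC0, hC⟩ := caccioppoli (n := n) hp hα hβ N hN
  obtain ⟨m0, hm0⟩ : ∃ m0, ∀ x ∈ tsupport ζ, m0 ≤ v x := by
    obtain ⟨m0, h⟩ := (hζ.comp.isCompact.image_of_continuousOn (hv.mono hζ.supp)).bddBelow
    exact ⟨m0, fun x hx => h ⟨x, hx, rfl⟩⟩
  set m := min m0 M with hm
  have hmM : m ≤ M := min_le_right _ _
  have hm1 : ∀ x ∈ tsupport ζ, m ≤ v x := fun x hx => (min_le_left _ _).trans (hm0 x hx)
  set G1 := G ∩ v ⁻¹' Ioi (m - 1) with hG1d
  have hG1 : IsOpen G1 := hv.isOpen_inter_preimage hG isOpen_Ioi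
  have hζG1 : Cc G1 ζ := ⟨hζ.smooth, hζ.comp, fun x hx => ⟨hζ.supp hx, by
    show m - 1 < v x
    have := hm1 x hx
    linarith⟩⟩
  refine ⟨C * ∫ x, (M - m + 4) ^ p * ‖gradient ζ x‖ ^ p ∂μ, fun k => ?_⟩
  have hs := Sup.sub_const hp (Sup.mono_set hp (hS k) hG1 inter_subset_left) (m - 1)
  have hpos : ∀ x ∈ G1, 0 ≤ th_G q M k (v x) - (m - 1) := by
    intro x hx
    have h1 := (th_bounds_G hq k (hM x hx.1)).1
    have h2 : m - 1 < v x := hx.2
    linarith
  have hlt : ∀ x ∈ G1, th_G q M k (v x) - (m - 1) < M - m + 4 := by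
    intro x hx
    have h1 := (th_bounds_G hq k (hM x hx.1)).2
    have h2 := two_div_le_G k
    have h3 := hM x hx.1
    linarith
  obtain ⟨h1, h2, h3⟩ := hC μ A hA G1 hG1 _ _ hs (Eventually.of_forall hpos)
    (M - m + 4) (by linarith) ζ hζG1 hζ1
  have e1 : (fun x => (if th_G q M k (v x) - (m - 1) < M - m + 4 then (1 : ℝ) else 0) *
      ‖W_G q M v V k x‖ ^ p * ζ x ^ N) =
      fun x => ‖W_G q M v V k x‖ ^ p * ζ x ^ N := by
    funext x
    by_cases hx : x ∈ tsupport ζ
    · rw [if_pos (hlt x (hζG1.supp hx)), one_mul]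
    · rw [zero_of_notMem hx, zero_pow hN0, mul_zero, mul_zero]
  rw [e1] at h3 h1
  refine ⟨h1, h3.trans (mul_le_mul_of_nonneg_left ?_ hC0)⟩
  have hi : Integrable (fun x => (M - m + 4) ^ p * ‖gradient ζ x‖ ^ p)
      μ := (int_rpow hp (hζ.memLp_grad _)).const_mul _
  apply integral_mono h2 hi
  intro x
  show max (M - m + 4 - (th_G q M k (v x) - (m - 1))) 0 ^ p * ‖gradient ζ x‖ ^ p ≤
    (M - m + 4) ^ p * ‖gradient ζ x‖ ^ p
  by_cases hx : x ∈ tsupport ζ
  · apply mul_le_mul_of_nonneg_right _ (by positivity)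
    apply Real.rpow_le_rpow (le_max_right _ _) _ (by positivity)
    apply max_le
    · have := hpos x (hζG1.supp hx)
      linarith
    · linarith
  · rw [grad_zero_of_notMem hx, norm_zero, Real.zero_rpow (by linarith), mul_zero, mul_zero]

/-- `L^n` bound for the limit gradient -/
theorem memLp_lim_G {μ : Measure (Sp n)} [IsFiniteMeasureOnCompacts μ] {q : ℝ} (hq : 0 < q)
    (hp : 1 < p) {N : ℕ} (hN : p ≤ N) (hα : 0 < α) (hβ : 0 < β)
    (hA : Op p α β μ A) {G : Set (Sp n)} (hG : IsOpen G)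
    {v : Sp n → ℝ} {V : Sp n → Sp n} {M : ℝ} (hv : ContinuousOn v G) (hM : ∀ x ∈ G, v x ≤ M)
    (hS : ∀ k, Sup A p μ G (fun x => th_G q M k (v x)) (W_G q M v V k))
    {ζ : Sp n → ℝ} (hζ : Cc G ζ) (hζ1 : ∀ x, 0 ≤ ζ x ∧ ζ x ≤ 1) :
    (∀ k, MemLp (fun x => ζ x • W_G q M v V k x) (ENNReal.ofReal p)
      μ) ∧
    MemLp (fun x => ζ x • (if v x < M then V x else 0 : Sp n)) (ENNReal.ofReal p)
      μ := by
  have hk : ∀ k, MemLp (fun x => ζ x • W_G q M v V k x) (ENNReal.ofReal p)
      μ := by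
    intro k
    have h1 := ((hS k).1 ζ hζ).mU
    have hc : ContinuousOn (fun x => th_G q M k (v x)) G :=
      (th_smooth_G hq M k).continuous.comp_continuousOn hv
    have h2 := memLp_smul_G (μ := μ) hG hc hζ.cont_grad hζ.comp_grad
      (tsupport_grad_G.trans hζ.supp) (ENNReal.ofReal p)
    have h3 := h1.sub h2
    refine h3.ae_eq (Eventually.of_forall fun x => ?_)
    show (ζ x • W_G q M v V k x + th_G q M k (v x) • gradient ζ x) -
      th_G q M k (v x) • gradient ζ x = _
    rw [add_sub_cancel_right]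
  refine ⟨hk, ?_⟩
  obtain ⟨χ, hχ, hχ1, O', hO', hKO', hOG', hχO'⟩ := exists_cutoff hζ.comp.isCompact hG hζ.supp
  obtain ⟨B, hB⟩ := energy_G hq hp hN hα hβ hA hG hv hM hS hχ hχ1
  have hlim : ∀ x, Tendsto (fun k => ζ x • W_G q M v V k x) atTop
      (𝓝 (ζ x • (if v x < M then V x else 0 : Sp n))) :=
    fun x => (W_lim_G hq M v V x).const_smul (ζ x)
  have hq0 : ENNReal.ofReal p ≠ 0 := by
    rw [ne_eq, ENNReal.ofReal_eq_zero]
    linarith
  have hbd : ∀ k, eLpNorm (fun x => ζ x • W_G q M v V k x) (ENNReal.ofReal p)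
      μ ≤ ENNReal.ofReal (B ^ (p⁻¹)) := by
    intro k
    rw [(hk k).eLpNorm_eq_integral_rpow_norm hq0 ENNReal.ofReal_ne_top,
      ENNReal.toReal_ofReal (by linarith)]
    apply ENNReal.ofReal_le_ofReal
    apply Real.rpow_le_rpow (integral_nonneg (fun x => by positivity)) _ (by positivity)
    refine le_trans (integral_mono_of_nonneg (Eventually.of_forall fun x => by positivity)
      (hB k).1 (Eventually.of_forall fun x => ?_)) (hB k).2
    show ‖ζ x • W_G q M v V k x‖ ^ p ≤ ‖W_G q M v V k x‖ ^ p * χ x ^ N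
    by_cases hx : x ∈ tsupport ζ
    · rw [hχO' x (hKO' hx), one_pow, mul_one, norm_smul, Real.norm_eq_abs, abs_of_nonneg (hζ1 x).1]
      exact Real.rpow_le_rpow (mul_nonneg (hζ1 x).1 (norm_nonneg _))
        (mul_le_of_le_one_left (norm_nonneg _) (hζ1 x).2) (by linarith)
    · rw [zero_of_notMem hx, zero_smul, norm_zero, Real.zero_rpow (by linarith)]
      exact mul_nonneg (Real.rpow_nonneg (norm_nonneg _) _) (pow_nonneg (hχ1 x).1 _)
  refine ⟨aestronglyMeasurable_of_tendsto_ae atTop (fun k => (hk k).1)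
    (Eventually.of_forall hlim), ?_⟩
  refine lt_of_le_of_lt ?_ (ENNReal.ofReal_lt_top (r := B ^ (p⁻¹)))
  exact Lp.eLpNorm_le_of_ae_tendsto (u := atTop) (Eventually.of_forall hbd) (fun k => (hk k).1)
    (Eventually.of_forall hlim)

/-- pasting: a continuous function which is harmonic below its maximum `M` is a supersolution -/
theorem paste_sup_gen {μ : Measure (Sp n)} [IsFiniteMeasureOnCompacts μ] (hp : 1 < p) (hα : 0 < α) (hβ : 0 < β)
    (hA : Op p α β μ A) {G : Set (Sp n)} (hG : IsOpen G)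
    {v : Sp n → ℝ} {V : Sp n → Sp n} {M : ℝ} (hv : ContinuousOn v G) (hM : ∀ x ∈ G, v x ≤ M)
    (hV : LH p μ (G ∩ {x | v x < M}) v V)
    (he : ∀ φ, Cc (G ∩ {x | v x < M}) φ → ∫ x, ⟪A x (V x), gradient φ x⟫ ∂μ = 0) :
    Sup A p μ G v (fun x => if v x < M then V x else 0) := by
  obtain ⟨q, hq, hqp⟩ : ∃ q : ℝ, 0 < q ∧ q * (p - 1) = 1 :=
    ⟨(p - 1)⁻¹, inv_pos.mpr (by linarith), inv_mul_cancel₀ (by linarith)⟩
  obtain ⟨N, hN⟩ := exists_nat_ge p
  have hq0 : ENNReal.ofReal p ≠ 0 := by
    rw [ne_eq, ENNReal.ofReal_eq_zero]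
    linarith
  have hS : ∀ k, Sup A p μ G (fun x => th_G q M k (v x)) (W_G q M v V k) := by
    intro k
    have hK : 0 < ((k : ℝ) + 1) := by positivity
    refine trunc_sup hp hα hβ hA hG hv hV he (th_smooth_G hq M k) ?_ ?_ ?_
      (b := M - 1 / ((k : ℝ) + 1)) ?_ ?_
    · intro s
      rw [th_deriv_G hq]
      exact ⟨FF_nonneg q _, FF_le_one hq _⟩
    · intro s t hst
      rw [th_deriv_G hq, th_deriv_G hq]
      apply FF_mono hq
      have : ((k : ℝ) + 1) * (M - t) ≤ ((k : ℝ) + 1) * (M - s) :=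
        mul_le_mul_of_nonneg_left (by linarith) hK.le
      linarith
    · have e1 : (fun s => deriv (th_G q M k) s ^ (p - 1)) =
          fun s => Real.smoothTransition (((k : ℝ) + 1) * (M - s) - 1) := by
        funext s
        rw [th_deriv_G hq, FF_pow hqp]
      rw [e1]
      exact Real.smoothTransition.contDiff.comp
        ((contDiff_const.mul (contDiff_const.sub contDiff_id)).sub contDiff_const)
    · have : 0 < 1 / ((k : ℝ) + 1) := by positivity
      linarith
    · intro s hs
      rw [th_deriv_G hq]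
      apply FF_zero hq
      have h1 : M - s ≤ 1 / ((k : ℝ) + 1) := by linarith
      rw [le_div_iff₀ hK] at h1
      linarith
  have hu1 : ∀ k, ∀ x ∈ G, |v x - th_G q M k (v x)| ≤ 2 / ((k : ℝ) + 1) := by
    intro k x hx
    obtain ⟨h1, h2⟩ := th_bounds_G hq k (hM x hx)
    rw [abs_le]
    constructor <;> linarith
  constructor
  · intro η hη
    obtain ⟨ζ, hζ, hζ1, O, hO, hKO, hOG, hζO⟩ := exists_cutoff hη.comp.isCompact hG hη.supp
    have hζη : ∀ x ∈ tsupport η, ζ x = 1 := fun x hx => hζO x (hKO hx)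
    obtain ⟨hk, hlim⟩ := memLp_lim_G hq hp hN hα hβ hA hG hv hM hS hζ hζ1
    obtain ⟨Cη, hCη⟩ := hη.comp.exists_bound_of_continuous hη.cont
    have hηV : MemLp (fun x => η x • (if v x < M then V x else 0 : Sp n)) (ENNReal.ofReal p)
        μ := by
      have e1 : (fun x => η x • (if v x < M then V x else 0 : Sp n)) =
          fun x => η x • (ζ x • (if v x < M then V x else 0 : Sp n)) := by
        funext x
        by_cases hx : x ∈ tsupport η
        · rw [hζη x hx, one_smul]
        · rw [zero_of_notMem hx, zero_smul, zero_smul]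
      rw [e1]
      have hm : AEStronglyMeasurable (fun x => η x •
          (ζ x • (if v x < M then V x else 0 : Sp n))) μ :=
        hη.cont.aestronglyMeasurable.smul hlim.1
      refine hlim.of_le_mul (c := Cη) hm (Eventually.of_forall fun x => ?_)
      rw [norm_smul]
      exact mul_le_mul_of_nonneg_right (hCη x)
        (norm_nonneg (ζ x • (if v x < M then V x else 0 : Sp n)))
    have hgrad : tsupport (gradient η) ⊆ G := tsupport_grad_G.trans hη.supp
    have hvg := memLp_smul_G (μ := μ) hG hv hη.cont_grad hη.comp_grad hgrad (ENNReal.ofReal p)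
    have hvη : MemLp (fun x => η x * v x) (ENNReal.ofReal p) μ := by
      have := memLp_smul_G (μ := μ) hG hv hη.cont hη.comp hη.supp (ENNReal.ofReal p)
      refine this.ae_eq (Eventually.of_forall fun x => ?_)
      show v x * η x = η x * v x
      rw [mul_comm]
    have hUU := hηV.add hvg
    refine H0.lim hp.le hvη hUU ?_
    intro ε hε
    -- convergence of the functions
    have ha : Tendsto (fun k => eLpNorm (fun x => η x * v x - η x * th_G q M k (v x))
        (ENNReal.ofReal p) μ) atTop (𝓝 0) := by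
      apply Lp_dct hq0 ENNReal.ofReal_ne_top (g := fun x => 2 * ‖η x‖)
        ((hη.memLp _).norm.const_mul 2)
      · intro k
        exact (hvη.sub ((hS k).1 η hη).mu).1
      · intro k
        filter_upwards with x
        rw [← mul_sub, norm_mul, mul_comm]
        by_cases hx : x ∈ G
        · apply mul_le_mul_of_nonneg_right _ (norm_nonneg _)
          rw [Real.norm_eq_abs]
          exact (hu1 k x hx).trans (two_div_le_G k)
        · rw [zero_of_notMem (fun h => hx (hη.supp h)), norm_zero, mul_zero, mul_zero]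
      · filter_upwards with x
        by_cases hx : x ∈ G
        · have h1 : Tendsto (fun k => v x - th_G q M k (v x)) atTop (𝓝 0) :=
            squeeze_zero_norm (fun k => hu1 k x hx) two_div_lim_G
          have := h1.const_mul (η x)
          rw [mul_zero] at this
          refine this.congr (fun k => ?_)
          rw [mul_sub]
        · have h0 : η x = 0 := zero_of_notMem (fun h => hx (hη.supp h))
          simp only [h0, zero_mul, sub_zero]
          exact tendsto_const_nhds
    have hb : Tendsto (fun k => eLpNorm (fun x =>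
        (η x • (if v x < M then V x else 0 : Sp n) + v x • gradient η x) -
          (η x • W_G q M v V k x + th_G q M k (v x) • gradient η x))
        (ENNReal.ofReal p) μ) atTop (𝓝 0) := by
      have key : ∀ k x, (η x • (if v x < M then V x else 0 : Sp n) + v x • gradient η x) -
          (η x • W_G q M v V k x + th_G q M k (v x) • gradient η x) =
          η x • ((if v x < M then V x else 0 : Sp n) - W_G q M v V k x) +
            (v x - th_G q M k (v x)) • gradient η x := by
        intro k x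
        rw [smul_sub, sub_smul]
        abel
      apply Lp_dct hq0 ENNReal.ofReal_ne_top
        (g := fun x => ‖η x • (if v x < M then V x else 0 : Sp n)‖ + 2 * ‖gradient η x‖)
        (hηV.norm.add ((hη.memLp_grad _).norm.const_mul 2))
      · intro k
        exact (hUU.sub ((hS k).1 η hη).mU).1
      · intro k
        filter_upwards with x
        rw [key]
        refine (norm_add_le _ _).trans (add_le_add ?_ ?_)
        · rw [norm_smul, norm_smul]
          exact mul_le_mul_of_nonneg_left (W_sub_norm_G hq M v V k x) (norm_nonneg _)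
        · rw [norm_smul]
          by_cases hx : x ∈ G
          · apply mul_le_mul_of_nonneg_right _ (norm_nonneg _)
            rw [Real.norm_eq_abs]
            exact (hu1 k x hx).trans (two_div_le_G k)
          · rw [grad_zero_of_notMem (fun h => hx (hη.supp h)), norm_zero, mul_zero, mul_zero]
      · filter_upwards with x
        simp only [key]
        have h1 : Tendsto (fun k => η x • ((if v x < M then V x else 0 : Sp n) -
            W_G q M v V k x)) atTop (𝓝 0) := by
          have h2 := ((W_lim_G hq M v V x).const_sub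
            (if v x < M then V x else 0 : Sp n)).const_smul (η x)
          rw [sub_self, smul_zero] at h2
          exact h2
        have h3 : Tendsto (fun k => (v x - th_G q M k (v x)) • gradient η x) atTop (𝓝 0) := by
          by_cases hx : x ∈ G
          · have h1 : Tendsto (fun k => v x - th_G q M k (v x)) atTop (𝓝 0) :=
              squeeze_zero_norm (fun k => hu1 k x hx) two_div_lim_G
            have := h1.smul_const (gradient η x)
            rwa [zero_smul] at this
          · have h0 : gradient η x = 0 := grad_zero_of_notMem (fun h => hx (hη.supp h))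
            simp only [h0, smul_zero]
            exact tendsto_const_nhds
        have := h1.add h3
        rwa [add_zero] at this
    obtain ⟨j, hj1, hj2⟩ := exists_le_of_tendsto ha hb hε
    exact ⟨_, _, (hS j).1 η hη, hj1, hj2⟩
  · intro φ hφ hφ0
    obtain ⟨ζ, hζ, hζ1, O, hO, hKO, hOG, hζO⟩ := exists_cutoff hφ.comp.isCompact hG hφ.supp
    have hζφ : ∀ x ∈ tsupport φ, ζ x = 1 := fun x hx => hζO x (hKO hx)
    obtain ⟨hk, hlim⟩ := memLp_lim_G hq hp hN hα hβ hA hG hv hM hS hζ hζ1
    have hrep : ∀ U : Sp n → Sp n, (fun x => ⟪A x (U x), gradient φ x⟫) =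
        fun x => ⟪A x (ζ x • U x), gradient φ x⟫ := by
      intro U
      funext x
      by_cases hx : x ∈ tsupport φ
      · rw [hζφ x hx, one_smul]
      · rw [grad_zero_of_notMem hx, inner_zero_right, inner_zero_right]
    have hint : ∀ k, 0 ≤ ∫ x, ⟪A x (ζ x • W_G q M v V k x), gradient φ x⟫ ∂μ := by
      intro k
      rw [← hrep]
      exact (hS k).2 φ hφ hφ0
    rw [hrep]
    have hconv : Tendsto (fun k => ∫ x, ⟪A x (ζ x • W_G q M v V k x), gradient φ x⟫ ∂μ) atTop
        (𝓝 (∫ x, ⟪A x (ζ x • (if v x < M then V x else 0 : Sp n)), gradient φ x⟫ ∂μ)) := by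
      apply tendsto_integral_of_dominated_convergence
        (fun x => β * (‖ζ x • (if v x < M then V x else 0 : Sp n)‖ ^ p +
          ‖gradient φ x‖ ^ p))
      · intro k
        exact (int_inner hp hA (hk k) (hφ.memLp_grad _)).1
      · exact ((int_rpow hp hlim).add (int_rpow hp (hφ.memLp_grad _))).const_mul β
      · intro k
        filter_upwards [abs_inner_le hA (fun x => ζ x • W_G q M v V k x) (gradient φ)] with x hx
        refine hx.trans (mul_le_mul_of_nonneg_left ?_ hβ.le)
        have h1 : ‖ζ x • W_G q M v V k x‖ ≤ ‖ζ x • (if v x < M then V x else 0 : Sp n)‖ := by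
          rw [norm_smul, norm_smul]
          exact mul_le_mul_of_nonneg_left (W_norm_G hq M v V k x) (norm_nonneg _)
        have h2 : ‖ζ x • W_G q M v V k x‖ ^ (p - 1) ≤
            ‖ζ x • (if v x < M then V x else 0 : Sp n)‖ ^ (p - 1) :=
          Real.rpow_le_rpow (norm_nonneg _) h1 (by linarith)
        refine (mul_le_mul_of_nonneg_right h2 (norm_nonneg _)).trans ?_
        generalize hga : ‖ζ x • (if v x < M then V x else 0 : Sp n)‖ = a
        generalize hgb : ‖gradient φ x‖ = b
        have ha0 : 0 ≤ a := by rw [← hga]; exact norm_nonneg _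
        have hb0 : 0 ≤ b := by rw [← hgb]; exact norm_nonneg _
        have hsplit : ∀ t : ℝ, 0 ≤ t → t ^ (p - 1) * t = t ^ p := by
          intro t ht
          conv_lhs => rw [← Real.rpow_one t]
          rw [Real.rpow_one, ← Real.rpow_add_one' ht (by linarith)]
          congr 1
          ring
        rcases le_total a b with hab | hab
        · have h3 : a ^ (p - 1) ≤ b ^ (p - 1) :=
            Real.rpow_le_rpow ha0 hab (by linarith)
          have h4 : 0 ≤ a ^ p := by positivity
          calc a ^ (p - 1) * b ≤ b ^ (p - 1) * b :=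
                mul_le_mul_of_nonneg_right h3 hb0
            _ = b ^ p := hsplit b hb0
            _ ≤ a ^ p + b ^ p := by linarith
        · have h4 : 0 ≤ b ^ p := by positivity
          calc a ^ (p - 1) * b ≤ a ^ (p - 1) * a :=
                mul_le_mul_of_nonneg_left hab (by positivity)
            _ = a ^ p := hsplit a ha0
            _ ≤ a ^ p + b ^ p := by linarith
      · filter_upwards [hA.cont] with x hx
        have h1 := (W_lim_G hq M v V x).const_smul (ζ x)
        have h2 := (hx.tendsto _).comp h1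
        exact h2.inner tendsto_const_nhds
    exact ge_of_tendsto' hconv hint


end PasteGen

open Pool.Agent.Helper533

variable {n : ℕ} {p α β Cd θ Cs lam Cp : ℝ} {μ : Measure (Sp n)} {A : Sp n → Sp n → Sp n}

/-- pasting: a continuous function `v ≤ M` which is harmonic where `v < M` is a supersolution -/
theorem paste_sup (hn : 2 ≤ n) (hd : Dat n p α β Cd θ Cs lam Cp μ A) {Ω : Set (Sp n)}
    (hΩ : IsOpen Ω) {v : Sp n → ℝ} (hv : ContinuousOn v Ω) {M : ℝ} (hM : ∀ x ∈ Ω, v x ≤ M)
    (hh : Harm A p μ {x | x ∈ Ω ∧ v x < M} v) : ∃ V : Sp n → Sp n, Polar.Sup A p μ Ω v V := by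
  haveI := hd.fin
  obtain ⟨_, V, hV, he⟩ := hh
  exact ⟨_, PasteGen.paste_sup_gen hd.hp hd.hα hd.hβ hd.op hΩ hv hM hV he⟩

end Pool.Agent.Helper80.HMO
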