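import Pool.Agent.Helper80.HMO.PolarP
import Pool.Agent.Helper80.HMO.Paste
open MeasureTheory Filter Topology Set Metric
open scoped ENNReal NNReal RealInnerProductSpace

namespace Pool.Agent.Helper80.HMO

open Pool.Agent.Helper533

variable {n : ℕ} {p α β Cd θ Cs lam Cp : ℝ} {μ : Measure (Sp n)} {A : Sp n → Sp n → Sp n}

/-- RADO property at polar values, local form -/
theorem rado_polar (hn : 2 ≤ n) {α' β' Cd' θ' Cs' lam' Cp' : ℝ} {ν : Measure (Sp n)}
    {Astar : Sp n → Sp n → Sp n} (hds : Dat n p α' β' Cd' θ' Cs' lam' Cp' ν Astar)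
    (hd : Dat n p α β Cd θ Cs lam Cp μ A) {G : Set (Sp n)} {f : Sp n → Sp n} (hG : IsOpen G)
    (hGc : IsPreconnected G) (hf : Morph p ν μ Astar A G f) {x₀ : Sp n} (hx₀ : x₀ ∈ G)
    {S : ℝ} (hS1 : 1 ≤ S) (hpol : PolarPt p μ (f x₀) S) (hconst : ∀ᶠ x in 𝓝 x₀, f x = f x₀) : ∀ x ∈ G, f x = f x₀ := by
  have hp : 1 < p := hd.hp
  have hSpos : 0 < S := by linarith
  haveI := hds.fin
  set y₀ : Sp n := f x₀ with hy₀
  have hlam' : 1 ≤ lam' := hds.adm.one_le_lam
  have hlam : 1 ≤ lam := hd.adm.one_le_lam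
  obtain ⟨Z, hZ⟩ : ∃ Z : Set (Sp n), Z = {x | x ∈ G ∧ ∀ᶠ z in 𝓝 x, f z = y₀} := ⟨_, rfl⟩
  have hZo : IsOpen Z := by
    rw [isOpen_iff_mem_nhds]
    intro x hx
    rw [hZ] at hx
    filter_upwards [hG.mem_nhds hx.1, hx.2.eventually_nhds] with z h1 h2
    rw [hZ]
    exact ⟨h1, h2⟩
  have hZf : ∀ x ∈ Z, f x = y₀ := fun x hx => by
    rw [hZ] at hx
    exact hx.2.self_of_nhds
  have hx₀Z : x₀ ∈ Z := by rw [hZ]; exact ⟨hx₀, hconst⟩
  have hcl : closure Z ∩ G ⊆ Z := by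
    rintro x₁ ⟨hx₁c, hx₁⟩
    have hfx₁ : f x₁ = y₀ := by
      have hca : ContinuousAt f x₁ := hf.cont.continuousAt (hG.mem_nhds hx₁)
      have h1 : f x₁ ∈ closure (f '' Z) := mem_closure_image hca hx₁c
      have h2 : f '' Z ⊆ {y₀} := by
        rintro _ ⟨z, hz, rfl⟩
        exact hZf z hz
      have h3 := closure_mono h2 h1
      rwa [closure_singleton] at h3
    obtain ⟨U, hU⟩ : ∃ U : Set (Sp n), U = G ∩ f ⁻¹' (ball y₀ S) := ⟨_, rfl⟩
    have hUo : IsOpen U := by rw [hU]; exact hf.cont.isOpen_inter_preimage hG isOpen_ball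
    have hx₁U : x₁ ∈ U := by
      rw [hU]
      exact ⟨hx₁, by show f x₁ ∈ ball y₀ S; rw [hfx₁]; exact mem_ball_self hSpos⟩
    obtain ⟨R, hR, hRU⟩ := Metric.isOpen_iff.1 hUo x₁ hx₁U
    obtain ⟨ρ, hρ⟩ : ∃ ρ : ℝ, ρ = R / (2 * lam') := ⟨_, rfl⟩
    have hρ0 : 0 < ρ := by rw [hρ]; positivity
    have hρR : 2 * lam' * ρ = R := by rw [hρ]; field_simp
    have hballU : ball x₁ (2 * lam' * ρ) ⊆ U := by rw [hρR]; exact hRU
    -- positive measure of the constancy set
    have hne : (Z ∩ ball x₁ ρ).Nonempty := by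
      obtain ⟨z, hz1, hz2⟩ := mem_closure_iff.1 hx₁c (ball x₁ ρ) isOpen_ball (mem_ball_self hρ0)
      exact ⟨z, hz2, hz1⟩
    have hνfin : ν (ball x₁ ρ) < ⊤ := hds.adm.fin x₁ ρ
    have hνpos : 0 < ν.real (ball x₁ ρ) :=
      ENNReal.toReal_pos (hds.adm.pos x₁ ρ hρ0).ne' hνfin.ne
    have hνZ : 0 < ν.real (Z ∩ ball x₁ ρ) := by
      refine ENNReal.toReal_pos ?_ (lt_of_le_of_lt (measure_mono inter_subset_right) hνfin).ne
      obtain ⟨z, hz⟩ := hne
      obtain ⟨s, hs, hsZ⟩ := Metric.isOpen_iff.1 (hZo.inter isOpen_ball) z hz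
      exact (lt_of_lt_of_le (hds.adm.pos z s hs) (measure_mono hsZ)).ne'
    obtain ⟨γ, hγ⟩ : ∃ γ : ℝ, γ = ν.real (Z ∩ ball x₁ ρ) / ν.real (ball x₁ ρ) := ⟨_, rfl⟩
    have hγ0 : 0 < γ := by rw [hγ]; positivity
    obtain ⟨δ, hδ0, hδ1, hδ⟩ := dg2_ptw (n := n) (p := p) (α := α') (β := β') (Cd := Cd') (θ := θ')
      (Cs := Cs') (lam := lam') (Cp := Cp') hds.hp hds.hα hds.hβ hγ0
    obtain ⟨δ₁, hδ₁0, hδ₁1, hδ₁⟩ := expand (n := n) (p := p) (α := α) (β := β) (Cd := Cd) (θ := θ)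
      (Cs := Cs) (lam := lam) (Cp := Cp) hd.hp hd.hα hd.hβ
    have hkey : ∀ w ∈ ball x₁ (ρ / 2), f w = y₀ := by
      intro w hw
      by_contra hwe
      obtain ⟨c, hc⟩ : ∃ c : ℝ, c = δ₁ * (δ₁ * 1) := ⟨_, rfl⟩
      have hc0 : 0 < c := by rw [hc]; positivity
      obtain ⟨ε, hε⟩ : ∃ ε : ℝ, ε = min (1 / (16 * lam)) (δ * c / 2) := ⟨_, rfl⟩
      have hε0 : 0 < ε := by
        rw [hε]; exact lt_min (by positivity) (by positivity)
      have hε1 : ε ≤ 1 / (16 * lam) := by rw [hε]; exact min_le_left _ _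
      have hε2 : ε ≤ δ * c / 2 := by rw [hε]; exact min_le_right _ _
      obtain ⟨t₁, ω, ht₁, ht₁ε, hcb, hpot, hωe⟩ := exists_pot_small hn hd hSpos hpol hwe hε0
      have ht16 : 16 * lam * t₁ ≤ 1 := by
        have h1 : t₁ ≤ 1 / (16 * lam) := ht₁ε.le.trans hε1
        rw [le_div_iff₀ (by positivity)] at h1
        linarith
      obtain ⟨W, hW⟩ := hpot.sup
      have hex1 : ∀ z ∈ ball y₀ (2 * t₁), δ₁ * 1 ≤ ω z := by
        refine hδ₁ μ A hd (ball y₀ S) isOpen_ball ω W hW hpot.cont.continuousOn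
          (fun y _ => hpot.nonneg y) y₀ t₁ ht₁ (ball_subset_ball ?_) 1 one_pos ?_
        · nlinarith
        · intro z hz
          exact (hpot.one z (ball_subset_closedBall hz)).ge
      have hex2 : ∀ z ∈ ball y₀ (2 * (2 * t₁)), δ₁ * (δ₁ * 1) ≤ ω z := by
        refine hδ₁ μ A hd (ball y₀ S) isOpen_ball ω W hW hpot.cont.continuousOn
          (fun y _ => hpot.nonneg y) y₀ (2 * t₁) (by positivity) (ball_subset_ball ?_) (δ₁ * 1)
          (by positivity) hex1
        linarith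
      obtain ⟨ω', hω'⟩ : ∃ ω' : Sp n → ℝ, ω' = fun z => min (c⁻¹ * ω z) 1 := ⟨_, rfl⟩
      have hω'c : Continuous ω' := by
        rw [hω']
        exact (continuous_const.mul hpot.cont).min continuous_const
      have hω'1 : ∀ z, ω' z ≤ 1 := fun z => by rw [hω']; exact min_le_right _ _
      have hω'0 : ∀ z, 0 ≤ ω' z := fun z => by
        rw [hω']
        exact le_min (mul_nonneg (inv_nonneg.2 hc0.le) (hpot.nonneg z)) zero_le_one
      have hω'cb : ∀ z ∈ closedBall y₀ (2 * t₁), ω' z = 1 := by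
        intro z hz
        have h1 : z ∈ ball y₀ (2 * (2 * t₁)) := by
          rw [mem_closedBall] at hz
          rw [mem_ball]
          linarith
        have h2 := hex2 z h1
        rw [← hc] at h2
        rw [hω']
        refine min_eq_right ?_
        rw [← div_eq_inv_mul, le_div_iff₀ hc0]
        linarith
      have hω'y₀ : ω' y₀ = 1 := hω'cb y₀ (mem_closedBall_self (by positivity))
      obtain ⟨G', hG'⟩ : ∃ G' : Set (Sp n), G' = ball y₀ S ∩ {z | ω' z < 1} := ⟨_, rfl⟩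
      have hG'o : IsOpen G' := by
        rw [hG']; exact isOpen_ball.inter (isOpen_lt hω'c continuous_const)
      have hHarm : Harm A p μ G' ω' := by
        have h1 : Harm A p μ G' ω := by
          refine hpot.harm.mono hd hG'o ?_
          rw [hG']
          rintro z ⟨hz1, hz2⟩
          refine ⟨hz1, fun hz3 => ?_⟩
          have h2 := hω'cb z hz3
          have h3 : ω' z < 1 := hz2
          linarith
        refine (h1.const_mul hd c⁻¹).congr hd ?_
        intro z hz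
        rw [hG'] at hz
        have h3 : ω' z < 1 := hz.2
        rw [hω'] at h3 ⊢
        simp only at h3 ⊢
        rcases min_lt_iff.1 h3 with h4 | h4
        · exact (min_eq_left h4.le).symm
        · exact absurd h4 (lt_irrefl _)
      have hpull := hf.pull G' hG'o ω' hHarm
      have hset : {x | x ∈ U ∧ (ω' ∘ f) x < 1} = G ∩ f ⁻¹' G' := by
        ext x
        rw [hU, hG']
        simp only [mem_ofPred_eq, mem_inter_iff, mem_preimage, Function.comp_apply]
        tauto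
      have hvc : ContinuousOn (ω' ∘ f) U := by
        refine hω'c.comp_continuousOn (hf.cont.mono ?_)
        rw [hU]; exact inter_subset_left
      obtain ⟨V, hV⟩ := paste_sup hn hds hUo hvc (M := 1) (fun x _ => hω'1 _)
        (by rw [hset]; exact hpull)
      have hfin := hδ ν Astar hds U hUo (ω' ∘ f) V hV hvc (fun y _ => hω'0 _) x₁ ρ hρ0 hballU 1
        one_pos ?_ w hw
      · have h1 : ω' (f w) ≤ c⁻¹ * ω (f w) := by rw [hω']; exact min_le_left _ _
        have h2 : δ * 1 ≤ ω' (f w) := hfin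
        have h3 : c⁻¹ * ω (f w) ≤ c⁻¹ * (δ * c / 2) :=
          mul_le_mul_of_nonneg_left (hωe.trans hε2) (inv_nonneg.2 hc0.le)
        have h4 : c⁻¹ * (δ * c / 2) = δ / 2 := by field_simp
        linarith
      · have h1 : γ * ν.real (ball x₁ ρ) = ν.real (Z ∩ ball x₁ ρ) := by
          rw [hγ, div_mul_cancel₀ _ hνpos.ne']
        rw [h1]
        refine measureReal_mono ?_ (lt_of_le_of_lt (measure_mono ?_) hνfin).ne
        · rintro z ⟨hz1, hz2⟩
          refine ⟨hz2, ?_⟩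
          show 1 ≤ ω' (f z)
          rw [hZf z hz1, hω'y₀]
        · intro z hz
          exact hz.1
    rw [hZ]
    refine ⟨hx₁, ?_⟩
    filter_upwards [ball_mem_nhds x₁ (show 0 < ρ / 2 by positivity)] with z hz
    exact hkey z hz
  have hsub : G ⊆ Z := hGc.subset_of_closure_inter_subset hZo ⟨x₀, hx₀, hx₀Z⟩ hcl
  exact fun x hx => hZf x (hsub hx)

end Pool.Agent.Helper80.HMO
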