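import Pool.Agent.Helper533.Polar.Stmt
open MeasureTheory Filter Topology Set
open scoped ENNReal NNReal RealInnerProductSpace

/-!
Definitions for the statement of MP_abd978_an (`𝔄_p`-harmonic morphisms). The basic notions
(`wm w` is the measure `w dx`, test functions, `H^{1,p}_loc`, admissible weights, the structure
conditions `IsOperator`, `𝒜`-harmonic functions) are those of `Polar.Stmt`.
-/

namespace Pool.Agent.Helper80.HMStmt

open Pool.Agent.Helper533.Polar.Stmt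

variable {n : ℕ}

/-- `𝒜 ∈ 𝔄_p`, with the `p`-admissible weight `w` -/
def InClass (p : ℝ) (w : Sp n → ℝ) (𝒜 : Sp n → Sp n → Sp n) : Prop :=
  IsAdmissible p w ∧ ∃ α β : ℝ, IsOperator p α β w 𝒜

/-- `f : Ω → ℝⁿ` is an `(𝒜*, 𝒜)`-harmonic morphism (`wstar`, `𝒜star` on the source side; only the
values of `f` on `Ω` matter): `f` is continuous and `u ∘ f` is `𝒜*`-harmonic in `f⁻¹(Ω')` for every
open `Ω'` and every `𝒜`-harmonic function `u` in `Ω'`. -/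
def IsMorphism (p : ℝ) (wstar w : Sp n → ℝ) (𝒜star 𝒜 : Sp n → Sp n → Sp n) (Ω : Set (Sp n))
    (f : Sp n → Sp n) : Prop :=
  ContinuousOn f Ω ∧ ∀ Ω' : Set (Sp n), IsOpen Ω' → ∀ u : Sp n → ℝ, IsHarmonic 𝒜 p w Ω' u →
    IsHarmonic 𝒜star p wstar (Ω ∩ f ⁻¹' Ω') (u ∘ f)

/-- the variational capacity `cap_{p,μ}({y}, D)`, `dμ = w dx`: the infimum of `∫ |∇φ|^p dμ` over
`φ ∈ C₀^∞(D)` with `φ(y) ≥ 1` -/
noncomputable def capPt (p : ℝ) (w : Sp n → ℝ) (y : Sp n) (D : Set (Sp n)) : ℝ≥0∞ :=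
  ⨅ (φ : Sp n → ℝ) (_ : IsTest D φ) (_ : 1 ≤ φ y), ∫⁻ x, ‖gradient φ x‖ₑ ^ p ∂(wm w)

/-- the point `y` is polar: `cap_{p,μ}({y}, D) = 0` for some bounded open set `D` containing `y` -/
def IsPolarPt (p : ℝ) (w : Sp n → ℝ) (y : Sp n) : Prop :=
  ∃ D : Set (Sp n), IsOpen D ∧ Bornology.IsBounded D ∧ y ∈ D ∧ capPt p w y D = 0

/-- `f` is open at `x₀`: the images of the neighbourhoods of `x₀` are neighbourhoods of `f x₀` -/
def IsOpenAt (Ω : Set (Sp n)) (f : Sp n → Sp n) (x₀ : Sp n) : Prop :=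
  ∀ V ⊆ Ω, IsOpen V → x₀ ∈ V → f '' V ∈ 𝓝 (f x₀)

/-- `f` is constant in a neighbourhood of `x₀` -/
def IsConstNear (f : Sp n → Sp n) (x₀ : Sp n) : Prop := ∀ᶠ x in 𝓝 x₀, f x = f x₀

/-- `f` is an open mapping on `Ω` -/
def IsOpenMap' (Ω : Set (Sp n)) (f : Sp n → Sp n) : Prop :=
  ∀ V ⊆ Ω, IsOpen V → IsOpen (f '' V)

/-- Rado property: no fibre `f⁻¹(y) ⊆ Ω` has interior points -/
def HasRado (Ω : Set (Sp n)) (f : Sp n → Sp n) : Prop :=
  ∀ y, interior (Ω ∩ f ⁻¹' {y}) = ∅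

end Pool.Agent.Helper80.HMStmt
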