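import Pool.Agent.Helper80.HMO.Api
open MeasureTheory Filter Topology Set Metric
open scoped ENNReal NNReal RealInnerProductSpace

namespace Pool.Agent.Helper80.HMO

open Pool.Agent.Helper533

variable {n : ℕ} {p α β Cd θ Cs lam Cp : ℝ} {μ : Measure (Sp n)} {A : Sp n → Sp n → Sp n}

theorem image_open_or_point_aux {X Y : Type*} [TopologicalSpace X] [TopologicalSpace Y] [T2Space Y]
    {G : Set X} {f : X → Y} (hf : ContinuousOn f G)
    (hG : IsOpen G)
    (hdich : ∀ x₀ ∈ G, (∀ V ⊆ G, IsOpen V → x₀ ∈ V → f '' V ∈ 𝓝 (f x₀)) ∨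
      ∀ᶠ x in 𝓝 x₀, f x = f x₀) {D : Set X} (hD : IsOpen D) (hDG : D ⊆ G)
    (hDc : IsPreconnected D) : IsOpen (f '' D) ∨ (f '' D).Subsingleton := by
  by_cases hsub : (f '' D).Subsingleton
  · exact Or.inr hsub
  left
  rw [isOpen_iff_mem_nhds]
  rintro y ⟨x0, hx0, rfl⟩
  rcases hdich x0 (hDG hx0) with h | h
  · exact h D hDG hD hx0
  -- f is constant near x0
  set Z : Set X := {x | ∀ᶠ z in 𝓝 x, f z = f x0} with hZdef
  have hZo : IsOpen Z := isOpen_setOfPred_eventually_nhds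
  have hx0Z : x0 ∈ Z := h
  -- D not contained in Z
  have hnot : ¬ D ⊆ Z := by
    intro hDZ
    apply hsub
    rintro _ ⟨a, ha, rfl⟩ _ ⟨b, hb, rfl⟩
    have h1 : f a = f x0 := (hDZ ha).self_of_nhds
    have h2 : f b = f x0 := (hDZ hb).self_of_nhds
    rw [h1, h2]
  -- there is a point of D in closure Z but not in Z
  have hex : ∃ x1 ∈ D, x1 ∈ closure Z ∧ x1 ∉ Z := by
    by_contra hcon
    push Not at hcon
    apply hnot
    have := hDc.subset_left_of_subset_union hZo (isClosed_closure (s := Z)).isOpen_compl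
      (by
        rw [Set.disjoint_left]
        intro z hz hz'
        exact hz' (subset_closure hz))
      (by
        intro z hz
        by_cases hzc : z ∈ closure Z
        · exact Or.inl (hcon z hz hzc)
        · exact Or.inr hzc)
      ⟨x0, hx0, hx0Z⟩
    exact this
  obtain ⟨x1, hx1D, hx1c, hx1Z⟩ := hex
  have hx1f : f x1 = f x0 := by
    have hcont : ContinuousAt f x1 := hf.continuousAt (hG.mem_nhds (hDG hx1D))
    by_contra hne
    obtain ⟨U, V, hU, hV, h1, h2, hUV⟩ := t2_separation hne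
    have hpre : f ⁻¹' U ∈ 𝓝 x1 := hcont (hU.mem_nhds h1)
    obtain ⟨z, hz1, hz2⟩ := mem_closure_iff_nhds.mp hx1c _ hpre
    have hz3 : ∀ᶠ z' in 𝓝 z, f z' = f x0 := hz2
    have : f z = f x0 := hz3.self_of_nhds
    rw [Set.disjoint_left] at hUV
    apply hUV hz1
    rw [this]; exact h2
  rcases hdich x1 (hDG hx1D) with h' | h'
  · rw [← hx1f]
    exact h' D hDG hD hx1D
  · exfalso
    apply hx1Z
    rw [hx1f] at h'
    exact h'

/-- topological consequence of the local dichotomy -/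
theorem image_open_or_point {G : Set (Sp n)} {f : Sp n → Sp n} (hf : ContinuousOn f G)
    (hG : IsOpen G)
    (hdich : ∀ x₀ ∈ G, (∀ V ⊆ G, IsOpen V → x₀ ∈ V → f '' V ∈ 𝓝 (f x₀)) ∨
      ∀ᶠ x in 𝓝 x₀, f x = f x₀) {D : Set (Sp n)} (hD : IsOpen D) (hDG : D ⊆ G)
    (hDc : IsPreconnected D) : IsOpen (f '' D) ∨ (f '' D).Subsingleton :=
  image_open_or_point_aux hf hG hdich hD hDG hDc

end Pool.Agent.Helper80.HMO
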