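import Pool.Agent.Helper80.HMO.OpenL
import Pool.Agent.Helper80.HMO.Conv
import Pool.Agent.Helper80.HMO.Top
import Pool.Agent.Helper80.HMO.RadoP
import Pool.Agent.Helper80.HMO.Stmt
open MeasureTheory Filter Topology Set Metric
open scoped ENNReal NNReal RealInnerProductSpace

namespace Pool.Agent.Helper80.HMO

open Pool.Agent.Helper533

variable {n : ℕ} {p α β Cd θ Cs lam Cp : ℝ} {μ : Measure (Sp n)} {A : Sp n → Sp n → Sp n}

theorem polarPt_of (hp : 1 < p) {w : Sp n → ℝ} {y : Sp n}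
    (h : HMStmt.IsPolarPt p w y) : ∃ S : ℝ, 1 ≤ S ∧ PolarPt p (Polar.Stmt.wm w) y S := by
  obtain ⟨D, hD, hDb, hyD, hcap⟩ := h
  obtain ⟨S, hS⟩ := hDb.subset_ball y
  refine ⟨max S 1, le_max_right _ _, fun ε hε => ?_⟩
  have h1 : HMStmt.capPt p w y D < ENNReal.ofReal ε := by
    rw [hcap]; exact ENNReal.ofReal_pos.2 hε
  unfold HMStmt.capPt at h1
  simp only [iInf_lt_iff] at h1
  obtain ⟨φ, hφ, hφ1, hφε⟩ := h1
  refine ⟨φ, (Polar.isTest_iff.1 hφ).mono (hS.trans (ball_subset_ball (le_max_left _ _))), hφ1, ?_⟩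
  by_cases hm : AEStronglyMeasurable (fun x => ‖gradient φ x‖ ^ p) (Polar.Stmt.wm w)
  · rw [integral_eq_lintegral_of_nonneg_ae (Eventually.of_forall fun x => by positivity) hm]
    have h2 : ∫⁻ x, ENNReal.ofReal (‖gradient φ x‖ ^ p) ∂(Polar.Stmt.wm w) =
        ∫⁻ x, ‖gradient φ x‖ₑ ^ p ∂(Polar.Stmt.wm w) := by
      refine lintegral_congr fun x => ?_
      rw [← ENNReal.ofReal_rpow_of_nonneg (norm_nonneg _) (by linarith), ofReal_norm]
    rw [h2]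
    exact (ENNReal.toReal_lt_of_lt_ofReal hφε)
  · rw [integral_non_aestronglyMeasurable hm]
    exact hε

theorem dat_of (hp : 1 < p) {w : Sp n → ℝ} {𝒜 : Sp n → Sp n → Sp n}
    (h : HMStmt.InClass p w 𝒜) : ∃ α β Cd θ Cs lam Cp : ℝ,
      Dat n p α β Cd θ Cs lam Cp (Polar.Stmt.wm w) (fun x ξ => (w x)⁻¹ • 𝒜 x ξ) := by
  obtain ⟨hw, α, β, hA⟩ := h
  obtain ⟨Cd, θ, Cs, lam, Cp, hadm⟩ := Polar.adm_of_isAdmissible hp hw
  obtain ⟨_, _, _, _, _, hfin⟩ := Polar.wm_basic hp hw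
  refine ⟨α, β, Cd, θ, Cs, lam, Cp, hp, hA.alpha_pos, hA.alpha_pos.trans_le hA.alpha_le_beta,
    hfin, hadm, Polar.op_of_isOperator hp hw hA, ?_⟩
  filter_upwards [Polar.ae_wm hw hA.monotone, Polar.ae_wm hw hw.pos] with x hx hx' ξ ζ hne
  rw [← smul_sub, real_inner_smul_left]
  exact mul_pos (inv_pos.2 hx') (hx ξ ζ hne)

theorem morph_of (hp : 1 < p) {wstar w : Sp n → ℝ} {𝒜star 𝒜 : Sp n → Sp n → Sp n}
    (hws : Polar.Stmt.IsAdmissible p wstar) (hw : Polar.Stmt.IsAdmissible p w)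
    {Ω : Set (Sp n)} (hΩ : IsOpen Ω) {f : Sp n → Sp n}
    (h : HMStmt.IsMorphism p wstar w 𝒜star 𝒜 Ω f) :
    Morph p (Polar.Stmt.wm wstar) (Polar.Stmt.wm w) (fun x ξ => (wstar x)⁻¹ • 𝒜star x ξ)
      (fun x ξ => (w x)⁻¹ • 𝒜 x ξ) Ω f :=
  ⟨h.1, fun _ hG' _ hu => (isHarmonic_iff hp hws (h.1.isOpen_inter_preimage hΩ hG')).1
    (h.2 _ hG' _ ((isHarmonic_iff hp hw hG').2 hu))⟩

theorem main (hn : 2 ≤ n) (hp : 1 < p) {wstar w : Sp n → ℝ} {𝒜star 𝒜 : Sp n → Sp n → Sp n}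
    (hs : HMStmt.InClass p wstar 𝒜star) (ht : HMStmt.InClass p w 𝒜) {Ω : Set (Sp n)}
    (hΩ : IsOpen Ω) (hΩc : IsPreconnected Ω) {f : Sp n → Sp n}
    (hf : HMStmt.IsMorphism p wstar w 𝒜star 𝒜 Ω f) :
    (∀ x₀ ∈ Ω, HMStmt.IsOpenAt Ω f x₀ ∨ HMStmt.IsConstNear f x₀) ∧
    (∀ D ⊆ Ω, IsOpen D → IsPreconnected D → IsOpen (f '' D) ∨ (f '' D).Subsingleton) ∧
    (HMStmt.IsOpenMap' Ω f ↔ HMStmt.HasRado Ω f) ∧
    (∀ x₀ ∈ Ω, HMStmt.IsPolarPt p w (f x₀) → HMStmt.IsConstNear f x₀ →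
      ∀ x ∈ Ω, f x = f x₀) := by
  obtain ⟨α', β', Cd', θ', Cs', lam', Cp', hds⟩ := dat_of hp hs
  obtain ⟨α, β, Cd, θ, Cs, lam, Cp, hd⟩ := dat_of hp ht
  have hM := morph_of hp hs.1 ht.1 hΩ hf
  have hdich : ∀ x₀ ∈ Ω, HMStmt.IsOpenAt Ω f x₀ ∨ HMStmt.IsConstNear f x₀ := by
    intro x₀ hx₀
    by_contra hcon
    push Not at hcon
    obtain ⟨h1, h2⟩ := hcon
    apply h1
    intro V hVΩ hV hxV
    obtain ⟨r, hr, hrV⟩ := Metric.isOpen_iff.1 hV x₀ hxV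
    by_contra hno
    apply h2
    refine open_local hn hds hd hΩ hM (r := r / 2) (by positivity)
      ((closedBall_subset_ball (by linarith)).trans (hrV.trans hVΩ)) fun hmem => hno ?_
    exact mem_of_superset hmem (image_mono ((closedBall_subset_ball (by linarith)).trans hrV))
  refine ⟨hdich, fun D hDΩ hD hDc => image_open_or_point hf.1 hΩ hdich hD hDΩ hDc, ?_, ?_⟩
  · constructor
    · intro hopen y
      by_contra hne
      obtain ⟨x, hx⟩ := Set.nonempty_iff_ne_empty.2 hne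
      have h1 := hopen (interior (Ω ∩ f ⁻¹' {y})) (interior_subset.trans inter_subset_left)
        isOpen_interior
      have h2 : f '' interior (Ω ∩ f ⁻¹' {y}) = {y} := by
        apply Subset.antisymm
        · rintro _ ⟨z, hz, rfl⟩
          exact (interior_subset hz).2
        · rintro z rfl
          exact ⟨x, hx, (interior_subset hx).2⟩
      rw [h2] at h1
      haveI : Nonempty (Fin n) := ⟨⟨0, by omega⟩⟩
      haveI : Nontrivial (Sp n) := inferInstance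
      exact not_isOpen_singleton y h1
    · intro hR V hVΩ hV
      rw [isOpen_iff_mem_nhds]
      rintro _ ⟨x₀, hx₀, rfl⟩
      rcases hdich x₀ (hVΩ hx₀) with h | h
      · exact h V hVΩ hV hx₀
      · exfalso
        have h1 : x₀ ∈ interior (Ω ∩ f ⁻¹' {f x₀}) := by
          rw [mem_interior_iff_mem_nhds]
          filter_upwards [hΩ.mem_nhds (hVΩ hx₀), h] with x hx hx'
          exact ⟨hx, hx'⟩
        rw [hR (f x₀)] at h1
        exact h1
  · intro x₀ hx₀ hpol hconst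
    obtain ⟨S, hS, hpol'⟩ := polarPt_of hp hpol
    exact rado_polar hn hds hd hΩ hΩc hM hx₀ hS hpol' hconst

end Pool.Agent.Helper80.HMO
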