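import Pool.Agent.Helper80.HMO.Near
open MeasureTheory Filter Topology Set Metric
open scoped ENNReal NNReal RealInnerProductSpace

namespace Pool.Agent.Helper80.HMO

open Pool.Agent.Helper533

variable {n : ℕ} {p α β Cd θ Cs lam Cp : ℝ} {μ : Measure (Sp n)} {A : Sp n → Sp n → Sp n}

theorem gap_ball_eq (y₀ : Sp n) (a b : ℝ) (ha : 0 ≤ a) :
    {z : Sp n | a ≤ dist z y₀ ∧ dist z y₀ ≤ b} =
      (fun q : Sp n × ℝ => y₀ + q.2 • q.1) '' (sphere (0 : Sp n) 1 ×ˢ Icc a b) ∨ a = 0 := by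
  rcases ha.eq_or_lt with h0 | h0
  · exact Or.inr h0.symm
  left
  ext z
  constructor
  · rintro ⟨h1, h2⟩
    have h3 : 0 < dist z y₀ := lt_of_lt_of_le h0 h1
    refine ⟨((dist z y₀)⁻¹ • (z - y₀), dist z y₀), ⟨?_, h1, h2⟩, ?_⟩
    · rw [mem_sphere_zero_iff_norm, norm_smul, norm_inv, Real.norm_eq_abs, abs_of_pos h3,
        dist_eq_norm]
      rw [dist_eq_norm] at h3
      exact inv_mul_cancel₀ h3.ne'
    · show y₀ + dist z y₀ • ((dist z y₀)⁻¹ • (z - y₀)) = z
      rw [smul_smul, mul_inv_cancel₀ h3.ne', one_smul]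
      abel
  · rintro ⟨⟨v, t⟩, ⟨hv, ht1, ht2⟩, rfl⟩
    have hv' : ‖v‖ = 1 := by simpa using hv
    have h4 : dist (y₀ + t • v) y₀ = t := by
      rw [dist_eq_norm, add_sub_cancel_left, norm_smul, hv', mul_one, Real.norm_eq_abs,
        abs_of_nonneg (h0.le.trans ht1)]
    show a ≤ dist (y₀ + t • v) y₀ ∧ dist (y₀ + t • v) y₀ ≤ b
    rw [h4]
    exact ⟨ht1, ht2⟩

theorem gap_annulus (hn : 2 ≤ n) (y₀ : Sp n) (a b : ℝ) (ha : 0 < a) :
    IsCompact {z : Sp n | a ≤ dist z y₀ ∧ dist z y₀ ≤ b} ∧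
    IsPreconnected {z : Sp n | a ≤ dist z y₀ ∧ dist z y₀ ≤ b} := by
  have h := (gap_ball_eq y₀ a b ha.le).resolve_right ha.ne'
  have hcont : Continuous (fun q : Sp n × ℝ => y₀ + q.2 • q.1) := by fun_prop
  rw [h]
  constructor
  · exact ((isCompact_sphere _ _).prod isCompact_Icc).image hcont
  · refine IsPreconnected.image ?_ _ hcont.continuousOn
    refine IsPreconnected.prod ?_ isPreconnected_Icc
    apply isPreconnected_sphere
    rw [← Module.finrank_eq_rank, finrank_euclideanSpace_fin]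
    exact_mod_cast hn

/-- gap estimate: a potential with pole very close to `y₀` is definitely smaller at `e ≠ y₀` than at
`y₀` -/
theorem Pot.gap (hn : 2 ≤ n) (hd : Dat n p α β Cd θ Cs lam Cp μ A) {y₀ e : Sp n} {S : ℝ}
    (hS : 0 < S) (he : e ≠ y₀) (heS : e ∈ ball y₀ S) : ∃ c : ℝ, 0 ≤ c ∧ c < 1 ∧ ∃ ρ : ℝ, 0 < ρ ∧
    ∀ (y₁ : Sp n) (t₁ : ℝ) (ω : Sp n → ℝ), 0 < t₁ → dist y₁ y₀ + 2 * t₁ < ρ →
    Pot A p μ y₀ S y₁ t₁ ω → ω e ≤ c * ω y₀ := by
  haveI := hd.fin
  have hlam : 1 ≤ lam := hd.adm.one_le_lam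
  have hlam0 : 0 < lam := by linarith
  have hCd : 1 ≤ Cd := hd.adm.one_le_Cd
  have hCd0 : 0 < Cd := by linarith
  have hD0 : 0 < dist e y₀ := dist_pos.2 he
  have hDS : dist e y₀ < S := heS
  obtain ⟨τ₀, hτ₀⟩ : ∃ τ₀ : ℝ, τ₀ = dist e y₀ / 4 := ⟨_, rfl⟩
  have hτpos : 0 < τ₀ := by rw [hτ₀]; linarith
  obtain ⟨r, hr⟩ : ∃ r : ℝ, r = S / (8 * lam) := ⟨_, rfl⟩
  have hr0 : 0 < r := by rw [hr]; positivity
  have hr8 : 8 * lam * r = S := by rw [hr]; field_simp
  have hrS : r ≤ S / 8 := by nlinarith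
  -- a unit vector
  obtain ⟨ν, hν⟩ : ∃ ν : Sp n, ‖ν‖ = 1 := by
    haveI : Nontrivial (Sp n) := ⟨e, y₀, he⟩
    exact exists_norm_eq (Sp n) zero_le_one
  have hγ : 0 < (Cd ^ 2)⁻¹ := by positivity
  obtain ⟨δ, hδ0, hδ1, hδ⟩ := dg2_ptw (n := n) (Cd := Cd) (θ := θ) (Cs := Cs) (lam := lam)
    (Cp := Cp) hd.hp hd.hα hd.hβ hγ
  -- the annulus
  obtain ⟨S', hS'⟩ : ∃ S' : ℝ, S' = max (dist e y₀) (S - r / 4) := ⟨_, rfl⟩
  have hS'S : S' < S := by rw [hS']; exact max_lt hDS (by linarith)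
  have hK := gap_annulus hn y₀ (2 * τ₀) S' (by linarith)
  have hDopen : IsOpen (ball y₀ S \ closedBall y₀ τ₀) := isOpen_ball.sdiff isClosed_closedBall
  have hKD : {z : Sp n | 2 * τ₀ ≤ dist z y₀ ∧ dist z y₀ ≤ S'} ⊆ ball y₀ S \ closedBall y₀ τ₀ := by
    rintro z ⟨h1, h2⟩
    refine ⟨lt_of_le_of_lt h2 hS'S, fun h => ?_⟩
    rw [mem_closedBall] at h
    linarith
  obtain ⟨C, hC1, hC⟩ := harnack_conn hd hDopen hK.1 hK.2 hKD
  have hC0 : 0 < C := by linarith
  obtain ⟨x, hx⟩ : ∃ x : ℝ, x = δ / C := ⟨_, rfl⟩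
  have hx0 : 0 < x := by rw [hx]; positivity
  have hx1 : x < 1 := by
    rw [hx, div_lt_one hC0]; linarith
  obtain ⟨ρ, hρ0, hρ⟩ := Pot.near_max hn hd y₀ hS (ε := x / 2) (τ := τ₀) (by linarith) hτpos
  refine ⟨(1 + x / 2) * (1 - x), by nlinarith, by nlinarith, min ρ τ₀, lt_min hρ0 hτpos, ?_⟩
  intro y₁ t₁ ω ht₁ hdist hpot
  have hmax := hρ y₁ t₁ ω ht₁ (lt_of_lt_of_le hdist (min_le_left _ _)) hpot
  have hin : closedBall y₁ (2 * t₁) ⊆ ball y₀ τ₀ := by
    intro z hz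
    rw [mem_closedBall] at hz
    rw [mem_ball]
    have h1 := dist_triangle z y₁ y₀
    have h2 := lt_of_lt_of_le hdist (min_le_right ρ τ₀)
    linarith
  obtain ⟨M, hM⟩ : ∃ M : ℝ, M = (1 + x / 2) * ω y₀ := ⟨_, rfl⟩
  have hω0 : 0 < ω y₀ := hpot.pos y₀ (mem_ball_self hS)
  have hM0 : 0 < M := by rw [hM]; positivity
  have hq0 : ∀ z, z ∉ ball y₀ τ₀ → 0 ≤ M - ω z := by
    intro z hz
    have := hmax z hz
    rw [hM]; linarith
  -- the boundary point
  let yb : Sp n := y₀ + S • ν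
  have hyb : dist yb y₀ = S := by
    rw [dist_eq_norm, add_sub_cancel_left, norm_smul, hν, mul_one, Real.norm_eq_abs, abs_of_pos hS]
  have hGb : ∀ z ∈ ball yb (2 * lam * r), τ₀ < dist z y₀ := by
    intro z hz
    rw [mem_ball] at hz
    have h1 := dist_triangle yb z y₀
    rw [dist_comm yb z, hyb] at h1
    have h2 : 2 * lam * r = S / 4 := by linarith
    rw [h2] at hz
    linarith
  obtain ⟨W, hW⟩ := hpot.sub
  have hsup : Polar.Sup A p μ ((closedBall y₁ (2 * t₁))ᶜ) (fun z => M - ω z) (fun z => - W z) :=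
    Polar.Sub.const_sub hd.hp hd.op hW M
  have hsup' : Polar.Sup A p μ (ball yb (2 * lam * r)) (fun z => M - ω z) (fun z => - W z) := by
    refine Polar.Sup.mono_set hd.hp hsup isOpen_ball ?_
    intro z hz hz2
    have h1 := hGb z hz
    have h2 := hin hz2
    rw [mem_ball] at h2
    linarith
  -- the exterior ball
  let zc : Sp n := y₀ + (S + r / 2) • ν
  have hzc : dist zc yb = r / 2 := by
    have : zc - yb = (r / 2) • ν := by
      show y₀ + (S + r / 2) • ν - (y₀ + S • ν) = (r / 2) • ν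
      rw [add_smul]; abel
    rw [dist_eq_norm, this, norm_smul, hν, mul_one, Real.norm_eq_abs, abs_of_pos (by linarith)]
  have hzc0 : dist zc y₀ = S + r / 2 := by
    rw [dist_eq_norm, add_sub_cancel_left, norm_smul, hν, mul_one, Real.norm_eq_abs,
      abs_of_pos (by linarith)]
  have hsubset : ball zc (r / 2) ⊆ {y | y ∈ ball yb r ∧ M ≤ M - ω y} := by
    intro z hz
    rw [mem_ball] at hz
    refine ⟨?_, ?_⟩
    · rw [mem_ball]
      have := dist_triangle z zc yb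
      linarith
    · have h1 : ω z = 0 := by
        apply hpot.zero
        rw [mem_ball, not_lt]
        have := dist_triangle zc z y₀
        rw [dist_comm zc z] at this
        linarith
      rw [h1, sub_zero]
  have hmeas : (Cd ^ 2)⁻¹ * μ.real (ball yb r) ≤ μ.real {y | y ∈ ball yb r ∧ M ≤ M - ω y} := by
    have h1 : μ.real (ball yb r) ≤ μ.real (ball zc (2 * (2 * (r / 2)))) := by
      refine measureReal_mono ?_ (hd.adm.fin _ _).ne
      intro z hz
      rw [mem_ball] at hz ⊢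
      have := dist_triangle z yb zc
      rw [dist_comm yb zc] at this
      linarith
    have h2 := hd.adm.dbl zc (2 * (r / 2)) (by linarith)
    have h3 := hd.adm.dbl zc (r / 2) (by linarith)
    have h4 : μ.real (ball zc (r / 2)) ≤ μ.real {y | y ∈ ball yb r ∧ M ≤ M - ω y} := by
      refine measureReal_mono hsubset ?_
      exact (lt_of_le_of_lt (measure_mono (fun y hy => hy.1)) (hd.adm.fin yb r)).ne
    have h5 : μ.real (ball yb r) ≤ Cd ^ 2 * μ.real (ball zc (r / 2)) := by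
      calc μ.real (ball yb r) ≤ μ.real (ball zc (2 * (2 * (r / 2)))) := h1
        _ ≤ Cd * μ.real (ball zc (2 * (r / 2))) := h2
        _ ≤ Cd * (Cd * μ.real (ball zc (r / 2))) := by gcongr
        _ = Cd ^ 2 * μ.real (ball zc (r / 2)) := by ring
    have h6 : (Cd ^ 2)⁻¹ * μ.real (ball yb r) ≤ μ.real (ball zc (r / 2)) := by
      rw [inv_mul_le_iff₀ (by positivity)]
      exact h5
    exact h6.trans h4
  have hres := hδ μ A hd (ball yb (2 * lam * r)) isOpen_ball (fun z => M - ω z) (fun z => - W z)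
    hsup' (continuous_const.sub hpot.cont).continuousOn
    (fun z hz => hq0 z (fun h => by
      have h1 := hGb z hz
      rw [mem_ball] at h
      linarith)) yb r hr0 (subset_refl _) M hM0 hmeas
  -- the inner point
  let zb : Sp n := y₀ + (S - r / 4) • ν
  have hzb0 : dist zb y₀ = S - r / 4 := by
    rw [dist_eq_norm, add_sub_cancel_left, norm_smul, hν, mul_one, Real.norm_eq_abs,
      abs_of_pos (by linarith)]
  have hzb : dist zb yb = r / 4 := by
    have : zb - yb = -((r / 4) • ν) := by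
      show y₀ + (S - r / 4) • ν - (y₀ + S • ν) = -((r / 4) • ν)
      rw [sub_smul]; abel
    rw [dist_eq_norm, this, norm_neg, norm_smul, hν, mul_one, Real.norm_eq_abs,
      abs_of_pos (by linarith)]
  have hzbq : δ * M ≤ M - ω zb := hres zb (by rw [mem_ball, hzb]; linarith)
  have hharm : Harm A p μ (ball y₀ S \ closedBall y₀ τ₀) (fun z => M - ω z) := by
    refine Harm.mono hd (Harm.const_sub hd hpot.harm M) hDopen ?_
    rintro z ⟨h1, h2⟩
    exact ⟨h1, fun h3 => h2 (ball_subset_closedBall (hin h3))⟩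
  have hfin := hC (fun z => M - ω z) hharm (fun z hz => hq0 z (fun h => hz.2
    (ball_subset_closedBall h))) zb (by
      refine ⟨?_, ?_⟩
      · rw [hzb0, hτ₀]; linarith
      · rw [hzb0, hS']; exact le_max_right _ _) e (by
      refine ⟨?_, ?_⟩
      · rw [hτ₀]; linarith
      · rw [hS']; exact le_max_left _ _)
  have h1 : δ * M ≤ C * (M - ω e) := hzbq.trans hfin
  have h2 : x * M ≤ M - ω e := by
    rw [hx, div_mul_eq_mul_div, div_le_iff₀ hC0]
    linarith
  have h3 : (1 + x / 2) * (1 - x) * ω y₀ = M - x * M := by rw [hM]; ring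
  rw [h3]
  linarith

end Pool.Agent.Helper80.HMO
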