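import Pool.Agent.Helper80.HMO.Harnack
import Pool.Agent.Helper80.HMO.Chain
open MeasureTheory Filter Topology Set Metric
open scoped ENNReal NNReal RealInnerProductSpace

namespace Pool.Agent.Helper80.HMO

open Pool.Agent.Helper533

variable {n : ℕ} {p α β Cd θ Cs lam Cp : ℝ} {μ : Measure (Sp n)} {A : Sp n → Sp n → Sp n}

/-- Harnack's inequality on compact connected sets -/
theorem harnack_conn (hd : Dat n p α β Cd θ Cs lam Cp μ A) {G K : Set (Sp n)} (hG : IsOpen G)
    (hK : IsCompact K) (hKc : IsPreconnected K) (hKG : K ⊆ G) : ∃ C : ℝ, 1 ≤ C ∧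
    ∀ u : Sp n → ℝ, Harm A p μ G u → (∀ y ∈ G, 0 ≤ u y) → ∀ a ∈ K, ∀ b ∈ K, u a ≤ C * u b := by
  obtain ⟨C, Λ, hC, hΛ, hH⟩ := harnack (n := n) (p := p) (α := α) (β := β) (Cd := Cd) (θ := θ)
    (Cs := Cs) (lam := lam) (Cp := Cp) hd.hp hd.hα hd.hβ
  obtain ⟨δ, hδ, hδG⟩ := hK.exists_thickening_subset_open hG hKG
  have hΛ0 : 0 < Λ := by linarith
  have hr : 0 < δ / Λ := by positivity
  obtain ⟨N, hN⟩ := chain_of_preconnected hK hKc hr
  have hC0 : 0 ≤ C := by linarith
  refine ⟨C ^ N, one_le_pow₀ hC, ?_⟩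
  intro u hu hpos a ha b hb
  obtain ⟨c, hc0, hcN, hcK, hcd⟩ := hN a ha b hb
  have hstep : ∀ i, u (c i) ≤ C * u (c (i + 1)) := by
    intro i
    refine hH μ A hd G hG u hu hpos (c i) (δ / Λ) hr ?_ (c i) ?_ (c (i + 1)) ?_
    · rw [mul_div_cancel₀ δ hΛ0.ne']
      exact (ball_subset_thickening (hcK i) δ).trans hδG
    · exact mem_closedBall_self hr.le
    · rw [mem_closedBall, dist_comm]
      exact hcd i
  have hall : ∀ i, u (c 0) ≤ C ^ i * u (c i) := by
    intro i
    induction i with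
    | zero => simp
    | succ i ih =>
      calc u (c 0) ≤ C ^ i * u (c i) := ih
        _ ≤ C ^ i * (C * u (c (i + 1))) :=
            mul_le_mul_of_nonneg_left (hstep i) (pow_nonneg hC0 i)
        _ = C ^ (i + 1) * u (c (i + 1)) := by ring
  have := hall N
  rwa [hc0, hcN] at this

/-- Harnack's inequality on spheres (scale invariant) -/
theorem harnack_sphere (hn : 2 ≤ n) (hd : Dat n p α β Cd θ Cs lam Cp μ A) :
    ∃ C : ℝ, 1 ≤ C ∧ ∀ (y₀ : Sp n) (t : ℝ), 0 < t → ∀ G : Set (Sp n), IsOpen G →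
    (∀ z, t / 2 ≤ dist z y₀ → dist z y₀ ≤ 2 * t → z ∈ G) →
    ∀ u : Sp n → ℝ, Harm A p μ G u → (∀ y ∈ G, 0 ≤ u y) →
    ∀ a ∈ sphere y₀ t, ∀ b ∈ sphere y₀ t, u a ≤ C * u b := by
  obtain ⟨C, Λ, hC, hΛ, hH⟩ := harnack (n := n) (p := p) (α := α) (β := β) (Cd := Cd) (θ := θ)
    (Cs := Cs) (lam := lam) (Cp := Cp) hd.hp hd.hα hd.hβ
  have hΛ0 : 0 < Λ := by linarith
  have hrank : 1 < Module.rank ℝ (Sp n) := by
    rw [← Module.finrank_eq_rank, finrank_euclideanSpace, Fintype.card_fin]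
    exact_mod_cast hn
  have hε : 0 < 1 / (2 * Λ) := by positivity
  obtain ⟨N, hN⟩ := chain_of_preconnected (isCompact_sphere (0 : Sp n) 1)
    (isPreconnected_sphere hrank 0 1) hε
  have hC0 : 0 ≤ C := by linarith
  refine ⟨C ^ N, one_le_pow₀ hC, ?_⟩
  intro y₀ t ht G hG hGt u hu hpos a ha b hb
  have hmap : ∀ a ∈ sphere y₀ t, t⁻¹ • (a - y₀) ∈ sphere (0 : Sp n) 1 := by
    intro a ha
    rw [mem_sphere, dist_eq_norm] at ha
    rw [mem_sphere, dist_zero_right, norm_smul, norm_inv, Real.norm_of_nonneg ht.le, ha,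
      inv_mul_cancel₀ ht.ne']
  have hback : ∀ a : Sp n, y₀ + t • (t⁻¹ • (a - y₀)) = a := by
    intro a
    rw [smul_smul, mul_inv_cancel₀ ht.ne', one_smul]
    abel
  obtain ⟨c', hc0, hcN, hcK, hcd⟩ := hN _ (hmap a ha) _ (hmap b hb)
  set c : ℕ → Sp n := fun i => y₀ + t • c' i with hc
  have hcS : ∀ i, dist (c i) y₀ = t := by
    intro i
    have h1 := hcK i
    rw [mem_sphere, dist_zero_right] at h1
    rw [hc, dist_eq_norm]
    simp only [add_sub_cancel_left]
    rw [norm_smul, Real.norm_of_nonneg ht.le, h1, mul_one]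
  have hr : 0 < t / (2 * Λ) := by positivity
  have hstep : ∀ i, u (c i) ≤ C * u (c (i + 1)) := by
    intro i
    refine hH μ A hd G hG u hu hpos (c i) (t / (2 * Λ)) hr ?_ (c i) ?_ (c (i + 1)) ?_
    · have e : Λ * (t / (2 * Λ)) = t / 2 := by
        field_simp
      rw [e]
      intro z hz
      rw [mem_ball] at hz
      have h1 := hcS i
      have h2 : dist (c i) y₀ ≤ dist (c i) z + dist z y₀ := dist_triangle _ _ _
      have h3 : dist z y₀ ≤ dist z (c i) + dist (c i) y₀ := dist_triangle _ _ _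
      rw [dist_comm (c i) z] at h2
      exact hGt z (by linarith) (by linarith)
    · exact mem_closedBall_self hr.le
    · rw [mem_closedBall, dist_comm]
      have h1 := hcd i
      have h2 : dist (c i) (c (i + 1)) = t * dist (c' i) (c' (i + 1)) := by
        rw [hc]
        simp only [dist_add_left]
        rw [dist_smul₀, Real.norm_of_nonneg ht.le]
      rw [h2]
      calc t * dist (c' i) (c' (i + 1)) ≤ t * (1 / (2 * Λ)) :=
            mul_le_mul_of_nonneg_left h1 ht.le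
        _ = t / (2 * Λ) := by ring
  have hall : ∀ i, u (c 0) ≤ C ^ i * u (c i) := by
    intro i
    induction i with
    | zero => simp
    | succ i ih =>
      calc u (c 0) ≤ C ^ i * u (c i) := ih
        _ ≤ C ^ i * (C * u (c (i + 1))) :=
            mul_le_mul_of_nonneg_left (hstep i) (pow_nonneg hC0 i)
        _ = C ^ (i + 1) * u (c (i + 1)) := by ring
  have h0 := hall N
  have e0 : c 0 = a := by
    rw [hc]
    simp only
    rw [hc0, hback]
  have eN : c N = b := by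
    rw [hc]
    simp only
    rw [hcN, hback]
  rwa [e0, eN] at h0

end Pool.Agent.Helper80.HMO
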