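import Pool.Agent.Helper80.HMO.DGc
import Pool.Agent.Helper80.HMO.DG2
open MeasureTheory Filter Topology Set Metric
open scoped ENNReal NNReal RealInnerProductSpace

namespace Pool.Agent.Helper80.HMO

open Pool.Agent.Helper533

variable {n : ℕ} {p α β Cd θ Cs lam Cp : ℝ} {μ : Measure (Sp n)} {A : Sp n → Sp n → Sp n}

/-- one-centre version of Harnack's inequality -/
theorem harnack_one833 (hp : 1 < p) (hα : 0 < α) (hβ : 0 < β) :
    ∃ C : ℝ, 1 ≤ C ∧ ∀ (μ : Measure (Sp n)) (A : Sp n → Sp n → Sp n),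
    Dat n p α β Cd θ Cs lam Cp μ A → ∀ G : Set (Sp n), IsOpen G →
    ∀ u : Sp n → ℝ, Harm A p μ G u → (∀ y ∈ G, 0 ≤ u y) →
    ∀ (x0 : Sp n) (R : ℝ), 0 < R → ball x0 (64 * lam * R) ⊆ G →
    ∀ y ∈ closedBall x0 R, u x0 ≤ C * u y := by
  obtain ⟨d1, hd1, hd1', hexp⟩ := expand (n := n) (Cd := Cd) (θ := θ) (Cs := Cs) (lam := lam)
    (Cp := Cp) hp hα hβ
  obtain ⟨γ, hγ, hdg⟩ := dg_center (n := n) (Cd := Cd) (θ := θ) (Cs := Cs) (lam := lam)
    (Cp := Cp) hp hα hβ
  obtain ⟨b, hb1, hb⟩ : ∃ b : ℕ, 1 ≤ b ∧ 1 ≤ (2 : ℝ) ^ b * d1 := by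
    obtain ⟨b, hb⟩ := pow_unbounded_of_one_lt (1 / d1) (one_lt_two (α := ℝ))
    refine ⟨b + 1, by omega, ?_⟩
    rw [div_lt_iff₀ hd1] at hb
    rw [pow_succ]
    nlinarith
  have h2b : (2 : ℝ) ≤ 2 ^ b := by
    calc (2 : ℝ) = 2 ^ 1 := by norm_num
      _ ≤ 2 ^ b := pow_le_pow_right₀ (by norm_num) hb1
  obtain ⟨j, hj⟩ : ∃ j : ℕ, (2 : ℝ) ^ b - 1 < (1 - (1 / 2) ^ j) * (2 ^ b - 1 / 2) := by
    obtain ⟨j, hj⟩ := exists_pow_lt_of_lt_one (show (0 : ℝ) < 1 / (2 * 2 ^ b) by positivity)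
      (by norm_num : (1 / 2 : ℝ) < 1)
    refine ⟨j, ?_⟩
    rw [lt_div_iff₀ (by positivity)] at hj
    have h1 : (0 : ℝ) < (1 / 2) ^ j := by positivity
    nlinarith
  obtain ⟨δ, hδ, hδ', hdg2⟩ := dg2_ptw (n := n) (Cd := Cd) (θ := θ) (Cs := Cs) (lam := lam)
    (Cp := Cp) hp hα hβ (hγ j)
  refine ⟨2 * 16 ^ b / δ, ?_, ?_⟩
  · rw [le_div_iff₀ hδ]
    have : (1 : ℝ) ≤ 16 ^ b := one_le_pow₀ (by norm_num)
    linarith
  intro μ A hd G hG u hu hu0 x0 R hR hball y hy
  haveI := hd.fin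
  have hlam : 1 ≤ lam := hd.adm.one_le_lam
  have hlamR : R ≤ lam * R := by nlinarith
  obtain ⟨U, hU⟩ := Harm.sup hu
  have hcont := hu.1
  have hsub : closedBall x0 R ⊆ G := by
    refine Subset.trans ?_ hball
    exact closedBall_subset_ball (by nlinarith)
  have hyG : y ∈ G := hsub hy
  have hx0G : x0 ∈ G := hsub (mem_closedBall_self hR.le)
  have hC0 : 0 ≤ 2 * 16 ^ b / δ := by positivity
  rcases (hu0 x0 hx0G).eq_or_lt with h0 | hpos
  · rw [← h0]
    exact mul_nonneg hC0 (hu0 y hyG)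
  -- maximise
  have hgc : ContinuousOn (fun z => (R - dist z x0) ^ b * u z) (closedBall x0 R) := by
    apply ContinuousOn.mul
    · exact (Continuous.pow (continuous_const.sub (continuous_id.dist continuous_const)) b).continuousOn
    · exact hcont.mono hsub
  obtain ⟨xb, hxb, hmax⟩ := (isCompact_closedBall x0 R).exists_isMaxOn
    ⟨x0, mem_closedBall_self hR.le⟩ hgc
  have hmax' : ∀ z ∈ closedBall x0 R, (R - dist z x0) ^ b * u z ≤ (R - dist xb x0) ^ b * u xb :=
    fun z hz => hmax hz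
  have hg0 : R ^ b * u x0 ≤ (R - dist xb x0) ^ b * u xb := by
    have := hmax' x0 (mem_closedBall_self hR.le)
    rwa [dist_self, sub_zero] at this
  have hgpos : 0 < R ^ b * u x0 := by positivity
  have hxbG : xb ∈ G := hsub hxb
  have hdxb : dist xb x0 ≤ R := mem_closedBall.1 hxb
  obtain ⟨d, hd'⟩ : ∃ d, d = R - dist xb x0 := ⟨_, rfl⟩
  obtain ⟨N, hN'⟩ : ∃ N, N = u xb := ⟨_, rfl⟩
  rw [← hd', ← hN'] at hg0
  have hdpos : 0 < d := by
    rcases (show 0 ≤ d by rw [hd']; linarith).eq_or_lt with h | h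
    · exfalso
      rw [← h, zero_pow (by omega), zero_mul] at hg0
      linarith
    · exact h
  have hdR : d ≤ R := by rw [hd']; linarith [dist_nonneg (x := xb) (y := x0)]
  have hNpos : 0 < N := by
    by_contra hcon
    push Not at hcon
    have : d ^ b * N ≤ 0 := mul_nonpos_of_nonneg_of_nonpos (by positivity) hcon
    linarith
  -- bound on the small ball
  have hsmall : ∀ z ∈ ball xb (d / 2), z ∈ closedBall x0 R ∧ u z ≤ 2 ^ b * N := by
    intro z hz
    have h1 := mem_ball.1 hz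
    have h2 := dist_triangle z xb x0
    have h3 : d / 2 ≤ R - dist z x0 := by
      rw [hd'] at h1 ⊢
      linarith
    have h4 : z ∈ closedBall x0 R := mem_closedBall.2 (by linarith)
    refine ⟨h4, ?_⟩
    have h5 := hmax' z h4
    rw [← hd', ← hN'] at h5
    have h6 : (d / 2) ^ b ≤ (R - dist z x0) ^ b := pow_le_pow_left₀ (by positivity) h3 b
    have h7 : (d / 2) ^ b * u z ≤ (d / 2) ^ b * (2 ^ b * N) := by
      calc (d / 2) ^ b * u z ≤ (R - dist z x0) ^ b * u z :=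
            mul_le_mul_of_nonneg_right h6 (hu0 z (hsub h4))
        _ ≤ d ^ b * N := h5
        _ = (d / 2) ^ b * (2 ^ b * N) := by
            rw [← mul_assoc, ← mul_pow]
            congr 2
            ring
    exact le_of_mul_le_mul_left h7 (by positivity)
  have hsmallG : ball xb (d / 2) ⊆ G := fun z hz => hsub (hsmall z hz).1
  -- De Giorgi at the centre for `2 ^ b * N - u`
  have hs1 : Harm A p μ (ball xb (d / 2)) (fun z => 2 ^ b * N - u z) :=
    Harm.const_sub hd (Harm.mono hd hu isOpen_ball hsmallG) _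
  obtain ⟨S, hS⟩ := Harm.sup hs1
  have hmeas : γ j * μ.real (ball xb (d / 2)) ≤
      μ.real {z | z ∈ ball xb (d / 2) ∧ N / 2 ≤ u z} := by
    by_contra hcon
    push Not at hcon
    have h1 : μ.real {z | z ∈ ball xb (d / 2) ∧ 2 ^ b * N - u z < (2 ^ b - 1 / 2) * N}
        ≤ γ j * μ.real (ball xb (d / 2)) := by
      refine le_trans ?_ hcon.le
      apply measureReal_mono
      · intro z hz
        refine ⟨hz.1, ?_⟩
        have := hz.2
        linarith
      · have hfin : μ {z | z ∈ ball xb (d / 2) ∧ N / 2 ≤ u z} < ∞ :=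
          lt_of_le_of_lt (measure_mono (fun z hz => hz.1)) (hd.adm.fin xb (d / 2))
        exact hfin.ne
    have h2 := hdg μ A hd j xb (d / 2) (by positivity) _ S hS hs1.1
      (fun z hz => by have := (hsmall z hz).2; linarith) ((2 ^ b - 1 / 2) * N)
      (by apply mul_pos _ hNpos; linarith) h1
    rw [← hN'] at h2
    have h3 : (2 ^ b - 1) * N < (1 - (1 / 2) ^ j) * (2 ^ b - 1 / 2) * N :=
      mul_lt_mul_of_pos_right hj hNpos
    nlinarith
  have hball2 : ∀ ρ : ℝ, ρ ≤ 16 * lam * R → ball xb ρ ⊆ G := by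
    intro ρ hρ
    refine Subset.trans ?_ hball
    intro z hz
    have h1 := mem_ball.1 hz
    have h2 := dist_triangle z xb x0
    rw [mem_ball]
    nlinarith
  have hstart : ∀ z ∈ ball xb (d / 4), δ * (N / 2) ≤ u z := by
    have h1 := hdg2 μ A hd G hG u U hU hcont hu0 xb (d / 2) (by positivity)
      (hball2 _ (by nlinarith)) (N / 2) (by positivity) hmeas
    intro z hz
    apply h1 z
    have : d / 2 / 2 = d / 4 := by ring
    rw [this]
    exact hz
  -- expansion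
  have hiter : ∀ m : ℕ, (∀ i < m, d / 4 * 2 ^ i < 2 * R) →
      ∀ z ∈ ball xb (d / 4 * 2 ^ m), d1 ^ m * (δ * (N / 2)) ≤ u z := by
    intro m
    induction m with
    | zero =>
      intro _ z hz
      rw [pow_zero, mul_one] at hz
      rw [pow_zero, one_mul]
      exact hstart z hz
    | succ m ih =>
      intro hm z hz
      have h1 := ih (fun i hi => hm i (by omega))
      have h2 := hexp μ A hd G hG u U hU hcont hu0 xb (d / 4 * 2 ^ m) (by positivity)
        (hball2 _ (by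
          have := hm m (by omega)
          nlinarith)) (d1 ^ m * (δ * (N / 2))) (by positivity) h1 z
        (by
          have : 2 * (d / 4 * 2 ^ m) = d / 4 * 2 ^ (m + 1) := by ring
          rw [this]
          exact hz)
      calc d1 ^ (m + 1) * (δ * (N / 2)) = d1 * (d1 ^ m * (δ * (N / 2))) := by ring
        _ ≤ u z := h2
  -- first m with radius ≥ 2 R
  have hexm : ∃ m : ℕ, 2 * R ≤ d / 4 * 2 ^ m := by
    obtain ⟨m, hm⟩ := pow_unbounded_of_one_lt (2 * R / (d / 4)) (one_lt_two (α := ℝ))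
    refine ⟨m, ?_⟩
    rw [div_lt_iff₀ (by positivity)] at hm
    linarith
  classical
  obtain ⟨m, hm1, hm2⟩ : ∃ m : ℕ, 2 * R ≤ d / 4 * 2 ^ m ∧ ∀ i < m, d / 4 * 2 ^ i < 2 * R :=
    ⟨Nat.find hexm, Nat.find_spec hexm, fun i hi => not_le.1 (Nat.find_min hexm hi)⟩
  have hm0 : m ≠ 0 := by
    rintro rfl
    rw [pow_zero] at hm1
    linarith
  obtain ⟨m', rfl⟩ := Nat.exists_eq_succ_of_ne_zero hm0
  have hlast : d * 2 ^ (m' + 1) ≤ 16 * R := by
    have := hm2 m' (by omega)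
    rw [pow_succ]
    linarith
  have huy : d1 ^ (m' + 1) * (δ * (N / 2)) ≤ u y := by
    apply hiter (m' + 1) hm2 y
    rw [mem_ball]
    have h1 := dist_triangle_right y xb x0
    have h2 := mem_closedBall.1 hy
    have h3 : dist xb x0 = R - d := by rw [hd']; ring
    have hm1' : 2 * R ≤ d / 4 * 2 ^ (m' + 1) := hm1
    refine lt_of_lt_of_le ?_ hm1'
    linarith
  -- arithmetic
  have e1 : d ^ b ≤ d1 ^ (m' + 1) * (16 * R) ^ b := by
    have h1 : (1 : ℝ) ≤ (2 ^ b * d1) ^ (m' + 1) := one_le_pow₀ hb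
    calc d ^ b = d ^ b * 1 := by ring
      _ ≤ d ^ b * (2 ^ b * d1) ^ (m' + 1) := mul_le_mul_of_nonneg_left h1 (by positivity)
      _ = d1 ^ (m' + 1) * (d * 2 ^ (m' + 1)) ^ b := by
          rw [mul_pow, mul_pow, ← pow_mul, ← pow_mul, mul_comm b (m' + 1)]
          ring
      _ ≤ d1 ^ (m' + 1) * (16 * R) ^ b := by
          apply mul_le_mul_of_nonneg_left _ (by positivity)
          exact pow_le_pow_left₀ (by positivity) hlast b
  have e2 : R ^ b * (δ / 2 * u x0) ≤ R ^ b * (16 ^ b * u y) := by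
    calc R ^ b * (δ / 2 * u x0) = δ / 2 * (R ^ b * u x0) := by ring
      _ ≤ δ / 2 * (d ^ b * N) := mul_le_mul_of_nonneg_left hg0 (by positivity)
      _ = d ^ b * (δ * (N / 2)) := by ring
      _ ≤ (d1 ^ (m' + 1) * (16 * R) ^ b) * (δ * (N / 2)) :=
          mul_le_mul_of_nonneg_right e1 (by positivity)
      _ = (16 * R) ^ b * (d1 ^ (m' + 1) * (δ * (N / 2))) := by ring
      _ ≤ (16 * R) ^ b * u y := mul_le_mul_of_nonneg_left huy (by positivity)
      _ = R ^ b * (16 ^ b * u y) := by rw [mul_pow]; ring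
  have e3 : δ / 2 * u x0 ≤ 16 ^ b * u y := le_of_mul_le_mul_left e2 (by positivity)
  rw [div_mul_eq_mul_div, le_div_iff₀ hδ]
  linarith

/-- Harnack's inequality -/
theorem harnack (hp : 1 < p) (hα : 0 < α) (hβ : 0 < β) :
    ∃ C Λ : ℝ, 1 ≤ C ∧ 1 ≤ Λ ∧ ∀ (μ : Measure (Sp n)) (A : Sp n → Sp n → Sp n),
    Dat n p α β Cd θ Cs lam Cp μ A → ∀ G : Set (Sp n), IsOpen G →
    ∀ u : Sp n → ℝ, Harm A p μ G u → (∀ y ∈ G, 0 ≤ u y) →
    ∀ (x : Sp n) (r : ℝ), 0 < r → ball x (Λ * r) ⊆ G →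
    ∀ y ∈ closedBall x r, ∀ z ∈ closedBall x r, u y ≤ C * u z := by
  obtain ⟨C, hC, h⟩ := harnack_one833 (n := n) (Cd := Cd) (θ := θ) (Cs := Cs) (lam := lam)
    (Cp := Cp) hp hα hβ
  refine ⟨C, 129 * max lam 1, hC, ?_, ?_⟩
  · have := le_max_right lam 1
    linarith
  · intro μ A hd G hG u hu hu0 x r hr hball y hy z hz
    have hlam : 1 ≤ lam := hd.adm.one_le_lam
    have h1 := mem_closedBall.1 hy
    have h2 := mem_closedBall.1 hz
    apply h μ A hd G hG u hu hu0 y (2 * r) (by positivity) _ z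
    · rw [mem_closedBall]
      have := dist_triangle_right z y x
      linarith
    · refine Subset.trans ?_ hball
      intro w hw
      rw [mem_ball] at hw ⊢
      have h3 := dist_triangle w y x
      rw [max_eq_left hlam]
      nlinarith

end Pool.Agent.Helper80.HMO
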