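import Pool.Agent.Helper80.HMO.Api
open MeasureTheory Filter Topology Set Metric
open scoped ENNReal NNReal RealInnerProductSpace

namespace Pool.Agent.Helper80.HMO

open Pool.Agent.Helper533

variable {n : ℕ} {p α β Cd θ Cs lam Cp : ℝ} {μ : Measure (Sp n)} {A : Sp n → Sp n → Sp n}

/-- maximum principle outside a ball containing the pole -/
theorem Pot.le_out (hn : 1 ≤ n) (hd : Dat n p α β Cd θ Cs lam Cp μ A) {y₀ y₁ : Sp n} {S t₁ : ℝ}
    {ω : Sp n → ℝ} (h : Pot A p μ y₀ S y₁ t₁ ω) {t M : ℝ} (ht : 0 < t) (htS : t < S)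
    (hin : closedBall y₁ (2 * t₁) ⊆ ball y₀ t) (hM : ∀ z ∈ sphere y₀ t, ω z ≤ M) :
    ∀ z, z ∉ ball y₀ t → ω z ≤ M := by
  have hM0 : 0 ≤ M := by
    have hne : Nonempty (Fin n) := ⟨⟨0, hn⟩⟩
    have hnt : Nontrivial (Sp n) := inferInstance
    obtain ⟨x, hx⟩ := (NormedSpace.sphere_nonempty (x := y₀) (r := t)).mpr ht.le
    exact (h.nonneg x).trans (hM x hx)
  intro z hz
  by_cases hzS : z ∈ ball y₀ S
  · by_contra hcon
    push Not at hcon
    obtain ⟨M', h1, h2⟩ := exists_between hcon
    -- the compact set where `ω` is large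
    obtain ⟨K, hK⟩ : ∃ K : Set (Sp n), K = closedBall y₀ S ∩ ω ⁻¹' (Ici M') := ⟨_, rfl⟩
    have hKc : IsCompact K := by
      rw [hK]
      exact (isCompact_closedBall y₀ S).inter_right (isClosed_Ici.preimage h.cont)
    have hzK : z ∈ K := by
      rw [hK]
      exact ⟨ball_subset_closedBall hzS, h2.le⟩
    obtain ⟨x0, hx0K, hx0⟩ := hKc.exists_isMaxOn ⟨z, hzK⟩
      (f := fun x => dist x y₀) (by fun_prop)
    have hx0S : dist x0 y₀ < S := by
      by_contra hc
      rw [hK] at hx0K
      have h3 : ω x0 = 0 := h.zero x0 (fun h4 => hc (mem_ball.mp h4))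
      have h4 : M' ≤ ω x0 := hx0K.2
      linarith
    obtain ⟨S', hS'⟩ : ∃ S' : ℝ, S' = (max (dist x0 y₀) t + S) / 2 := ⟨_, rfl⟩
    have hmax : max (dist x0 y₀) t < S := max_lt hx0S htS
    have hS1 : S' < S := by rw [hS']; linarith
    have hS2 : max (dist x0 y₀) t < S' := by rw [hS']; linarith
    have hS3 : dist x0 y₀ < S' := lt_of_le_of_lt (le_max_left _ _) hS2
    have hS4 : t < S' := lt_of_le_of_lt (le_max_right _ _) hS2
    obtain ⟨W, hW⟩ : ∃ W : Set (Sp n), W = ball y₀ S' \ closedBall y₀ t := ⟨_, rfl⟩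
    have hWo : IsOpen W := by
      rw [hW]
      exact isOpen_ball.sdiff isClosed_closedBall
    have hcl1 : closure W ⊆ closedBall y₀ S' := by
      refine closure_minimal ?_ isClosed_closedBall
      rw [hW]
      exact sdiff_subset.trans ball_subset_closedBall
    have hcl2 : closure W ⊆ (ball y₀ t)ᶜ := by
      refine closure_minimal ?_ isOpen_ball.isClosed_compl
      rw [hW]
      intro x hx hx'
      exact hx.2 (ball_subset_closedBall hx')
    have hWc : IsCompact (closure W) :=
      (isCompact_closedBall y₀ S').of_isClosed_subset isClosed_closure hcl1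
    have hWG : closure W ⊆ ball y₀ S \ closedBall y₁ (2 * t₁) := by
      intro x hx
      refine ⟨?_, fun hx' => hcl2 hx (hin hx')⟩
      have := hcl1 hx
      rw [mem_closedBall] at this
      rw [mem_ball]
      linarith
    have hfr : ∀ a ∈ frontier W, ω a ≤ M' := by
      intro a ha
      rw [hWo.frontier_eq] at ha
      have h3 := hcl1 ha.1
      have h4 := hcl2 ha.1
      rw [mem_closedBall] at h3
      rw [mem_compl_iff, mem_ball, not_lt] at h4
      have h5 := ha.2
      rw [hW, Set.mem_sdiff, mem_ball, mem_closedBall, not_and, not_not] at h5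
      rcases lt_or_eq_of_le h3 with h6 | h6
      · have h7 : dist a y₀ = t := le_antisymm (h5 h6) h4
        exact (hM a (mem_sphere.mpr h7)).trans h1.le
      · by_contra h7
        push Not at h7
        have haK : a ∈ K := by
          rw [hK]
          refine ⟨?_, h7.le⟩
          rw [mem_closedBall]
          linarith
        have h8 : dist a y₀ ≤ dist x0 y₀ := hx0 haK
        linarith
    have hmx := Harm.maxP hd h.harm hWo hWc hWG hfr
    have hz1 : t ≤ dist z y₀ := by
      rw [mem_ball, not_lt] at hz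
      exact hz
    have hz2 : dist z y₀ ≤ dist x0 y₀ := hx0 hzK
    rcases lt_or_eq_of_le hz1 with h6 | h6
    · have hzW : z ∈ W := by
        rw [hW]
        refine ⟨?_, ?_⟩
        · rw [mem_ball]; linarith
        · rw [mem_closedBall]; linarith
      have := hmx z hzW
      linarith
    · have := hM z (mem_sphere.mpr h6.symm)
      linarith
  · rw [h.zero z hzS]
    exact hM0

/-- minimum principle inside a ball -/
theorem Pot.ge_in (hd : Dat n p α β Cd θ Cs lam Cp μ A) {y₀ y₁ : Sp n} {S t₁ : ℝ}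
    {ω : Sp n → ℝ} (h : Pot A p μ y₀ S y₁ t₁ ω) {t m : ℝ} (ht : 0 < t) (htS : t < S)
    (hm : ∀ z ∈ sphere y₀ t, m ≤ ω z) : ∀ z ∈ closedBall y₀ t, m ≤ ω z := by
  intro z hz
  rw [mem_closedBall] at hz
  rcases lt_or_eq_of_le hz with h1 | h1
  · obtain ⟨W, hW⟩ := h.sup
    have hcl : closure (ball y₀ t) ⊆ closedBall y₀ t := closure_ball_subset_closedBall
    refine minP hd hW h.cont.continuousOn (W := ball y₀ t) isOpen_ball
      ((isCompact_closedBall y₀ t).of_isClosed_subset isClosed_closure hcl)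
      (hcl.trans (closedBall_subset_ball htS)) (fun a ha => ?_) z (mem_ball.mpr h1)
    exact hm a (frontier_ball_subset_sphere ha)
  · exact hm z (mem_sphere.mpr h1)

end Pool.Agent.Helper80.HMO
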