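import Pool.Agent.Helper80.HMO.HConn
import Pool.Agent.Helper80.HMO.MaxMin
open MeasureTheory Filter Topology Set Metric
open scoped ENNReal NNReal RealInnerProductSpace

namespace Pool.Agent.Helper80.HMO

open Pool.Agent.Helper533

variable {n : ℕ} {p α β Cd θ Cs lam Cp : ℝ} {μ : Measure (Sp n)} {A : Sp n → Sp n → Sp n}

/-- away from `y₀`, a potential with pole very close to `y₀` is almost bounded by its value at
`y₀` -/
theorem Pot.near_max (hn : 2 ≤ n) (hd : Dat n p α β Cd θ Cs lam Cp μ A) (y₀ : Sp n) {S : ℝ}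
    (hS : 0 < S) {ε τ : ℝ} (hε : 0 < ε) (hτ : 0 < τ) : ∃ ρ : ℝ, 0 < ρ ∧
    ∀ (y₁ : Sp n) (t₁ : ℝ) (ω : Sp n → ℝ), 0 < t₁ → dist y₁ y₀ + 2 * t₁ < ρ →
    Pot A p μ y₀ S y₁ t₁ ω → ∀ z, z ∉ ball y₀ τ → ω z ≤ (1 + ε) * ω y₀ := by
  obtain ⟨C, hC1, hC⟩ := harnack_sphere hn hd
  haveI : Nontrivial (Sp n) := by
    haveI : Nonempty (Fin n) := ⟨⟨0, by omega⟩⟩
    refine ⟨⟨0, EuclideanSpace.single ⟨0, by omega⟩ (1 : ℝ), ?_⟩⟩
    intro h
    have := congrArg norm h
    simp at this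
  set τ' : ℝ := min τ (S / 8) with hτ'
  have hτ'0 : 0 < τ' := lt_min hτ (by positivity)
  have hτ'S : τ' ≤ S / 8 := min_le_right _ _
  set K : ℕ := ⌈C ^ 2 / ε⌉₊ + 1 with hK
  have hK0 : (0 : ℝ) < K := by rw [hK]; positivity
  have hKC : C ^ 2 ≤ ε * K := by
    have h1 : C ^ 2 / ε ≤ ⌈C ^ 2 / ε⌉₊ := Nat.le_ceil _
    have h2 : C ^ 2 / ε ≤ K := by rw [hK]; push_cast; linarith
    rw [div_le_iff₀ hε] at h2
    linarith
  set t : ℕ → ℝ := fun k => τ' / 4 ^ k with ht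
  have ht0 : ∀ k, 0 < t k := fun k => by rw [ht]; positivity
  have hanti : ∀ k j, k ≤ j → t j ≤ t k := by
    intro k j hkj
    simp only [ht]
    apply div_le_div_of_nonneg_left hτ'0.le (by positivity)
    exact pow_le_pow_right₀ (by norm_num) hkj
  have hsucc : ∀ k, t (k + 1) = t k / 4 := by
    intro k
    simp only [ht]
    rw [pow_succ]
    field_simp
  have htS : ∀ k, t k ≤ S / 8 := fun k => by
    have h1 := hanti 0 k (Nat.zero_le k)
    have h2 : t 0 = τ' := by simp [ht]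
    linarith
  refine ⟨t (K + 1) / 4, by have := ht0 (K + 1); positivity, ?_⟩
  intro y₁ t₁ ω ht₁ hdist hP z hz
  have hin : ∀ k, k ≤ K + 1 → ∀ w ∈ closedBall y₁ (2 * t₁), dist w y₀ < t k / 4 := by
    intro k hk w hw
    have h1 := hanti k (K + 1) hk
    have h2 : dist w y₁ ≤ 2 * t₁ := hw
    have h3 := dist_triangle w y₁ y₀
    linarith
  have hin' : ∀ k, k ≤ K + 1 → closedBall y₁ (2 * t₁) ⊆ ball y₀ (t k) := by
    intro k hk w hw
    have h1 := hin k hk w hw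
    have h2 := ht0 k
    rw [mem_ball]
    linarith
  have hmax : ∀ k, ∃ a ∈ sphere y₀ (t k), ∀ w ∈ sphere y₀ (t k), ω w ≤ ω a := fun k =>
    (isCompact_sphere y₀ (t k)).exists_isMaxOn
      (NormedSpace.sphere_nonempty.2 (ht0 k).le) hP.cont.continuousOn
  have hmin : ∀ k, ∃ b ∈ sphere y₀ (t k), ∀ w ∈ sphere y₀ (t k), ω b ≤ ω w := fun k =>
    (isCompact_sphere y₀ (t k)).exists_isMinOn
      (NormedSpace.sphere_nonempty.2 (ht0 k).le) hP.cont.continuousOn
  choose a ha haM using hmax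
  choose b hb hbm using hmin
  have hA : ∀ k, k ≤ K + 1 → ∀ w, w ∉ ball y₀ (t k) → ω w ≤ ω (a k) := fun k hk =>
    Pot.le_out (by omega) hd hP (ht0 k) (by linarith [htS k]) (hin' k hk) (haM k)
  have hB : ∀ k, ω (b k) ≤ ω y₀ := fun k =>
    Pot.ge_in hd hP (ht0 k) (by linarith [htS k]) (hbm k) y₀
      (mem_closedBall_self (ht0 k).le)
  have hG0 : IsOpen (ball y₀ S \ closedBall y₁ (2 * t₁)) := isOpen_ball.sdiff isClosed_closedBall
  have hCk : ∀ k, k ≤ K + 1 → ω (a k) ≤ C * ω (b k) := by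
    intro k hk
    refine hC y₀ (t k) (ht0 k) _ hG0 ?_ ω hP.harm (fun y _ => hP.nonneg y) (a k) (ha k) (b k) (hb k)
    intro w h1 h2
    refine ⟨?_, fun h3 => ?_⟩
    · rw [mem_ball]; linarith [htS k]
    · have := hin k hk w h3
      linarith [ht0 k]
  have hω0 : 0 ≤ ω y₀ := hP.nonneg y₀
  have hMC : ∀ k, k ≤ K + 1 → ω (a k) ≤ C * ω y₀ := fun k hk =>
    (hCk k hk).trans (mul_le_mul_of_nonneg_left (hB k) (by linarith))
  -- pigeonhole
  obtain ⟨k, hkK, hk⟩ : ∃ k < K, ω (a (k + 1)) - ω (a k) ≤ C * ω y₀ / K := by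
    by_contra hcon
    push Not at hcon
    have h1 : ∑ k ∈ Finset.range K, C * ω y₀ / K <
        ∑ k ∈ Finset.range K, (ω (a (k + 1)) - ω (a k)) :=
      Finset.sum_lt_sum_of_nonempty ⟨0, Finset.mem_range.2 (by rw [hK]; omega)⟩
        (fun k hk => hcon k (Finset.mem_range.1 hk))
    rw [Finset.sum_range_sub (fun k => ω (a k)), Finset.sum_const, Finset.card_range,
      nsmul_eq_mul, mul_div_cancel₀ _ hK0.ne'] at h1
    have h2 := hMC K (by omega)
    have h3 := hP.nonneg (a 0)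
    linarith
  -- Harnack for `M - ω`
  set G : Set (Sp n) := ball y₀ S \ closedBall y₀ (t (k + 1)) with hG
  have hGo : IsOpen G := isOpen_ball.sdiff isClosed_closedBall
  have hGsub : G ⊆ ball y₀ S \ closedBall y₁ (2 * t₁) := by
    rintro w ⟨h1, h2⟩
    exact ⟨h1, fun h3 => h2 (ball_subset_closedBall (hin' (k + 1) (by omega) h3))⟩
  have hq : Harm A p μ G (fun x => ω (a (k + 1)) - ω x) :=
    (Harm.const_sub hd hP.harm (ω (a (k + 1)))).mono hd hGo hGsub
  have hq0 : ∀ y ∈ G, 0 ≤ ω (a (k + 1)) - ω y := by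
    rintro y ⟨_, h2⟩
    have := hA (k + 1) (by omega) y (fun h => h2 (ball_subset_closedBall h))
    linarith
  have hH := hC y₀ (t k) (ht0 k) G hGo (by
    intro w h1 h2
    refine ⟨?_, fun h3 => ?_⟩
    · rw [mem_ball]; linarith [htS k, ht0 k]
    · rw [mem_closedBall, hsucc k] at h3
      linarith [ht0 k]) _ hq hq0 (b k) (hb k) (a k) (ha k)
  have h1 : ω z ≤ ω (a (k + 1)) := by
    apply hA (k + 1) (by omega) z
    intro h
    apply hz
    rw [mem_ball] at *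
    have h2 := hanti 0 (k + 1) (Nat.zero_le _)
    have h3 : t 0 = τ' := by simp [ht]
    have h4 : τ' ≤ τ := min_le_left _ _
    linarith
  have h2 : C * (ω (a (k + 1)) - ω (a k)) ≤ ε * ω y₀ := by
    have h3 : C * (ω (a (k + 1)) - ω (a k)) ≤ C * (C * ω y₀ / K) :=
      mul_le_mul_of_nonneg_left hk (by linarith)
    refine h3.trans ?_
    rw [← mul_div_assoc, div_le_iff₀ hK0]
    nlinarith
  have h3 := hB k
  linarith

end Pool.Agent.Helper80.HMO
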