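import Pool.Agent.Helper80.HMO.Harnack
import Pool.Agent.Helper80.HMO.ExPot
import Pool.Agent.Helper80.HMO.Gap
open MeasureTheory Filter Topology Set Metric
open scoped ENNReal NNReal RealInnerProductSpace

namespace Pool.Agent.Helper80.HMO

open Pool.Agent.Helper533

variable {n : ℕ} {p α β Cd θ Cs lam Cp : ℝ} {μ : Measure (Sp n)} {A : Sp n → Sp n → Sp n}

theorem ol_small {ν : Measure (Sp n)} [IsFiniteMeasureOnCompacts ν] {f : Sp n → Sp n}
    {K : Set (Sp n)} (hK : IsCompact K) (hf : ContinuousOn f K) (y0 : Sp n) {η : ℝ}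
    (hη : 0 < η) :
    ∃ τ : ℝ, 0 < τ ∧ ν.real {x | x ∈ K ∧ f x ≠ y0 ∧ dist (f x) y0 < τ} ≤ η := by
  let E : ℕ → Set (Sp n) := fun m => {x | x ∈ K ∧ f x ≠ y0 ∧ dist (f x) y0 < 1 / ((m:ℝ) + 1)}
  have hmeas : ∀ m, MeasurableSet (E m) := by
    intro m
    obtain ⟨U, hU, hU2⟩ := continuousOn_iff'.mp hf (ball y0 (1 / ((m:ℝ)+1)) \ {y0})
      (isOpen_ball.sdiff isClosed_singleton)
    have h : E m = U ∩ K := by
      rw [← hU2]
      ext x
      constructor
      · rintro ⟨h1, h2, h3⟩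
        exact ⟨⟨h3, h2⟩, h1⟩
      · rintro ⟨⟨h3, h2⟩, h1⟩
        exact ⟨h1, h2, h3⟩
    rw [h]
    exact hU.measurableSet.inter hK.isClosed.measurableSet
  have hanti : Antitone E := by
    intro a b hab x hx
    refine ⟨hx.1, hx.2.1, hx.2.2.trans_le ?_⟩
    have : (a:ℝ) ≤ b := by exact_mod_cast hab
    exact one_div_le_one_div_of_le (by positivity) (by linarith)
  have hempty : ⋂ m, E m = ∅ := by
    rw [Set.eq_empty_iff_forall_notMem]
    intro x hx
    rw [Set.mem_iInter] at hx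
    have hpos : 0 < dist (f x) y0 := dist_pos.mpr (hx 0).2.1
    obtain ⟨m, hm⟩ := exists_nat_one_div_lt hpos
    exact absurd (hx m).2.2 (not_lt.mpr hm.le)
  have hfin : ν (E 0) ≠ ∞ :=
    ((measure_mono (fun x hx => hx.1)).trans_lt hK.measure_lt_top).ne
  have ht := tendsto_measure_iInter_atTop (μ := ν) (fun m => (hmeas m).nullMeasurableSet) hanti
    ⟨0, hfin⟩
  rw [hempty, measure_empty] at ht
  have h1 : ∀ᶠ m in atTop, ν (E m) < ENNReal.ofReal η :=
    ht.eventually_lt_const (ENNReal.ofReal_pos.mpr hη)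
  obtain ⟨m, hm⟩ := h1.exists
  exact ⟨1 / ((m:ℝ)+1), by positivity, ENNReal.toReal_le_of_le_ofReal hη.le hm.le⟩

set_option maxHeartbeats 4000000 in
/-- OPENNESS, local form: if the image of some closed ball about `x₀` is not a neighbourhood of
`f x₀`, then `f` is constant near `x₀`. -/
theorem open_local (hn : 2 ≤ n) {α' β' Cd' θ' Cs' lam' Cp' : ℝ} {ν : Measure (Sp n)}
    {Astar : Sp n → Sp n → Sp n} (hds : Dat n p α' β' Cd' θ' Cs' lam' Cp' ν Astar)
    (hd : Dat n p α β Cd θ Cs lam Cp μ A) {G : Set (Sp n)} {f : Sp n → Sp n} (hG : IsOpen G)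
    (hf : Morph p ν μ Astar A G f) {x₀ : Sp n} {r : ℝ} (hr : 0 < r) (hrG : closedBall x₀ r ⊆ G)
    (hno : f '' closedBall x₀ r ∉ 𝓝 (f x₀)) : ∀ᶠ x in 𝓝 x₀, f x = f x₀ := by
  haveI := hds.fin
  obtain ⟨C1, Λ, hC1, hΛ, hH0⟩ := harnack (n := n) (Cd := Cd') (θ := θ') (Cs := Cs')
    (lam := lam') (Cp := Cp') hds.hp hds.hα hds.hβ
  have hH := hH0 ν Astar hds
  obtain ⟨γ, hγ, hDG0⟩ := dg_center (n := n) (Cd := Cd') (θ := θ') (Cs := Cs')
    (lam := lam') (Cp := Cp') hds.hp hds.hα hds.hβ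
  have hDG := hDG0 ν Astar hds
  by_contra hcon
  have hfreq : ∃ᶠ x in 𝓝 x₀, ¬ f x = f x₀ := Filter.not_eventually.mp hcon
  have hΛ0 : 0 < Λ := by linarith
  -- radii
  obtain ⟨r2, hr2⟩ : ∃ r2, r2 = r / (4 * Λ) := ⟨_, rfl⟩
  obtain ⟨r3, hr3⟩ : ∃ r3, r3 = r2 / Λ := ⟨_, rfl⟩
  have hr2p : 0 < r2 := by rw [hr2]; positivity
  have hr3p : 0 < r3 := by rw [hr3]; positivity
  have hr2e : r2 * (4 * Λ) = r := by rw [hr2]; exact div_mul_cancel₀ _ (by positivity)
  have hr3e : Λ * r3 = r2 := by rw [hr3]; exact mul_div_cancel₀ _ hΛ0.ne'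
  have hr2r : 4 * r2 ≤ r := by nlinarith
  have hr3r : r3 ≤ r2 := by nlinarith
  obtain ⟨w, hwne, hwb⟩ := (hfreq.and_eventually (ball_mem_nhds x₀ hr3p)).exists
  have hwb' : dist w x₀ < r3 := hwb
  -- the image
  obtain ⟨y0, hy0⟩ : ∃ y0, y0 = f x₀ := ⟨_, rfl⟩
  rw [← hy0] at hwne hno
  obtain ⟨F, hF⟩ : ∃ F, F = f '' closedBall x₀ r := ⟨_, rfl⟩
  rw [← hF] at hno
  have hFc : IsCompact F := by
    rw [hF]
    exact (isCompact_closedBall x₀ r).image_of_continuousOn (hf.cont.mono hrG)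
  obtain ⟨S, hS, hFS⟩ := hFc.isBounded.subset_ball_lt 0 y0
  have hmemF : ∀ x ∈ closedBall x₀ r, f x ∈ F := by
    intro x hx
    rw [hF]
    exact mem_image_of_mem f hx
  have hwr : w ∈ closedBall x₀ r := by
    rw [mem_closedBall]
    linarith
  obtain ⟨c, hc0, hc1, ρ1, hρ1, hgap⟩ := Pot.gap hn hd hS hwne (hFS (hmemF w hwr))
  -- epsilon
  obtain ⟨ε, hε, hε1, hε2⟩ : ∃ ε : ℝ, 0 < ε ∧ ε ≤ 1 / 2 ∧ 4 * C1 * ε ≤ 1 - c := by
    have hC1p : 0 < C1 := by linarith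
    refine ⟨min (1/2) ((1 - c) / (4 * C1)), ?_, min_le_left _ _, ?_⟩
    · refine lt_min (by norm_num) (div_pos (by linarith) (by positivity))
    · have h1 : min (1/2) ((1 - c) / (4 * C1)) ≤ (1 - c) / (4 * C1) := min_le_right _ _
      have h2 : 4 * C1 * ((1 - c) / (4 * C1)) = 1 - c := mul_div_cancel₀ _ (by positivity)
      calc 4 * C1 * min (1/2) ((1 - c) / (4 * C1)) ≤ 4 * C1 * ((1 - c) / (4 * C1)) :=
            mul_le_mul_of_nonneg_left h1 (by positivity)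
        _ = 1 - c := h2
  -- J
  obtain ⟨J, hJ⟩ : ∃ J : ℕ, (1 / 2 : ℝ) ^ J < ε / (C1 + 1) :=
    exists_pow_lt_of_lt_one (div_pos hε (by linarith)) (by norm_num)
  have hJ' : (1 / 2 : ℝ) ^ J * (C1 + 1) ≤ ε := by
    have h1 := (lt_div_iff₀ (by linarith : 0 < C1 + 1)).mp hJ
    exact h1.le
  have hJ0 : 0 ≤ (1 / 2 : ℝ) ^ J := by positivity
  -- lower bound of the measures
  have hm0 : 0 < ν.real (ball x₀ r2) :=
    ENNReal.toReal_pos (hds.adm.pos x₀ r2 hr2p).ne' (hds.adm.fin x₀ r2).ne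
  have hCd : 0 < Cd' := by linarith [hds.adm.one_le_Cd]
  have hlow : ∀ z ∈ closedBall x₀ r2, ν.real (ball x₀ r2) / Cd' ≤ ν.real (ball z r2) := by
    intro z hz
    rw [mem_closedBall] at hz
    rw [div_le_iff₀ hCd, mul_comm]
    refine le_trans (measureReal_mono ?_ (hds.adm.fin z (2 * r2)).ne) (hds.adm.dbl z r2 hr2p)
    intro y hy
    rw [mem_ball] at hy ⊢
    have h1 := dist_triangle y x₀ z
    rw [dist_comm x₀ z] at h1
    linarith
  -- tau
  obtain ⟨τ, hτ, hτ2⟩ := ol_small (ν := ν) (isCompact_closedBall x₀ (2 * r2))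
    (f := f) (hf.cont.mono ((closedBall_subset_closedBall (by linarith)).trans hrG)) y0
    (η := γ J * (ν.real (ball x₀ r2) / Cd')) (mul_pos (hγ J) (div_pos hm0 hCd))
  obtain ⟨ρ2, hρ2, hmax⟩ := Pot.near_max hn hd y0 hS hε hτ
  -- the pole
  obtain ⟨δ, hδ⟩ : ∃ δ, δ = min ρ1 (min ρ2 S) := ⟨_, rfl⟩
  have hδp : 0 < δ := by rw [hδ]; exact lt_min hρ1 (lt_min hρ2 hS)
  have hδ1 : δ ≤ ρ1 := by rw [hδ]; exact min_le_left _ _
  have hδ2 : δ ≤ ρ2 := by rw [hδ]; exact (min_le_right _ _).trans (min_le_left _ _)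
  have hδ3 : δ ≤ S := by rw [hδ]; exact (min_le_right _ _).trans (min_le_right _ _)
  obtain ⟨y1, hy1, hy1F⟩ : ∃ y1, y1 ∈ ball y0 (δ / 2) ∧ y1 ∉ F := by
    by_contra hall
    push Not at hall
    exact hno (Filter.mem_of_superset (ball_mem_nhds y0 (by positivity)) hall)
  rw [mem_ball] at hy1
  obtain ⟨ε', hε', hball⟩ := Metric.mem_nhds_iff.mp
    (hFc.isClosed.isOpen_compl.mem_nhds (show y1 ∈ Fᶜ from hy1F))
  obtain ⟨t1, ht1⟩ : ∃ t1, t1 = min (ε' / 4) (δ / 8) := ⟨_, rfl⟩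
  have ht1p : 0 < t1 := by rw [ht1]; exact lt_min (by positivity) (by positivity)
  have ht1a : t1 ≤ ε' / 4 := by rw [ht1]; exact min_le_left _ _
  have ht1b : t1 ≤ δ / 8 := by rw [ht1]; exact min_le_right _ _
  have hsubS : closedBall y1 (2 * t1) ⊆ ball y0 S := by
    intro y hy
    rw [mem_closedBall] at hy
    rw [mem_ball]
    have h1 := dist_triangle y y1 y0
    linarith
  obtain ⟨ω, hω⟩ := exists_pot (by omega) hd hS ht1p hsubS
  -- the pulled back potential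
  have hG'o : IsOpen (ball y0 S \ closedBall y1 (2 * t1)) :=
    isOpen_ball.sdiff isClosed_closedBall
  have hpull := hf.pull _ hG'o ω hω.harm
  obtain ⟨Ω, hΩ⟩ : ∃ Ω, Ω = G ∩ f ⁻¹' (ball y0 S \ closedBall y1 (2 * t1)) := ⟨_, rfl⟩
  rw [← hΩ] at hpull
  have hΩo : IsOpen Ω := by rw [hΩ]; exact hf.cont.isOpen_inter_preimage hG hG'o
  have hsubΩ : closedBall x₀ r ⊆ Ω := by
    intro x hx
    rw [hΩ]
    refine ⟨hrG hx, hFS (hmemF x hx), ?_⟩
    intro hxy
    rw [mem_closedBall] at hxy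
    have h1 : f x ∈ ball y1 ε' := by
      rw [mem_ball]
      linarith
    exact hball h1 (hmemF x hx)
  have hωp : 0 < ω y0 := hω.pos y0 (mem_ball_self hS)
  obtain ⟨v, hv⟩ : ∃ v : Sp n → ℝ, v = fun x => (ω y0)⁻¹ * (ω ∘ f) x := ⟨_, rfl⟩
  have hvH : Harm Astar p ν Ω v := by rw [hv]; exact Harm.const_mul hds hpull _
  have hvx : ∀ x, v x = (ω y0)⁻¹ * ω (f x) := by intro x; rw [hv]; rfl
  have hv0 : ∀ x, 0 ≤ v x := fun x => by
    rw [hvx]; exact mul_nonneg (inv_nonneg.mpr hωp.le) (hω.nonneg _)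
  have hvle : ∀ x a, ω (f x) ≤ a * ω y0 → v x ≤ a := by
    intro x a h
    rw [hvx, inv_mul_le_iff₀ hωp, mul_comm]
    exact h
  have hv1 : v x₀ = 1 := by rw [hvx, ← hy0]; exact inv_mul_cancel₀ hωp.ne'
  have hvw : v w ≤ c := hvle w c (hgap y1 t1 ω ht1p (by linarith) hω)
  have hvC : ∀ x ∈ closedBall x₀ (2 * r2), v x ≤ C1 := by
    intro x hx
    have h1 := hH Ω hΩo v hvH (fun y _ => hv0 y) x₀ (2 * r2) (by positivity) (by
      refine subset_trans ?_ hsubΩ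
      refine subset_trans (ball_subset_closedBall) (closedBall_subset_closedBall ?_)
      nlinarith) x hx x₀ (mem_closedBall_self (by positivity))
    rw [hv1, mul_one] at h1
    exact h1
  have hout : ∀ x, ¬ (f x ≠ y0 ∧ dist (f x) y0 < τ) → v x ≤ 1 + ε := by
    intro x hx
    refine hvle x _ ?_
    by_cases h1 : f x = y0
    · rw [h1]
      nlinarith
    · have h2 : f x ∉ ball y0 τ := fun h => hx ⟨h1, h⟩
      exact hmax y1 t1 ω ht1p (by linarith) hω _ h2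
  have hcenter : ∀ z ∈ closedBall x₀ r2, v z ≤ 1 + 2 * ε := by
    intro z hz
    have hz' : dist z x₀ ≤ r2 := hz
    have hsubz : ball z r2 ⊆ closedBall x₀ (2 * r2) := by
      intro y hy
      rw [mem_ball] at hy
      rw [mem_closedBall]
      have h1 := dist_triangle y z x₀
      linarith
    have hsubz' : ball z r2 ⊆ Ω :=
      (hsubz.trans (closedBall_subset_closedBall (by linarith))).trans hsubΩ
    have hs' := Harm.mono hds (Harm.const_sub hds hvH (C1 + 2)) isOpen_ball hsubz'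
    obtain ⟨Sg, hSg⟩ := Harm.sup hs'
    have key := hDG J z r2 hr2p (fun x => (C1 + 2) - v x) Sg hSg hs'.1
      (fun y hy => by have := hvC y (hsubz hy); linarith) (C1 + 1 - ε) (by linarith) (by
        refine le_trans (measureReal_mono ?_
          (isCompact_closedBall x₀ (2 * r2) |>.measure_lt_top.ne |> fun h =>
            ((measure_mono (fun x hx => hx.1)).trans_lt (lt_top_iff_ne_top.mpr h)).ne)) (hτ2.trans
          (mul_le_mul_of_nonneg_left (hlow z hz) (hγ J).le))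
        rintro y ⟨hy1, hy2⟩
        refine ⟨hsubz hy1, ?_⟩
        by_contra hc
        have h1 := hout y hc
        linarith)
    have key' : (1 - (1 / 2 : ℝ) ^ J) * (C1 + 1 - ε) ≤ (C1 + 2) - v z := key
    have h2 : 0 ≤ (1 / 2 : ℝ) ^ J * ε := mul_nonneg hJ0 hε.le
    nlinarith
  have hq := Harm.mono hds (Harm.const_sub hds hvH (1 + 2 * ε)) isOpen_ball
    ((ball_subset_closedBall.trans (closedBall_subset_closedBall (by linarith))).trans hsubΩ :
      ball x₀ r2 ⊆ Ω)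
  have hfin := hH (ball x₀ r2) isOpen_ball (fun x => (1 + 2 * ε) - v x) hq
    (fun y hy => by have := hcenter y (ball_subset_closedBall hy); linarith) x₀ r3 hr3p
    (by rw [hr3e]) w (ball_subset_closedBall hwb) x₀ (mem_closedBall_self hr3p.le)
  have hfin' : (1 + 2 * ε) - v w ≤ C1 * ((1 + 2 * ε) - v x₀) := hfin
  rw [hv1] at hfin'
  nlinarith

end Pool.Agent.Helper80.HMO
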