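import Pool.Agent.Helper80.HMO.HConn
open MeasureTheory Filter Topology Set Metric
open scoped ENNReal NNReal RealInnerProductSpace

namespace Pool.Agent.Helper80.HMO

open Pool.Agent.Helper533

variable {n : ℕ} {p α β Cd θ Cs lam Cp : ℝ} {μ : Measure (Sp n)} {A : Sp n → Sp n → Sp n}

/-- `y₀` is polar: its variational capacity in the ball of radius `S` vanishes -/
def PolarPt (p : ℝ) (μ : Measure (Sp n)) (y₀ : Sp n) (S : ℝ) : Prop :=
  ∀ ε : ℝ, 0 < ε → ∃ φ : Sp n → ℝ, Polar.Cc (ball y₀ S) φ ∧ 1 ≤ φ y₀ ∧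
    ∫ x, ‖gradient φ x‖ ^ p ∂μ < ε

/-- energy comparison for obstacle solutions -/
theorem obs_energy (hd : Dat n p α β Cd θ Cs lam Cp μ A) {D : Set (Sp n)}
    {ρ ω : Sp n → ℝ} {W : Sp n → Sp n} (hC : Polar.Obs A p μ D ρ ω W)
    {v : Sp n → ℝ} {V : Sp n → Sp n} (hv : Polar.H0 p μ D v V) (hvρ : ∀ᵐ x ∂μ, ρ x ≤ v x) :
    ∫ x, ‖W x‖ ^ p ∂μ ≤ (2 * β / α) ^ p * ∫ x, ‖V x‖ ^ p ∂μ := by
  haveI := hd.fin
  have hp := hd.hp
  have hα := hd.hα
  have hβ := hd.hβ
  have hA := hd.op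
  have hW := hC.h0.mU
  have hV := hv.mU
  have h1 := hC.vi v V hv hvρ
  simp only [inner_sub_right] at h1
  rw [integral_sub (Polar.int_inner hp hA hW hV) (Polar.int_inner hp hA hW hW)] at h1
  have h2 : ∫ x, α * ‖W x‖ ^ p ∂μ ≤ ∫ x, ⟪A x (W x), W x⟫ ∂μ := by
    apply integral_mono_ae ((Polar.int_rpow hp hW).const_mul α) (Polar.int_inner hp hA hW hW)
    filter_upwards [hA.coer] with x hx
    exact hx (W x)
  rw [integral_const_mul] at h2
  set Λ : ℝ := 2 * β / α with hΛ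
  have hΛ0 : 0 < Λ := by positivity
  have h3 : ∫ x, ⟪A x (W x), V x⟫ ∂μ ≤
      ∫ x, (α / 2 * ‖W x‖ ^ p + α / 2 * Λ ^ p * ‖V x‖ ^ p) ∂μ := by
    apply integral_mono_ae (Polar.int_inner hp hA hW hV)
      (((Polar.int_rpow hp hW).const_mul (α / 2)).add
        ((Polar.int_rpow hp hV).const_mul (α / 2 * Λ ^ p)))
    filter_upwards [hA.bdd] with x hx
    have e1 : ⟪A x (W x), V x⟫ ≤ ‖A x (W x)‖ * ‖V x‖ := real_inner_le_norm _ _
    have e2 : ‖A x (W x)‖ * ‖V x‖ ≤ β * ‖W x‖ ^ (p - 1) * ‖V x‖ :=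
      mul_le_mul_of_nonneg_right (hx (W x)) (norm_nonneg _)
    have e3 := Polar.rpow_mul_le hp (norm_nonneg (W x)) (mul_nonneg hΛ0.le (norm_nonneg (V x)))
    rw [Real.mul_rpow hΛ0.le (norm_nonneg _)] at e3
    have e4 : β * ‖W x‖ ^ (p - 1) * ‖V x‖ = α / 2 * (‖W x‖ ^ (p - 1) * (Λ * ‖V x‖)) := by
      rw [hΛ]; field_simp
    have e5 : α / 2 * (‖W x‖ ^ (p - 1) * (Λ * ‖V x‖)) ≤
        α / 2 * (‖W x‖ ^ p + Λ ^ p * ‖V x‖ ^ p) :=
      mul_le_mul_of_nonneg_left e3 (by positivity)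
    calc ⟪A x (W x), V x⟫ ≤ α / 2 * (‖W x‖ ^ p + Λ ^ p * ‖V x‖ ^ p) := by linarith
      _ = α / 2 * ‖W x‖ ^ p + α / 2 * Λ ^ p * ‖V x‖ ^ p := by ring
  rw [integral_add ((Polar.int_rpow hp hW).const_mul (α / 2))
        ((Polar.int_rpow hp hV).const_mul (α / 2 * Λ ^ p)), integral_const_mul,
        integral_const_mul] at h3
  have h4 : α / 2 * ∫ x, ‖W x‖ ^ p ∂μ ≤ α / 2 * (Λ ^ p * ∫ x, ‖V x‖ ^ p ∂μ) := by
    linarith
  exact le_of_mul_le_mul_left h4 (by positivity)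

/-- positivity of potentials -/
theorem pos_of_sup (hd : Dat n p α β Cd θ Cs lam Cp μ A) {y₀ : Sp n} {S : ℝ}
    {ω : Sp n → ℝ} {W : Sp n → Sp n} (hS : 0 < S)
    (hs : Polar.Sup A p μ (ball y₀ S) ω W) (hc : Continuous ω) (h0 : ∀ x, 0 ≤ ω x)
    (hy : 0 < ω y₀) : ∀ z ∈ ball y₀ S, 0 < ω z := by
  haveI := hd.fin
  have hp := hd.hp
  have hlam : 0 < lam := lt_of_lt_of_le one_pos hd.adm.one_le_lam
  have hopen : IsOpen {z | 0 < ω z} := isOpen_lt continuous_const hc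
  have hpre : IsPreconnected (ball y₀ S) := (convex_ball y₀ S).isPreconnected
  refine hpre.subset_of_closure_inter_subset hopen ⟨y₀, mem_ball_self hS, hy⟩ ?_
  rintro z ⟨hz1, hz2⟩
  have hzS : dist z y₀ < S := hz2
  obtain ⟨r, hr⟩ : ∃ r : ℝ, r = (S - dist z y₀) / (2 * lam) := ⟨_, rfl⟩
  have hr0 : 0 < r := by rw [hr]; exact div_pos (by linarith) (by positivity)
  have hr2 : 2 * lam * r = S - dist z y₀ := by rw [hr]; field_simp
  have hsub : ball z (2 * lam * r) ⊆ ball y₀ S := by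
    intro w hw
    rw [mem_ball, hr2] at hw
    rw [mem_ball]
    have := dist_triangle w z y₀
    linarith
  obtain ⟨w, hw1, hw2⟩ := Metric.mem_closure_iff.1 hz1 r hr0
  have hw1' : 0 < ω w := hw1
  have hO : IsOpen (ball z r ∩ {y | ω w / 2 < ω y}) :=
    isOpen_ball.inter (isOpen_lt continuous_const hc)
  have hwO : w ∈ ball z r ∩ {y | ω w / 2 < ω y} := by
    refine ⟨?_, ?_⟩
    · rw [mem_ball, dist_comm]; exact hw2
    · show ω w / 2 < ω w
      linarith
  obtain ⟨r', hr', hr'O⟩ := Metric.isOpen_iff.1 hO w hwO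
  have hm1 : 0 < μ.real (ball w r') :=
    ENNReal.toReal_pos (hd.adm.pos w r' hr').ne' (hd.adm.fin w r').ne
  have hm2 : 0 < μ.real (ball z r) :=
    ENNReal.toReal_pos (hd.adm.pos z r hr0).ne' (hd.adm.fin z r).ne
  obtain ⟨δ, hδ0, hδ1, H⟩ := Polar.DG2 (n := n) (p := p) (α := α) (β := β) (Cd := Cd) (θ := θ)
    (Cs := Cs) (lam := lam) (Cp := Cp) hp hd.hα hd.hβ
    (γ := μ.real (ball w r') / μ.real (ball z r)) (div_pos hm1 hm2)
  have h1 := H μ A hd.op hd.adm (ball y₀ S) isOpen_ball ω W hs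
    (Eventually.of_forall fun y _ => h0 y) z r hr0 hsub (ω w / 2) (by positivity) (by
      rw [div_mul_cancel₀ _ hm2.ne']
      refine ENNReal.toReal_mono
        (ne_top_of_le_ne_top (hd.adm.fin z r).ne (measure_mono fun y hy => hy.1)) ?_
      refine measure_mono ?_
      intro y hy
      have hy' := hr'O hy
      exact ⟨hy'.1, le_of_lt hy'.2⟩)
  have h2 := Polar.nonneg_of_ae hd.adm.pos (O := ball z (r / 2)) isOpen_ball
    (g := fun y => ω y - δ * (ω w / 2)) ((hc.sub continuous_const).continuousOn) (by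
      filter_upwards [h1] with y hy hyb
      have := hy hyb
      linarith) z (mem_ball_self (by positivity))
  have h3 : 0 ≤ ω z - δ * (ω w / 2) := h2
  have h4 : 0 < δ * (ω w / 2) := by positivity
  show 0 < ω z
  linarith

/-- potentials from obstacle solutions -/
theorem pot_of_cobs (hd : Dat n p α β Cd θ Cs lam Cp μ A) {y₀ : Sp n} {S t₁ : ℝ}
    (hS : 0 < S) (ht : 0 < t₁) (h : closedBall y₀ (2 * t₁) ⊆ ball y₀ S)
    {ρ ω : Sp n → ℝ} {W : Sp n → Sp n} (hρ : Polar.Cc (ball y₀ (2 * t₁)) ρ)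
    (hρ01 : ∀ x, 0 ≤ ρ x ∧ ρ x ≤ 1) (hρ1 : ∀ x ∈ closedBall y₀ t₁, ρ x = 1)
    (hC : Polar.CObs A p μ (ball y₀ S) ρ ω W) (hc : Continuous ω)
    (h01 : ∀ x, 0 ≤ ω x ∧ ω x ≤ 1) (hge : ∀ x, ρ x ≤ ω x)
    (h0 : ∀ x, x ∉ ball y₀ S → ω x = 0) : Pot A p μ y₀ S y₀ t₁ ω := by
  haveI := hd.fin
  have hp := hd.hp
  have hρD : Polar.Cc (ball y₀ S) ρ := hρ.mono (ball_subset_closedBall.trans h)
  have hone : ∀ z ∈ closedBall y₀ t₁, ω z = 1 := by
    intro z hz
    have h1 := hge z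
    rw [hρ1 z hz] at h1
    exact le_antisymm (h01 z).2 h1
  have hsup := hC.obs.sup hp
  refine ⟨hc, fun z => (h01 z).1, fun z => (h01 z).2, h0, hone, ?_, ⟨W, hsup⟩, ?_, ?_⟩
  · refine pos_of_sup hd hS hsup hc (fun z => (h01 z).1) ?_
    rw [hone y₀ (mem_closedBall_self ht.le)]
    exact one_pos
  · have h1 := Polar.Obs.sub_above hp hd.hα hd.hβ hd.op hC.obs (k := 0) le_rfl
      (G := (closedBall y₀ (2 * t₁))ᶜ) isClosed_closedBall.isOpen_compl (fun x hx => by
        rw [Polar.zero_of_notMem (fun hx' => hx (ball_subset_closedBall (hρ.supp hx')))])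
    have h2 : (fun x => max (ω x - 0) 0) = ω := by
      funext x
      rw [sub_zero, max_eq_left (h01 x).1]
    rw [h2] at h1
    exact ⟨_, h1⟩
  · have hsub : ball y₀ S \ closedBall y₀ (2 * t₁) ⊆ ball y₀ S := sdiff_subset
    have ho : IsOpen (ball y₀ S \ closedBall y₀ (2 * t₁)) := isOpen_ball.sdiff isClosed_closedBall
    refine ⟨hc.continuousOn, W, (Polar.H0.toLH hp hC.obs.h0).mono hsub hp ho, fun φ hφ => ?_⟩
    refine Polar.CObs.harm_off hp hd.hα hd.hβ hd.op isOpen_ball hρD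
      (fun x => (hρ01 x).1) hC (B := (tsupport φ)ᶜ) (isClosed_tsupport _).isOpen_compl ?_
      (Polar.H0.of_Cc (hφ.mono hsub)) (Eventually.of_forall fun x hx => ?_)
    · intro x hx hx'
      exact (hφ.supp hx').2 (ball_subset_closedBall (hρ.supp hx))
    · exact image_eq_zero_of_notMem_tsupport hx

/-- potentials of small balls about `y₀` with energy controlled by a test function -/
theorem exists_pot_energy (hn : 2 ≤ n) (hd : Dat n p α β Cd θ Cs lam Cp μ A) {y₀ : Sp n} {S t₁ : ℝ}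
    (hS : 0 < S) (ht : 0 < t₁) (h : closedBall y₀ (2 * t₁) ⊆ ball y₀ S) {φ : Sp n → ℝ}
    (hφ : Polar.Cc (ball y₀ S) φ) (hφ1 : ∀ x ∈ ball y₀ (2 * t₁), 1 ≤ 2 * φ x) :
    ∃ (ω : Sp n → ℝ), Pot A p μ y₀ S y₀ t₁ ω ∧
      ∫ x, |ω x| ^ p ∂μ ≤ Cs * S ^ p * ((4 * β / α) ^ p * ∫ x, ‖gradient φ x‖ ^ p ∂μ) := by
  haveI := hd.fin
  have hp := hd.hp
  have hp0 : 0 < p := by linarith
  have hα := hd.hα
  have hβ := hd.hβ
  obtain ⟨C0, -, hcut⟩ := Polar.exists_ball_cutoff n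
  obtain ⟨ρ, hρcc, hρ01, hρ1, -⟩ := hcut y₀ t₁ (2 * t₁) ht (by linarith)
  have hρD : Polar.Cc (ball y₀ S) ρ := hρcc.mono (ball_subset_closedBall.trans h)
  obtain ⟨ω, W, hC, hωc, hω01, hρω, hωout⟩ :=
    Polar.exists_raw (by omega) hp hα hβ hd.op hd.adm hS hρD hρ01
  refine ⟨ω, pot_of_cobs hd hS ht h hρcc hρ01 hρ1 hC hωc hω01 hρω hωout, ?_⟩
  have hv := Polar.H0.pos hp (Polar.H0.const_mul 2 (Polar.H0.of_Cc (p := p) (μ := μ) hφ))
    (le_refl (0 : ℝ))
  have hE := obs_energy hd hC.obs hv (Eventually.of_forall fun x => by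
    by_cases hx : x ∈ ball y₀ (2 * t₁)
    · have h1 := hφ1 x hx
      have h2 := (hρ01 x).2
      have h3 := le_max_left (2 * φ x - 0) 0
      linarith
    · rw [Polar.zero_of_notMem (fun hx' => hx (hρcc.supp hx'))]
      exact le_max_right _ _)
  have hE2 : ∫ x, ‖(if 0 < 2 * φ x then (1 : ℝ) else 0) • ((2 : ℝ) • gradient φ x)‖ ^ p ∂μ ≤
      2 ^ p * ∫ x, ‖gradient φ x‖ ^ p ∂μ := by
    rw [← integral_const_mul]
    refine integral_mono (Polar.int_rpow hp hv.mU)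
      ((Polar.int_rpow hp (hφ.memLp_grad _)).const_mul _) (fun x => ?_)
    show ‖(if 0 < 2 * φ x then (1 : ℝ) else 0) • ((2 : ℝ) • gradient φ x)‖ ^ p ≤
      2 ^ p * ‖gradient φ x‖ ^ p
    rw [← Real.mul_rpow (by norm_num) (norm_nonneg _)]
    refine Real.rpow_le_rpow (norm_nonneg _) ?_ hp0.le
    split_ifs with h1
    · rw [one_smul, norm_smul, Real.norm_of_nonneg (by norm_num)]
    · rw [zero_smul, norm_zero]
      positivity
  have hsob := hd.adm.sob y₀ S hS ω W hC.obs.h0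
  have hSm : 0 < μ.real (ball y₀ S) :=
    ENNReal.toReal_pos (hd.adm.pos y₀ S hS).ne' (hd.adm.fin y₀ S).ne
  have hratio : (μ.real {y | ω y ≠ 0} / μ.real (ball y₀ S)) ^ θ ≤ 1 := by
    refine Real.rpow_le_one (div_nonneg measureReal_nonneg measureReal_nonneg) ?_
      hd.adm.theta_pos.le
    rw [div_le_one hSm]
    refine measureReal_mono ?_ (hd.adm.fin y₀ S).ne
    intro y hy
    by_contra hyb
    exact hy (hωout y hyb)
  have hWn : 0 ≤ ∫ x, ‖W x‖ ^ p ∂μ := integral_nonneg fun x => Real.rpow_nonneg (norm_nonneg _) _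
  have hCs := hd.adm.Cs_pos
  calc ∫ x, |ω x| ^ p ∂μ ≤ Cs * S ^ p * (μ.real {y | ω y ≠ 0} / μ.real (ball y₀ S)) ^ θ *
        ∫ y, ‖W y‖ ^ p ∂μ := hsob
    _ ≤ Cs * S ^ p * 1 * ∫ y, ‖W y‖ ^ p ∂μ := by gcongr
    _ = Cs * S ^ p * ∫ y, ‖W y‖ ^ p ∂μ := by ring
    _ ≤ Cs * S ^ p * ((2 * β / α) ^ p * (2 ^ p * ∫ x, ‖gradient φ x‖ ^ p ∂μ)) := by
        refine mul_le_mul_of_nonneg_left (hE.trans ?_) (by positivity)
        exact mul_le_mul_of_nonneg_left hE2 (by positivity)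
    _ = Cs * S ^ p * ((4 * β / α) ^ p * ∫ x, ‖gradient φ x‖ ^ p ∂μ) := by
        have e0 : 2 * β / α * 2 = 4 * β / α := by ring
        rw [← mul_assoc ((2 * β / α) ^ p), ← Real.mul_rpow (by positivity) (by norm_num), e0]

/-- potentials of small balls about a polar point are small -/
theorem exists_pot_small (hn : 2 ≤ n) (hd : Dat n p α β Cd θ Cs lam Cp μ A) {y₀ e : Sp n} {S : ℝ}
    (hS : 0 < S) (hpol : PolarPt p μ y₀ S) (he : e ≠ y₀) {ε : ℝ} (hε : 0 < ε) :
    ∃ (t₁ : ℝ) (ω : Sp n → ℝ), 0 < t₁ ∧ t₁ < ε ∧ closedBall y₀ (2 * t₁) ⊆ ball y₀ S ∧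
      Pot A p μ y₀ S y₀ t₁ ω ∧ ω e ≤ ε := by
  haveI := hd.fin
  have hp := hd.hp
  have hp0 : 0 < p := by linarith
  have hα := hd.hα
  have hβ := hd.hβ
  have hCs := hd.adm.Cs_pos
  obtain ⟨d, hdd⟩ : ∃ d : ℝ, d = dist e y₀ := ⟨_, rfl⟩
  have hd0 : 0 < d := by rw [hdd]; exact dist_pos.2 he
  -- choice of the constants
  obtain ⟨ε', hε', hfin⟩ : ∃ ε' : ℝ, 0 < ε' ∧ ∀ (t₁ : ℝ) (ω : Sp n → ℝ), 0 < t₁ → 4 * t₁ < d →
      Pot A p μ y₀ S y₀ t₁ ω → Integrable (fun x => |ω x| ^ p) μ →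
      ∫ x, |ω x| ^ p ∂μ ≤ Cs * S ^ p * ((4 * β / α) ^ p * ε') → ω e ≤ ε := by
    by_cases heS : e ∈ ball y₀ S
    · have hdS : d < S := by rw [hdd]; exact heS
      obtain ⟨r, hr⟩ : ∃ r : ℝ, r = min (d / 4) ((S - d) / 2) := ⟨_, rfl⟩
      have hr0 : 0 < r := by rw [hr]; exact lt_min (by linarith) (by linarith)
      have hr1 : r ≤ d / 4 := by rw [hr]; exact min_le_left _ _
      have hr2 : r ≤ (S - d) / 2 := by rw [hr]; exact min_le_right _ _
      have hG : IsOpen (ball y₀ S \ closedBall y₀ (d / 2)) := isOpen_ball.sdiff isClosed_closedBall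
      have hKG : closedBall e r ⊆ ball y₀ S \ closedBall y₀ (d / 2) := by
        intro z hz
        rw [mem_closedBall] at hz
        refine ⟨?_, ?_⟩
        · rw [mem_ball]
          have := dist_triangle z e y₀
          linarith
        · rw [mem_closedBall, not_le]
          have := dist_triangle e z y₀
          rw [dist_comm e z] at this
          linarith
      obtain ⟨C, hC1, hC⟩ := harnack_conn hd hG (isCompact_closedBall e r)
        (convex_closedBall e r).isPreconnected hKG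
      have hC0 : 0 < C := by linarith
      have hK : 0 < μ.real (closedBall e r) := by
        have h1 : 0 < μ.real (ball e r) :=
          ENNReal.toReal_pos (hd.adm.pos e r hr0).ne' (hd.adm.fin e r).ne
        exact h1.trans_le (measureReal_mono ball_subset_closedBall
          (isCompact_closedBall e r).measure_lt_top.ne)
      refine ⟨(ε / C) ^ p * μ.real (closedBall e r) / (Cs * S ^ p * (4 * β / α) ^ p),
        by positivity, ?_⟩
      intro t₁ ω ht₁ ht₁d hω hint hle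
      have hharm : Harm A p μ (ball y₀ S \ closedBall y₀ (d / 2)) ω := by
        refine Harm.mono hd hω.harm hG ?_
        exact sdiff_subset_sdiff_right (closedBall_subset_closedBall (by linarith))
      have h1 : ∀ z ∈ closedBall e r, ω e ≤ C * ω z := fun z hz =>
        hC ω hharm (fun y _ => hω.nonneg y) e (mem_closedBall_self hr0.le) z hz
      have h2 : μ.real (closedBall e r) * (ω e / C) ^ p ≤ ∫ x, |ω x| ^ p ∂μ := by
        calc μ.real (closedBall e r) * (ω e / C) ^ p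
            = ∫ x in closedBall e r, (ω e / C) ^ p ∂μ := by
              rw [setIntegral_const, smul_eq_mul]
          _ ≤ ∫ x in closedBall e r, |ω x| ^ p ∂μ := by
              refine setIntegral_mono_on ?_ hint.integrableOn measurableSet_closedBall ?_
              · exact integrableOn_const (isCompact_closedBall e r).measure_lt_top.ne
              · intro x hx
                refine Real.rpow_le_rpow (div_nonneg (hω.nonneg e) hC0.le) ?_ hp0.le
                rw [abs_of_nonneg (hω.nonneg x), div_le_iff₀ hC0]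
                linarith [h1 x hx]
          _ ≤ ∫ x, |ω x| ^ p ∂μ :=
              setIntegral_le_integral hint
                (Eventually.of_forall fun x => Real.rpow_nonneg (abs_nonneg _) _)
      have h3 : Cs * S ^ p * ((4 * β / α) ^ p * ((ε / C) ^ p * μ.real (closedBall e r) /
          (Cs * S ^ p * (4 * β / α) ^ p))) = μ.real (closedBall e r) * (ε / C) ^ p := by
        have e1 : (0 : ℝ) < (4 * β / α) ^ p := by positivity
        have e2 : (0 : ℝ) < S ^ p := by positivity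
        field_simp
      rw [h3] at hle
      have h4 : (ω e / C) ^ p ≤ (ε / C) ^ p := le_of_mul_le_mul_left (h2.trans hle) hK
      have h5 := (Real.rpow_le_rpow_iff (div_nonneg (hω.nonneg e) hC0.le)
        (div_nonneg hε.le hC0.le) hp0).1 h4
      exact (div_le_div_iff_of_pos_right hC0).1 h5
    · refine ⟨1, one_pos, fun t₁ ω _ _ hω _ _ => ?_⟩
      rw [hω.zero e heS]
      exact hε.le
  -- the test function
  obtain ⟨φ, hφ, hφ1, hφE⟩ := hpol ε' hε'
  have hopen : IsOpen {x | 1 < 2 * φ x} :=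
    isOpen_lt continuous_const (continuous_const.mul hφ.cont)
  obtain ⟨t, ht0, ht⟩ := Metric.isOpen_iff.1 hopen y₀ (by
    show 1 < 2 * φ y₀
    linarith)
  obtain ⟨t₁, ht₁⟩ : ∃ t₁ : ℝ, t₁ = min (min (t / 2) (ε / 2)) (min (S / 4) (d / 8)) := ⟨_, rfl⟩
  have h1 : t₁ ≤ t / 2 := by rw [ht₁]; exact (min_le_left _ _).trans (min_le_left _ _)
  have h2 : t₁ ≤ ε / 2 := by rw [ht₁]; exact (min_le_left _ _).trans (min_le_right _ _)
  have h3 : t₁ ≤ S / 4 := by rw [ht₁]; exact (min_le_right _ _).trans (min_le_left _ _)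
  have h4 : t₁ ≤ d / 8 := by rw [ht₁]; exact (min_le_right _ _).trans (min_le_right _ _)
  have h5 : 0 < t₁ := by
    rw [ht₁]
    exact lt_min (lt_min (by linarith) (by linarith)) (lt_min (by linarith) (by linarith))
  have hsub : closedBall y₀ (2 * t₁) ⊆ ball y₀ S := closedBall_subset_ball (by linarith)
  obtain ⟨ω, hω, hωE⟩ := exists_pot_energy hn hd hS h5 hsub hφ (fun x hx =>
    le_of_lt (ht (ball_subset_ball (by linarith) hx)))
  refine ⟨t₁, ω, h5, by linarith, hsub, hω, ?_⟩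
  have hcs : HasCompactSupport ω :=
    HasCompactSupport.intro (isCompact_closedBall y₀ S) fun x hx =>
      hω.zero x fun hx' => hx (ball_subset_closedBall hx')
  have hint : Integrable (fun x => |ω x| ^ p) μ := by
    refine Continuous.integrable_of_hasCompactSupport
      (hω.cont.abs.rpow_const fun x => Or.inr hp0.le) ?_
    refine HasCompactSupport.intro (isCompact_closedBall y₀ S) fun x hx => ?_
    rw [hω.zero x fun hx' => hx (ball_subset_closedBall hx'), abs_zero, Real.zero_rpow hp0.ne']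
  refine hfin t₁ ω h5 (by linarith) hω hint (hωE.trans ?_)
  refine mul_le_mul_of_nonneg_left ?_ (by positivity)
  exact mul_le_mul_of_nonneg_left hφE.le (by positivity)

end Pool.Agent.Helper80.HMO
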